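import Pool.Agent.T6.H9.HY.AsmH

/-!
# The mean over the family as a quotient of averages

Owner helper9.
-/

set_option autoImplicit false

open Filter Topology Polynomial NumberField IsDedekindDomain

namespace Pool.Agent.T6.H9.HY

open Pool.Agent.T6.H9.MV Pool.Agent.T6.H9.HypL

section

variable {K : Type} [Field K] [NumberField K] {ι : Type} [Fintype ι] [DecidableEq ι] {m : ℕ}

open Classical in
lemma famH_eq (ω : Module.Basis ι ℤ (𝓞 K)) (B : Fin m × ι → ℕ) :
    Fam ω m B = ((((box B).filter fun x =>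
      ((poly m (ptH ω m x)).map (algebraMap (𝓞 K) K)).Separable).image
        (fun x => poly m (ptH ω m x)) : Finset (𝓞 K)[X]) : Set (𝓞 K)[X]) := by
  ext f
  rw [Finset.mem_coe, Finset.mem_image]
  constructor
  · rintro ⟨h1, h2, h3, h4⟩
    obtain ⟨x, hx⟩ := ptH_surj ω (fun i : Fin m => f.coeff (i : ℕ))
    have hf : poly m (ptH ω m x) = f := by
      rw [hx]
      have := eq_poly h1
      rw [h2] at this
      exact this.symm
    refine ⟨x, ?_, hf⟩
    rw [Finset.mem_filter, hf]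
    refine ⟨?_, h4⟩
    rw [mem_box]
    rintro ⟨i, j⟩
    have h5 := h3 i j
    have h6 : f.coeff (i : ℕ) = ptH ω m x i := by rw [hx]
    rw [h6, ptH_apply, ← Module.Basis.equivFun_apply] at h5
    have h7 := congrFun (ω.equivFun.apply_symm_apply fun j => x (i, j)) j
    rw [h7] at h5
    exact h5
  · rintro ⟨x, hx, rfl⟩
    rw [Finset.mem_filter, mem_box] at hx
    obtain ⟨h1, h4⟩ := hx
    refine ⟨poly_monic _ _, poly_natDegree _ _, fun i j => ?_, h4⟩
    rw [poly_coeff, ptH_apply, ← Module.Basis.equivFun_apply]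
    have h7 := congrFun (ω.equivFun.apply_symm_apply fun j => x (i, j)) j
    rw [h7]
    exact h1 (i, j)

lemma meanH_eq (ω : Module.Basis ι ℤ (𝓞 K)) (B : Fin m × ι → ℕ) (F : (𝓞 K)[X] → ℂ) :
    mean (Fam ω m B) F = avg (box B) (fun x => WtH (ptH ω m x) * F (poly m (ptH ω m x))) /
      avg (box B) (fun x => WtH (ptH ω m x)) := by
  classical
  have hc : ((box B).card : ℂ) ≠ 0 := by exact_mod_cast (card_box_pos _).ne'
  have hinj : Function.Injective fun x => poly m (ptH ω m x) := (poly_inj m).comp (ptH_inj ω)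
  have h1 : ∀ G : (𝓞 K)[X] → ℂ, ∑ x ∈ box B, WtH (ptH ω m x) * G (poly m (ptH ω m x)) =
      ∑ x ∈ (box B).filter fun x => ((poly m (ptH ω m x)).map (algebraMap (𝓞 K) K)).Separable,
        G (poly m (ptH ω m x)) := by
    intro G
    rw [Finset.sum_filter]
    refine Finset.sum_congr rfl fun x _ => ?_
    unfold WtH
    split_ifs <;> simp
  have h2 : ∑ᶠ p ∈ Fam ω m B, F p =
      ∑ x ∈ box B, WtH (ptH ω m x) * F (poly m (ptH ω m x)) := by
    rw [famH_eq, finsum_mem_coe_finset, h1, Finset.sum_image fun x _ y _ h => hinj h]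
  have h3 : ((Fam ω m B).ncard : ℂ) = ∑ x ∈ box B, WtH (ptH ω m x) := by
    rw [famH_eq, Set.ncard_coe_finset, Finset.card_image_of_injective _ hinj]
    have := h1 (fun _ => 1)
    simp only [mul_one] at this
    rw [this]
    simp
  unfold mean avg
  rw [h2, h3, div_div_div_cancel_right₀ hc]

lemma tendsto_denH (ω : Module.Basis ι ℤ (𝓞 K)) (hm : 1 ≤ m) :
    Tendsto (fun B : Fin m × ι → ℕ => avg (box B) (fun x => WtH (ptH ω m x))) atTop (𝓝 1) := by
  have h1 := tendsto_famH ω hm (fun v _ => (1 : ℂ))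
    (β := fun _ => 0) summable_zero (fun v t => by simp)
  have h2 : ∀ v : HeightOneSpectrum (𝓞 K), fmean (fun _ : Fin m → kv v => (1 : ℂ)) = 1 :=
    fun v => fmean_one
  simp only [h2] at h1
  rw [tprod_one] at h1
  refine h1.congr fun B => ?_
  unfold avg
  congr 1
  refine Finset.sum_congr rfl fun x _ => ?_
  beta_reduce
  rw [mul_one]

/-- the mean over the family of an Euler product -/
theorem tendsto_meanH (ω : Module.Basis ι ℤ (𝓞 K)) (hm : 1 ≤ m) (F : (𝓞 K)[X] → ℂ)
    (g : ∀ v : HeightOneSpectrum (𝓞 K), (Fin m → kv v) → ℂ)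
    {β : HeightOneSpectrum (𝓞 K) → ℝ} (hβ : Summable β) (hg : ∀ v t, ‖g v t - 1‖ ≤ β v)
    (hF : ∀ a : Fin m → 𝓞 K, ∏' v, g v (redH v a) = F (poly m a)) :
    Tendsto (fun B : Fin m × ι → ℕ => mean (Fam ω m B) F) atTop (𝓝 (∏' v, fmean (g v))) := by
  have h1 := tendsto_famH ω hm g hβ hg
  have h3 := Filter.Tendsto.div h1 (tendsto_denH ω hm) one_ne_zero
  rw [div_one] at h3
  refine h3.congr fun B => ?_
  rw [meanH_eq]
  simp only [hF]
  rfl

end

end Pool.Agent.T6.H9.HY
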