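import Pool.Agent.T6.H9.HY.PlaceH

/-!
# Assembly

Owner helper9.
-/

set_option autoImplicit false
set_option linter.unusedSectionVars false
set_option linter.style.haveILetI false
set_option linter.unusedVariables false

open Filter Topology Polynomial NumberField IsDedekindDomain

namespace Pool.Agent.T6.H9.HY

open Pool.Agent.T6.H9.MV Pool.Agent.H341R2.Sharp

section

variable {K : Type} [Field K] [NumberField K] {m r : ℕ}

/-! ### holomorphy -/

lemma locH_ne_zero (v : HeightOneSpectrum (𝓞 K)) (t : Fin m → kv v) (s : ℂ) : locH v t s ≠ 0 := by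
  unfold locH
  split_ifs
  · exact one_ne_zero
  · exact Complex.exp_ne_zero _
  · exact one_ne_zero

lemma kap_lt_one (v : HeightOneSpectrum (𝓞 K)) {s : ℂ} (hs : cH m ≤ s.re) :
    √(qv v : ℝ) * ‖(qv v : ℂ) ^ (-s)‖ < 1 :=
  (((kap_le v hs).trans (kap_rho v le_rfl)).trans (rho_sq_le m)).trans_lt (rhoH_lt_one m)

lemma diff_locH (hm : Odd m) (v : HeightOneSpectrum (𝓞 K)) (t : Fin m → kv v) (k : Fin r)
    {x : Fin r → ℂ} (hx : cH m < (x k).re) :
    DifferentiableAt ℂ (fun s : Fin r → ℂ => locH v t (s k)) x := by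
  unfold locH
  split_ifs with h2 h3
  · exact differentiableAt_const _
  · have h1 : DifferentiableAt ℂ (fun s : Fin r → ℂ => (qv v : ℂ) ^ (-(s k))) x :=
      diff_cpow v _ (by fun_prop)
    have h4 : DifferentiableAt ℂ (EF (mkP m t)) ((qv v : ℂ) ^ (-(x k))) := by
      refine EF_diff (ringChar_kv h2) (by rw [mkP_natDegree]; exact hm) ?_
      rw [card_kv']
      exact kap_lt_one v hx.le
    exact DifferentiableAt.comp (g := EF (mkP m t)) x h4 h1
  · exact differentiableAt_const _

/-- the correction factors are holomorphic -/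
lemma diff_hlocH (hm : Odd m) (n : Fin r → ℤ) (v : HeightOneSpectrum (𝓞 K)) {x : Fin r → ℂ}
    (hx : x ∈ Om r (cH m)) : DifferentiableAt ℂ (fun s => hlocH m n s v) x := by
  have h1 : DifferentiableAt ℂ (fun s => fmean (glH m n s v)) x := by
    have h2 : (fun s : Fin r → ℂ => fmean (glH m n s v)) =
        fun s => (∑ t, glH m n s v t) / (Fintype.card (Fin m → kv v) : ℂ) := by
      funext s
      rw [fmean_eq]
    rw [h2]
    refine diff_div (DifferentiableAt.fun_sum fun t _ => ?_) _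
    unfold glH
    refine diff_prod _ fun k _ => ?_
    exact (diff_locH hm v t k (hx k)).zpow (Or.inl (locH_ne_zero v t _))
  have h2 : DifferentiableAt ℂ (fun s => Zl n s v) x := by
    unfold Zl
    refine diff_prod _ fun p _ => ?_
    have h3 : DifferentiableAt ℂ
        (fun s : Fin r → ℂ => 1 - (qv v : ℂ) ^ (-(s p.1 + s p.2 - 1))) x :=
      (differentiableAt_const _).sub (diff_cpow v _ (by fun_prop))
    exact h3.zpow (Or.inl (ZlH_ne_zero v (hx p.1).le (hx p.2).le))
  unfold hlocH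
  exact h1.mul h2

variable (K) in
/-- the correction function -/
noncomputable def HfH (m : ℕ) (n : Fin r → ℤ) (s : Fin r → ℂ) : ℂ :=
  ∏' v : HeightOneSpectrum (𝓞 K), hlocH m n s v

theorem differentiableOn_HfH (hm : Odd m) (n : Fin r → ℤ) :
    DifferentiableOn ℂ (HfH K m n) (Om r (cH m)) := by
  intro x hx
  obtain ⟨δ, hδ, hxδ⟩ := exists_delta hx
  obtain ⟨β, hβ, hb⟩ := hlocH_bound (K := K) hm n hδ
  have h1 : TendstoUniformlyOn (fun (D : Finset (HeightOneSpectrum (𝓞 K))) s =>
      ∏ v ∈ D, hlocH m n s v) (HfH K m n) atTop (Om r (cH m + δ)) :=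
    tendstoUniformlyOn_prod hβ fun v s hs => hb s hs v
  have h2 := differentiableOn_of_tendstoUniformlyOn (U := Om r (cH m + δ))
    (V := Om r (cH m + δ + δ)) hδ (isOpen_Om _ _) (fun y hy => ball_Om hy) (fun D => by
      intro y hy
      have hy' : y ∈ Om r (cH m) := fun k => by linarith [hy k]
      exact (diff_prod D fun v _ => diff_hlocH hm n v hy').differentiableWithinAt) h1
  exact ((h2 x hxδ).differentiableAt ((isOpen_Om _ _).mem_nhds hxδ)).differentiableWithinAt

/-! ### real points -/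

lemma EF_real {F : Type} [Field F] [Fintype F] [DecidableEq F] (f : F[X]) (u : ℝ) :
    ∃ y : ℝ, 0 < y ∧ EF f (u : ℂ) = y := by
  refine ⟨Real.exp (∑' j : ℕ, (-(T f (j + 1) : ℝ)) * u ^ (j + 1) / ((j : ℝ) + 1)),
    Real.exp_pos _, ?_⟩
  unfold EF LS
  push_cast
  rfl

lemma locH_real (v : HeightOneSpectrum (𝓞 K)) (t : Fin m → kv v) {s : ℂ} (hs0 : s.im = 0) :
    ∃ y : ℝ, 0 < y ∧ locH v t s = y := by
  unfold locH
  split_ifs with h2 h3
  · exact ⟨1, one_pos, by simp⟩
  · rw [cpow_real v hs0]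
    exact EF_real _ _
  · exact ⟨1, one_pos, by simp⟩

lemma hlocH_ne_zero (n : Fin r → ℤ) (v : HeightOneSpectrum (𝓞 K)) {s : Fin r → ℂ}
    (hs : s ∈ Om r (cH m)) (hs0 : ∀ k, (s k).im = 0) : hlocH m n s v ≠ 0 := by
  classical
  have h1 : ∀ t : Fin m → kv v, ∃ y : ℝ, 0 < y ∧ glH m n s v t = y := by
    intro t
    choose y hy0 hy using fun k => locH_real v t (hs0 k)
    refine ⟨∏ k, y k ^ n k, Finset.prod_pos fun k _ => zpow_pos (hy0 k) _, ?_⟩
    unfold glH
    push_cast
    refine Finset.prod_congr rfl fun k _ => ?_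
    rw [hy k]
  choose y hy0 hy using h1
  have hc : (0 : ℝ) < Fintype.card (Fin m → kv v) := by exact_mod_cast Fintype.card_pos
  have h2 : fmean (glH m n s v) =
      (((∑ t, y t) / (Fintype.card (Fin m → kv v) : ℝ) : ℝ) : ℂ) := by
    rw [fmean_eq]
    push_cast
    simp only [hy]
  have h3 : 0 < (∑ t, y t) / (Fintype.card (Fin m → kv v) : ℝ) :=
    div_pos (Finset.sum_pos (fun t _ => hy0 t) Finset.univ_nonempty) hc
  unfold hlocH
  refine mul_ne_zero ?_ (Zl_ne_zeroH (m := m) n v fun k => (hs k).le)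
  rw [h2]
  exact_mod_cast h3.ne'

theorem HfH_ne_zero (hm : Odd m) (n : Fin r → ℤ) {s : Fin r → ℂ} (hs : s ∈ Om r (cH m))
    (hs0 : ∀ k, (s k).im = 0) : HfH K m n s ≠ 0 := by
  obtain ⟨δ, hδ, hxδ⟩ := exists_delta hs
  obtain ⟨β, hβ, hb⟩ := hlocH_bound (K := K) hm n hδ
  exact tprod_ne_zero' hβ (fun v => hb s (fun k => by linarith [hxδ k]) v)
    fun v => hlocH_ne_zero n v hs hs0

/-! ### the Euler factors -/

lemma pts_eq (a : Fin m → 𝓞 K) (v : HeightOneSpectrum (𝓞 K)) (j : ℕ) :
    HypL.pts (poly m a) v j = Pool.Agent.H126T.affPts (kv v) (mkP m (redH v a)) 1 j := by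
  unfold HypL.pts Pool.Agent.H126T.affPts
  rw [← poly_red, card_kv]
  simp only [map_one, one_mul]

theorem factor_eqH (a : Fin m → 𝓞 K) (v : HeightOneSpectrum (𝓞 K)) (s : ℂ) :
    HypL.factor (poly m a) v s = locH v (redH v a) s := by
  classical
  unfold HypL.factor locH
  have hsep : ((poly m a).map (Ideal.Quotient.mk v.asIdeal)).Separable ↔
      Squarefree (mkP m (redH v a)) := by
    rw [poly_red]
    exact PerfectField.separable_iff_squarefree
  by_cases h2 : (2 : 𝓞 K) ∈ v.asIdeal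
  · rw [if_pos (Or.inl h2), if_pos h2]
  · rw [if_neg h2]
    by_cases h3 : Squarefree (mkP m (redH v a))
    · rw [if_pos h3, if_neg (by
        rintro (h | h)
        · exact h2 h
        · exact h (hsep.2 h3))]
      unfold EF LS
      congr 1
      refine tsum_congr fun j => ?_
      have hT := T_eq_aff (ringChar_kv h2) (mkP m (redH v a)) (j := j + 1) (Nat.succ_ne_zero j)
      rw [← pts_eq, card_kv'] at hT
      have hT' : (T (mkP m (redH v a)) (j + 1) : ℂ) =
          (HypL.pts (poly m a) v (j + 1) : ℂ) - (qv v : ℂ) ^ (j + 1) := by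
        rw [hT]
        push_cast
        ring
      beta_reduce
      rw [hT']
      push_cast
      unfold qv
      ring
    · rw [if_neg h3, if_pos (Or.inr fun h => h3 (hsep.1 h))]

/-! ### the region of convergence -/

/-- the Euler product of one L-function -/
lemma hasProd_LH (hm : Odd m) (a : Fin m → 𝓞 K) {s : ℂ} (hs : 3 / 2 < s.re) :
    HasProd (fun v => locH v (redH v a) s) (HypL.Lfun (poly m a) s) ∧
      HypL.Lfun (poly m a) s ≠ 0 := by
  obtain ⟨β, hβ, hb⟩ := glH_bound (K := K) hm (r := 1) (fun _ => 1) (s := fun _ => s)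
    (fun _ => hs)
  have hb' : ∀ v, ‖locH v (redH v a) s - 1‖ ≤ β v := by
    intro v
    have := hb v (redH v a)
    unfold glH at this
    simpa using this
  have h1 : HypL.Lfun (poly m a) s = ∏' v, locH v (redH v a) s := by
    unfold HypL.Lfun
    exact tprod_congr fun v => factor_eqH a v s
  rw [h1]
  exact ⟨(multipliable_of_bound hβ hb').hasProd,
    tprod_ne_zero' hβ hb' fun v => locH_ne_zero v _ s⟩

lemma tprod_glH (hm : Odd m) (n : Fin r → ℤ) {s : Fin r → ℂ} (hs : s ∈ Om r (3 / 2))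
    (a : Fin m → 𝓞 K) :
    ∏' v, glH m n s v (redH v a) = ∏ k, HypL.Lfun (poly m a) (s k) ^ n k := by
  have h1 : ∀ k ∈ (Finset.univ : Finset (Fin r)),
      HasProd (fun v => locH v (redH v a) (s k) ^ n k) (HypL.Lfun (poly m a) (s k) ^ n k) := by
    intro k _
    obtain ⟨h2, h3⟩ := hasProd_LH hm a (hs k)
    exact hasProd_zpow h2 h3 (n k)
  have h2 := hasProd_prod h1
  exact h2.tprod_eq

/-- the factorisation of the limit -/
lemma limit_eqH (hm : Odd m) (n : Fin r → ℤ) {s : Fin r → ℂ} (hs : s ∈ Om r (3 / 2)) :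
    ∏' v : HeightOneSpectrum (𝓞 K), fmean (glH m n s v) =
      (∏ p ∈ prs r, dedekindZeta K (s p.1 + s p.2 - 1) ^ ex n p) * HfH K m n s := by
  have hc := cH_le m hm.pos
  obtain ⟨β, hβ, hb⟩ := hlocH_bound (K := K) hm n (δ := 1 / 2) (by norm_num)
  have h1 : HasProd (fun v : HeightOneSpectrum (𝓞 K) => hlocH m n s v) (HfH K m n s) :=
    (multipliable_of_bound hβ fun v => hb s (fun k => by linarith [hs k]) v).hasProd
  have h2 := (hasProd_Zl (K := K) n hs).mul h1
  rw [← h2.tprod_eq]
  refine tprod_congr fun v => ?_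
  have hZ : Zl n s v ≠ 0 := Zl_ne_zeroH (m := m) n v fun k => by linarith [hs k]
  unfold hlocH
  field_simp

end

end Pool.Agent.T6.H9.HY
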