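import Mathlib

/-!
# Definitions for the mean values of L-functions of hyperelliptic curves over number fields

Owner helper9.
-/

set_option autoImplicit false

open NumberField IsDedekindDomain Polynomial

namespace Pool.Agent.T6.H9.HypL

variable {K : Type} [Field K] [NumberField K]

/-- The number of solutions of `y² = f(x)` with `x`, `y` in the extension of degree `j` of the
residue field `k = 𝓞_K / v` (inside an algebraic closure of `k`). -/
noncomputable def pts (f : (𝓞 K)[X]) (v : HeightOneSpectrum (𝓞 K)) (j : ℕ) : ℕ :=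
  letI : Field (𝓞 K ⧸ v.asIdeal) := haveI := v.isMaximal; Ideal.Quotient.field v.asIdeal
  Nat.card {P : AlgebraicClosure (𝓞 K ⧸ v.asIdeal) × AlgebraicClosure (𝓞 K ⧸ v.asIdeal) //
    P.1 ^ (Ideal.absNorm v.asIdeal ^ j) = P.1 ∧ P.2 ^ (Ideal.absNorm v.asIdeal ^ j) = P.2 ∧
    P.2 ^ 2 = aeval P.1 (f.map (Ideal.Quotient.mk v.asIdeal))}

open Classical in
/-- The Euler factor at `v` of the L-function of the curve `C : y² = f(x)`, `f` monic of odd
degree. If `v ∤ 2` and `f` is separable modulo `v` then `C` has good reduction at `v`, the reduction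
has `pts f v j + 1` points over the extension of degree `j` of the residue field, and with
`q = N v` the Euler factor is `exp (∑_{j ≥ 1} (q^j - pts f v j) q^{-js} / j)`; at the other `v` the
Euler factor is omitted. -/
noncomputable def factor (f : (𝓞 K)[X]) (v : HeightOneSpectrum (𝓞 K)) (s : ℂ) : ℂ :=
  if (2 : 𝓞 K) ∈ v.asIdeal ∨ ¬ (f.map (Ideal.Quotient.mk v.asIdeal)).Separable then 1 else
    Complex.exp (∑' j : ℕ,
      (((Ideal.absNorm v.asIdeal : ℤ) ^ (j + 1) - (pts f v (j + 1) : ℤ) : ℤ) : ℂ) *
        ((Ideal.absNorm v.asIdeal : ℂ) ^ (-s)) ^ (j + 1) / ((j : ℂ) + 1))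

/-- The L-function of `y² = f(x)` over `K`, without the Euler factors at the primes dividing `2`
and the discriminant of `f`. -/
noncomputable def Lfun (f : (𝓞 K)[X]) (s : ℂ) : ℂ :=
  ∏' v : HeightOneSpectrum (𝓞 K), factor f v s

/-- The family of all monic separable polynomials of degree `m` over `𝓞_K` such that the
coordinates with respect to the integral basis `ω` of the coefficient of `X^i` are bounded by
`B (i, j)`. -/
def Fam {ι : Type} [Fintype ι] (ω : Module.Basis ι ℤ (𝓞 K)) (m : ℕ) (B : Fin m × ι → ℕ) :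
    Set (𝓞 K)[X] :=
  {f | f.Monic ∧ f.natDegree = m ∧
    (∀ (i : Fin m) (j : ι), |ω.repr (f.coeff (i : ℕ)) j| ≤ (B (i, j) : ℤ)) ∧
    (f.map (algebraMap (𝓞 K) K)).Separable}

/-- The mean of a function over a finite set. -/
noncomputable def mean {α : Type} (S : Set α) (F : α → ℂ) : ℂ :=
  (∑ᶠ p ∈ S, F p) / (S.ncard : ℂ)

end Pool.Agent.T6.H9.HypL
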