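import Pool.Agent.H341R2.WeilSharp
import Pool.Agent.T6.H9.MV.Taylor

/-!
# Exponentials of power series attached to character sums

Owner helper9.
-/

set_option autoImplicit false
set_option linter.unusedSectionVars false
set_option linter.style.haveILetI false
set_option linter.unusedVariables false

open Filter Topology Asymptotics Finset

namespace Pool.Agent.T6.H9.HY

/-- `∑ t_m u^m / m` -/
noncomputable def LS (t : ℕ → ℂ) (u : ℂ) : ℂ := ∑' m : ℕ, t (m + 1) * u ^ (m + 1) / ((m : ℂ) + 1)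

section

variable {t : ℕ → ℂ} {C s : ℝ}

lemma LS_term (hs : 0 ≤ s) (hC : 0 ≤ C) (ht : ∀ m, 1 ≤ m → ‖t m‖ ≤ C * s ^ m) (u : ℂ) (m : ℕ) :
    ‖t (m + 1) * u ^ (m + 1) / ((m : ℂ) + 1)‖ ≤ C * (s * ‖u‖) ^ (m + 1) := by
  rw [norm_div, norm_mul, norm_pow]
  have h1 : (1 : ℝ) ≤ ‖(m : ℂ) + 1‖ := by
    have : ((m : ℂ) + 1) = ((m + 1 : ℕ) : ℂ) := by push_cast; rfl
    rw [this, Complex.norm_natCast]
    push_cast
    have : (0 : ℝ) ≤ m := Nat.cast_nonneg m
    linarith
  calc ‖t (m + 1)‖ * ‖u‖ ^ (m + 1) / ‖(m : ℂ) + 1‖ ≤ ‖t (m + 1)‖ * ‖u‖ ^ (m + 1) / 1 := by gcongr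
    _ ≤ (C * s ^ (m + 1)) * ‖u‖ ^ (m + 1) := by
      rw [div_one]
      exact mul_le_mul_of_nonneg_right (ht _ (by omega)) (by positivity)
    _ = C * (s * ‖u‖) ^ (m + 1) := by rw [mul_pow]; ring

lemma geo_summable {x : ℝ} (hx0 : 0 ≤ x) (hx : x < 1) (C : ℝ) :
    Summable fun m : ℕ => C * x ^ (m + 1) := by
  have := (summable_geometric_of_lt_one hx0 hx).mul_left (C * x)
  refine this.congr fun m => ?_
  rw [pow_succ]
  ring

lemma LS_summable (hs : 0 ≤ s) (hC : 0 ≤ C) (ht : ∀ m, 1 ≤ m → ‖t m‖ ≤ C * s ^ m) {u : ℂ}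
    (hu : s * ‖u‖ < 1) : Summable fun m : ℕ => t (m + 1) * u ^ (m + 1) / ((m : ℂ) + 1) :=
  Summable.of_norm_bounded (geo_summable (by positivity) hu C) fun m => LS_term hs hC ht u m

lemma LS_norm (hs : 0 ≤ s) (hC : 0 ≤ C) (ht : ∀ m, 1 ≤ m → ‖t m‖ ≤ C * s ^ m) {u : ℂ} {ρ : ℝ}
    (hu : s * ‖u‖ ≤ ρ) (hρ : ρ < 1) : ‖LS t u‖ ≤ C * (s * ‖u‖) / (1 - ρ) := by
  have hx0 : 0 ≤ s * ‖u‖ := by positivity
  have hx1 : s * ‖u‖ < 1 := by linarith
  have h1 : HasSum (fun m : ℕ => C * (s * ‖u‖) ^ (m + 1)) (C * (s * ‖u‖) / (1 - s * ‖u‖)) := by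
    have := (hasSum_geometric_of_lt_one hx0 hx1).mul_left (C * (s * ‖u‖))
    rw [← div_eq_mul_inv] at this
    refine this.congr_fun fun m => ?_
    rw [pow_succ]
    ring
  have h2 := LS_summable hs hC ht hx1
  have h3 : ‖LS t u‖ ≤ C * (s * ‖u‖) / (1 - s * ‖u‖) := by
    rw [← h1.tsum_eq]
    unfold LS
    exact (norm_tsum_le_tsum_norm (h1.summable.of_nonneg_of_le (fun _ => norm_nonneg _)
      fun m => LS_term hs hC ht u m)).trans (Summable.tsum_le_tsum
      (fun m => LS_term hs hC ht u m) (h1.summable.of_nonneg_of_le (fun _ => norm_nonneg _)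
      fun m => LS_term hs hC ht u m) h1.summable)
  refine h3.trans ?_
  apply div_le_div_of_nonneg_left (by positivity) (by linarith)
  linarith

lemma LS_bigO (hs : 0 < s) (hC : 0 ≤ C) (ht : ∀ m, 1 ≤ m → ‖t m‖ ≤ C * s ^ m) {n : ℕ}
    (h0 : ∀ m, 1 ≤ m → m ≤ n → t m = 0) : LS t =O[𝓝 0] fun u => u ^ (n + 1) := by
  refine IsBigO.of_bound (C * s ^ (n + 1) * 2) ?_
  have h1 : ∀ᶠ u : ℂ in 𝓝 0, ‖u‖ < 1 / (2 * s) := by
    have h2 : Tendsto (fun u : ℂ => ‖u‖) (𝓝 0) (𝓝 0) := by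
      have := (continuous_norm (E := ℂ)).tendsto 0
      simpa using this
    exact h2.eventually (gt_mem_nhds (by positivity))
  filter_upwards [h1] with u hu
  have hsu : s * ‖u‖ ≤ 1 / 2 := by
    rw [lt_div_iff₀ (by positivity)] at hu
    linarith
  have hx0 : 0 ≤ s * ‖u‖ := by positivity
  have hx1 : s * ‖u‖ < 1 := by linarith
  have hsum := LS_summable hs.le hC ht hx1
  have h2 : LS t u = ∑' m : ℕ, t (m + n + 1) * u ^ (m + n + 1) / (((m + n : ℕ) : ℂ) + 1) := by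
    unfold LS
    rw [← hsum.sum_add_tsum_nat_add n]
    have h3 : ∑ i ∈ range n, t (i + 1) * u ^ (i + 1) / ((i : ℂ) + 1) = 0 := by
      refine Finset.sum_eq_zero fun i hi => ?_
      rw [h0 (i + 1) (by omega) (by rw [Finset.mem_range] at hi; omega)]
      simp
    rw [h3, zero_add]
  have h3 : HasSum (fun m : ℕ => C * (s * ‖u‖) ^ (m + n + 1))
      (C * (s * ‖u‖) ^ (n + 1) / (1 - s * ‖u‖)) := by
    have := (hasSum_geometric_of_lt_one hx0 hx1).mul_left (C * (s * ‖u‖) ^ (n + 1))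
    rw [← div_eq_mul_inv] at this
    refine this.congr_fun fun m => ?_
    have : m + n + 1 = (n + 1) + m := by omega
    rw [this, pow_add]
    ring
  have h4 : ∀ m : ℕ, ‖t (m + n + 1) * u ^ (m + n + 1) / (((m + n : ℕ) : ℂ) + 1)‖ ≤
      C * (s * ‖u‖) ^ (m + n + 1) := fun m => LS_term hs.le hC ht u (m + n)
  rw [h2]
  refine (norm_tsum_le_tsum_norm (h3.summable.of_nonneg_of_le (fun _ => norm_nonneg _) h4)).trans ?_
  refine (Summable.tsum_le_tsum h4 (h3.summable.of_nonneg_of_le (fun _ => norm_nonneg _) h4)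
    h3.summable).trans ?_
  rw [h3.tsum_eq, norm_pow]
  have h5 : 1 / 2 ≤ 1 - s * ‖u‖ := by linarith
  calc C * (s * ‖u‖) ^ (n + 1) / (1 - s * ‖u‖) ≤ C * (s * ‖u‖) ^ (n + 1) / (1 / 2) := by
        apply div_le_div_of_nonneg_left (by positivity) (by norm_num) h5
    _ = C * s ^ (n + 1) * 2 * ‖u‖ ^ (n + 1) := by
      rw [mul_pow]
      field_simp

lemma LS_diff (hs : 0 < s) (hC : 0 ≤ C) (ht : ∀ m, 1 ≤ m → ‖t m‖ ≤ C * s ^ m) {u : ℂ}
    (hu : s * ‖u‖ < 1) : DifferentiableAt ℂ (LS t) u := by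
  obtain ⟨ρ, hρ1, hρ2⟩ := exists_between hu
  have hρ0 : 0 < ρ := lt_of_le_of_lt (by positivity) hρ1
  set U : Set ℂ := {w | s * ‖w‖ < ρ} with hU
  have hUo : IsOpen U := isOpen_lt (continuous_const.mul continuous_norm) continuous_const
  have h1 : DifferentiableOn ℂ (fun w => ∑' m : ℕ, t (m + 1) * w ^ (m + 1) / ((m : ℂ) + 1)) U := by
    refine Complex.differentiableOn_tsum_of_summable_norm (u := fun m : ℕ => C * ρ ^ (m + 1))
      (geo_summable hρ0.le hρ2 C) (fun m => ?_) hUo fun m w hw => ?_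
    · apply Differentiable.differentiableOn
      fun_prop
    · refine (LS_term hs.le hC ht w m).trans ?_
      have : s * ‖w‖ ≤ ρ := le_of_lt hw
      gcongr
  exact (h1 u hρ1).differentiableAt (hUo.mem_nhds hρ1)

lemma LS_tendsto (hs : 0 < s) (hC : 0 ≤ C) (ht : ∀ m, 1 ≤ m → ‖t m‖ ≤ C * s ^ m) :
    Tendsto (LS t) (𝓝 0) (𝓝 0) := by
  have h1 : ContinuousAt (LS t) 0 := (LS_diff hs hC ht (by simp)).continuousAt
  have h2 : LS t 0 = 0 := by
    unfold LS
    simp
  have := h1.tendsto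
  rwa [h2] at this

end

/-- the sequence attached to one irreducible polynomial -/
noncomputable def tP (d : ℕ) (lam : ℂ) (m : ℕ) : ℂ := if d ∣ m then -(d : ℂ) * lam ^ (m / d) else 0

lemma tP_norm {d : ℕ} {lam : ℂ} (hl : ‖lam‖ ≤ 1) (m : ℕ) : ‖tP d lam m‖ ≤ d * (1 : ℝ) ^ m := by
  unfold tP
  rw [one_pow, mul_one]
  split_ifs
  · rw [norm_mul, norm_neg, Complex.norm_natCast, norm_pow]
    have : ‖lam‖ ^ (m / d) ≤ 1 := pow_le_one₀ (norm_nonneg _) hl
    have hd : (0 : ℝ) ≤ d := Nat.cast_nonneg d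
    nlinarith
  · rw [norm_zero]
    positivity

lemma LS_tP {d : ℕ} (hd : 1 ≤ d) {lam u : ℂ} (hl : ‖lam‖ ≤ 1) (hu : ‖u‖ < 1) :
    LS (tP d lam) u = Complex.log (1 - lam * u ^ d) := by
  have hz : ‖lam * u ^ d‖ < 1 := by
    rw [norm_mul, norm_pow]
    have h1 : ‖u‖ ^ d < 1 := pow_lt_one₀ (norm_nonneg _) hu (by omega)
    calc ‖lam‖ * ‖u‖ ^ d ≤ 1 * ‖u‖ ^ d := by gcongr
      _ < 1 := by rw [one_mul]; exact h1
  have h3 := Complex.hasSum_taylorSeries_neg_log hz
  rw [← hasSum_nat_add_iff' 1] at h3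
  simp only [Finset.range_one, Finset.sum_singleton, pow_zero, Nat.cast_zero, div_zero,
    sub_zero] at h3
  have h4 := h3.neg
  rw [neg_neg] at h4
  set j : ℕ → ℕ := fun i => (i + 1) * d - 1 with hj
  have hjd : ∀ i, j i + 1 = (i + 1) * d := by
    intro i
    have : 1 ≤ (i + 1) * d := Nat.one_le_iff_ne_zero.2 (Nat.mul_ne_zero (by omega) (by omega))
    simp only [hj]
    omega
  have hinj : Function.Injective j := by
    intro a b hab
    have h5 : (a + 1) * d = (b + 1) * d := by rw [← hjd, ← hjd, hab]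
    have := Nat.eq_of_mul_eq_mul_right (by omega) h5
    omega
  have h5 : HasSum ((fun m : ℕ => tP d lam (m + 1) * u ^ (m + 1) / ((m : ℂ) + 1)) ∘ j)
      (Complex.log (1 - lam * u ^ d)) := by
    refine h4.congr_fun fun i => ?_
    simp only [Function.comp_apply]
    have h6 : ((j i : ℂ) + 1) = ((i : ℂ) + 1) * d := by
      have := congrArg (fun x : ℕ => (x : ℂ)) (hjd i)
      push_cast at this
      exact this
    have hi : ((i : ℂ) + 1) ≠ 0 := by exact_mod_cast (by omega : i + 1 ≠ 0)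
    have hd0 : (d : ℂ) ≠ 0 := by exact_mod_cast (by omega : d ≠ 0)
    rw [h6, hjd]
    unfold tP
    rw [if_pos (Dvd.intro_left _ rfl), Nat.mul_div_cancel _ (by omega), mul_pow, ← pow_mul,
      mul_comm d (i + 1)]
    push_cast
    field_simp
  rw [Function.Injective.hasSum_iff hinj] at h5
  · exact h5.tsum_eq
  · intro m hm
    have : ¬ d ∣ m + 1 := by
      rintro ⟨c, hc⟩
      apply hm
      have hc0 : c ≠ 0 := by
        rintro rfl
        omega
      refine ⟨c - 1, ?_⟩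
      have h7 : j (c - 1) + 1 = (c - 1 + 1) * d := hjd (c - 1)
      have h8 : c - 1 + 1 = c := by omega
      have h9 : c * d = d * c := mul_comm _ _
      rw [h8, h9] at h7
      omega
    unfold tP
    rw [if_neg this]
    simp

/-! ### congruence modulo `w ^ N` -/

/-- two functions with limit `1` at `0` which agree up to `O(w ^ N)` -/
def Eqv (N : ℕ) (f g : ℂ → ℂ) : Prop :=
  Tendsto f (𝓝 0) (𝓝 1) ∧ Tendsto g (𝓝 0) (𝓝 1) ∧ (fun w => f w - g w) =O[𝓝 0] fun w => w ^ N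

lemma Eqv.one (N : ℕ) : Eqv N (fun _ => 1) (fun _ => 1) :=
  ⟨tendsto_const_nhds, tendsto_const_nhds, by simp only [sub_self]; exact isBigO_zero _ _⟩

lemma Eqv.mul {N : ℕ} {f g f' g' : ℂ → ℂ} (h : Eqv N f g) (h' : Eqv N f' g') :
    Eqv N (fun w => f w * f' w) (fun w => g w * g' w) := by
  obtain ⟨a1, a2, a3⟩ := h
  obtain ⟨b1, b2, b3⟩ := h'
  refine ⟨by simpa using a1.mul b1, by simpa using a2.mul b2, ?_⟩
  have h1 := a3.mul (b1.isBigO_one ℂ)
  have h2 := b3.mul (a2.isBigO_one ℂ)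
  simp only [mul_one] at h1 h2
  refine (h1.add h2).congr_left fun w => ?_
  ring

lemma Eqv.inv {N : ℕ} {f g : ℂ → ℂ} (h : Eqv N f g) :
    Eqv N (fun w => (f w)⁻¹) (fun w => (g w)⁻¹) := by
  obtain ⟨a1, a2, a3⟩ := h
  have i1 := a1.inv₀ one_ne_zero
  have i2 := a2.inv₀ one_ne_zero
  refine ⟨by simpa using i1, by simpa using i2, ?_⟩
  have h1 := ((a3.mul (i1.isBigO_one ℂ)).mul (i2.isBigO_one ℂ)).neg_left
  simp only [mul_one] at h1
  refine h1.congr' ?_ EventuallyEq.rfl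
  filter_upwards [a1.eventually_ne one_ne_zero, a2.eventually_ne one_ne_zero] with w hw1 hw2
  field_simp
  ring

lemma Eqv.npow {N : ℕ} {f g : ℂ → ℂ} (h : Eqv N f g) (m : ℕ) :
    Eqv N (fun w => f w ^ m) (fun w => g w ^ m) := by
  induction m with
  | zero => simpa using Eqv.one N
  | succ m ih =>
    have := ih.mul h
    simpa only [pow_succ] using this

lemma Eqv.zpow {N : ℕ} {f g : ℂ → ℂ} (h : Eqv N f g) (m : ℤ) :
    Eqv N (fun w => f w ^ m) (fun w => g w ^ m) := by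
  cases m with
  | ofNat m => simpa using h.npow m
  | negSucc m => simpa only [zpow_negSucc] using (h.npow (m + 1)).inv

lemma Eqv.prod {N : ℕ} {ι : Type*} (S : Finset ι) {f g : ι → ℂ → ℂ}
    (h : ∀ i ∈ S, Eqv N (f i) (g i)) :
    Eqv N (fun w => ∏ i ∈ S, f i w) (fun w => ∏ i ∈ S, g i w) := by
  classical
  induction S using Finset.induction_on with
  | empty => simpa using Eqv.one N
  | insert i S hi ih =>
    simp only [Finset.prod_insert hi]
    exact (h i (Finset.mem_insert_self _ _)).mul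
      (ih fun j hj => h j (Finset.mem_insert_of_mem hj))

lemma Eqv.comp {N : ℕ} {f g : ℂ → ℂ} (h : Eqv N f g) {φ : ℂ → ℂ} (hφ : Tendsto φ (𝓝 0) (𝓝 0))
    (hO : φ =O[𝓝 0] fun w => w) : Eqv N (fun w => f (φ w)) (fun w => g (φ w)) := by
  obtain ⟨a1, a2, a3⟩ := h
  refine ⟨a1.comp hφ, a2.comp hφ, ?_⟩
  have h1 := a3.comp_tendsto hφ
  exact h1.trans (hO.pow N)

section

open Polynomial Pool.Agent.H341R2.Sharp

variable {F : Type} [Field F] [Fintype F] [DecidableEq F]

lemma lam_norm (f P : F[X]) : ‖(lam f P : ℂ)‖ ≤ 1 := by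
  unfold lam
  by_cases h : resultant P f P.natDegree f.natDegree = 0
  · rw [h, MulChar.map_zero]
    simp
  · rcases quadraticChar_dichotomy h with h1 | h1 <;> rw [h1] <;> simp

/-- the Euler factor as a function of `u` -/
noncomputable def EF (f : F[X]) (u : ℂ) : ℂ := Complex.exp (LS (fun m => -(T f m : ℂ)) u)

/-- **Step 1**: the Euler factor agrees with the product over the irreducible polynomials of degree
at most `n` up to order `n`. -/
theorem EF_eqv (f : F[X]) {C s : ℝ} (hC : 0 ≤ C) (hs : 1 ≤ s)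
    (hT : ∀ m, 1 ≤ m → ‖(T f m : ℂ)‖ ≤ C * s ^ m) (n : ℕ) :
    Eqv (n + 1) (EF f) (fun u => ∏ P ∈ Irr F n, (1 - (lam f P : ℂ) * u ^ P.natDegree)) := by
  classical
  have hs0 : 0 < s := by linarith
  have hT' : ∀ m, 1 ≤ m → ‖-(T f m : ℂ)‖ ≤ C * s ^ m := fun m hm => by rw [norm_neg]; exact hT m hm
  have hg1 : Tendsto (fun u : ℂ => ∏ P ∈ Irr F n, (1 - (lam f P : ℂ) * u ^ P.natDegree)) (𝓝 0)
      (𝓝 1) := by
    have hc : Continuous fun u : ℂ => ∏ P ∈ Irr F n, (1 - (lam f P : ℂ) * u ^ P.natDegree) := by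
      fun_prop
    have h1 := hc.tendsto 0
    have h2 : ∏ P ∈ Irr F n, (1 - (lam f P : ℂ) * (0 : ℂ) ^ P.natDegree) = 1 := by
      refine Finset.prod_eq_one fun P hP => ?_
      rw [mem_Irr] at hP
      rw [zero_pow hP.2.1.natDegree_pos.ne']
      simp
    rwa [h2] at h1
  have hf1 : Tendsto (EF f) (𝓝 0) (𝓝 1) := by
    have := (Complex.continuous_exp.tendsto 0).comp (LS_tendsto hs0 hC hT')
    rw [Complex.exp_zero] at this
    exact this
  refine ⟨hf1, hg1, ?_⟩
  -- the difference of the sequences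
  set t' : ℕ → ℂ := fun m => -(T f m : ℂ) - ∑ P ∈ Irr F n, tP P.natDegree (lam f P) m with ht'
  set D : ℝ := ∑ P ∈ Irr F n, (P.natDegree : ℝ) with hD
  have hD0 : 0 ≤ D := Finset.sum_nonneg fun _ _ => Nat.cast_nonneg _
  have hs1 : ∀ m : ℕ, (1 : ℝ) ≤ s ^ m := fun m => one_le_pow₀ hs
  have htb : ∀ m, 1 ≤ m → ‖t' m‖ ≤ (C + D) * s ^ m := by
    intro m hm
    simp only [ht']
    refine (norm_sub_le _ _).trans ?_
    rw [norm_neg]
    have h1 : ‖∑ P ∈ Irr F n, tP P.natDegree (lam f P) m‖ ≤ D := by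
      refine (norm_sum_le _ _).trans (Finset.sum_le_sum fun P _ => ?_)
      have := tP_norm (d := P.natDegree) (lam_norm f P) m
      rwa [one_pow, mul_one] at this
    have h2 : D ≤ D * s ^ m := le_mul_of_one_le_right hD0 (hs1 m)
    have := hT m hm
    linarith
  have ht0 : ∀ m, 1 ≤ m → m ≤ n → t' m = 0 := by
    intro m hm hmn
    simp only [ht']
    have h1 : (T f m : ℂ) = -∑ P ∈ Irr F n, tP P.natDegree (lam f P) m := by
      unfold T
      push_cast
      rw [← Finset.sum_neg_distrib]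
      have h2 : (Irr F m).filter (fun P => P.natDegree ∣ m) =
          (Irr F n).filter (fun P => P.natDegree ∣ m) := by
        ext P
        simp only [Finset.mem_filter, mem_Irr]
        constructor
        · rintro ⟨⟨h3, h4, h5⟩, h6⟩
          exact ⟨⟨h3, h4, by omega⟩, h6⟩
        · rintro ⟨⟨h3, h4, h5⟩, h6⟩
          exact ⟨⟨h3, h4, Nat.le_of_dvd (by omega) h6⟩, h6⟩
      rw [h2, Finset.sum_filter]
      refine Finset.sum_congr rfl fun P _ => ?_
      unfold tP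
      split_ifs
      · ring
      · simp
    rw [h1]
    ring
  have hO := LS_bigO hs0 (by positivity) htb ht0
  have hO0 : Tendsto (LS t') (𝓝 0) (𝓝 0) := LS_tendsto hs0 (by positivity) htb
  -- the exact relation near `0`
  have hrel : ∀ᶠ u : ℂ in 𝓝 0, EF f u =
      (∏ P ∈ Irr F n, (1 - (lam f P : ℂ) * u ^ P.natDegree)) * Complex.exp (LS t' u) := by
    have h1 : ∀ᶠ u : ℂ in 𝓝 0, ‖u‖ < 1 / (2 * s) := by
      have h2 : Tendsto (fun u : ℂ => ‖u‖) (𝓝 0) (𝓝 0) := by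
        have := (continuous_norm (E := ℂ)).tendsto 0
        simpa using this
      exact h2.eventually (gt_mem_nhds (by positivity))
    filter_upwards [h1] with u hu
    have hsu : s * ‖u‖ < 1 := by
      rw [lt_div_iff₀ (by positivity)] at hu
      linarith
    have hu1 : ‖u‖ < 1 := by
      have : ‖u‖ ≤ s * ‖u‖ := le_mul_of_one_le_left (norm_nonneg _) hs
      linarith
    have h2 : LS (fun m => -(T f m : ℂ)) u =
        LS t' u + ∑ P ∈ Irr F n, LS (tP P.natDegree (lam f P)) u := by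
      have a1 := (LS_summable hs0.le (by positivity) htb hsu).hasSum
      have a2 : ∀ P ∈ Irr F n, HasSum (fun m : ℕ => tP P.natDegree (lam f P) (m + 1) *
          u ^ (m + 1) / ((m : ℂ) + 1)) (LS (tP P.natDegree (lam f P)) u) := fun P _ =>
        (LS_summable zero_le_one (Nat.cast_nonneg P.natDegree)
          (fun m _ => tP_norm (d := P.natDegree) (lam_norm f P) m)
          (by rw [one_mul]; exact hu1)).hasSum
      have a3 := a1.add (hasSum_sum a2)
      have a4 : LS (fun m => -(T f m : ℂ)) u = ∑' m : ℕ, (t' (m + 1) * u ^ (m + 1) / ((m : ℂ) + 1) +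
          ∑ P ∈ Irr F n, tP P.natDegree (lam f P) (m + 1) * u ^ (m + 1) / ((m : ℂ) + 1)) := by
        unfold LS
        refine tsum_congr fun m => ?_
        rw [← Finset.sum_div, ← Finset.sum_mul, ← add_div, ← add_mul]
        congr 2
        simp only [ht']
        ring
      rw [a4, a3.tsum_eq]
      rfl
    unfold EF
    rw [h2, Complex.exp_add, Complex.exp_sum, mul_comm]
    congr 1
    refine Finset.prod_congr rfl fun P hP => ?_
    rw [mem_Irr] at hP
    rw [LS_tP hP.2.1.natDegree_pos (lam_norm f P) hu1, Complex.exp_log]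
    intro h0
    have h3 : (lam f P : ℂ) * u ^ P.natDegree = 1 := (sub_eq_zero.1 h0).symm
    have h4 : ‖(lam f P : ℂ) * u ^ P.natDegree‖ < 1 := by
      rw [norm_mul, norm_pow]
      have h1 : ‖u‖ ^ P.natDegree < 1 :=
        pow_lt_one₀ (norm_nonneg _) hu1 hP.2.1.natDegree_pos.ne'
      calc ‖(lam f P : ℂ)‖ * ‖u‖ ^ P.natDegree ≤ 1 * ‖u‖ ^ P.natDegree := by
            gcongr
            exact lam_norm f P
        _ < 1 := by rw [one_mul]; exact h1
    rw [h3, norm_one] at h4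
    exact lt_irrefl _ h4
  have hexp : (fun u => Complex.exp (LS t' u) - 1) =O[𝓝 0] fun u => u ^ (n + 1) := by
    have h1 : (fun u => Complex.exp (LS t' u) - 1) =O[𝓝 0] LS t' := by
      refine IsBigO.of_bound 2 ?_
      have h2 : ∀ᶠ u : ℂ in 𝓝 0, ‖LS t' u‖ < 1 := by
        have h3 := hO0.norm
        rw [norm_zero] at h3
        exact h3.eventually (gt_mem_nhds one_pos)
      filter_upwards [h2] with u hu
      exact Complex.norm_exp_sub_one_le hu.le
    exact h1.trans hO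
  have h5 := (hg1.isBigO_one ℂ).mul hexp
  simp only [one_mul] at h5
  refine h5.congr' ?_ EventuallyEq.rfl
  filter_upwards [hrel] with u hu
  rw [hu]
  ring

end

end Pool.Agent.T6.H9.HY
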