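import Pool.Agent.T6.H9.HY.Sqf
import Pool.Agent.T6.H9.HY.Defs
import Pool.Agent.T6.H9.MV.Asm

/-!
# Means over the family of all monic polynomials of given degree

Owner helper9.
-/

set_option autoImplicit false
set_option linter.unusedSectionVars false
set_option linter.style.haveILetI false
set_option linter.unusedVariables false

open Filter Topology Finset Polynomial NumberField IsDedekindDomain

namespace Pool.Agent.T6.H9.HY

open Pool.Agent.T6.H9.MV Pool.Agent.H341R2.Sharp

section ring

variable {R : Type*} [CommRing R]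

/-- the monic polynomial with given lower coefficients -/
noncomputable def poly (m : ℕ) (a : Fin m → R) : R[X] := X ^ m + ∑ i : Fin m, C (a i) * X ^ (i : ℕ)

lemma poly_monic (m : ℕ) (a : Fin m → R) : (poly m a).Monic := by
  unfold poly
  exact monic_X_pow_add (degree_sum_fin_lt a)

lemma poly_natDegree [Nontrivial R] (m : ℕ) (a : Fin m → R) : (poly m a).natDegree = m := by
  unfold poly
  refine natDegree_eq_of_degree_eq_some ?_
  rw [degree_add_eq_left_of_degree_lt, degree_X_pow]
  rw [degree_X_pow]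
  exact degree_sum_fin_lt a

lemma poly_coeff (m : ℕ) (a : Fin m → R) (i : Fin m) : (poly m a).coeff (i : ℕ) = a i := by
  unfold poly
  rw [coeff_add, coeff_X_pow, if_neg (by have := i.2; omega), zero_add, finsetSum_coeff]
  rw [Finset.sum_eq_single i]
  · simp
  · intro j _ hji
    rw [coeff_C_mul, coeff_X_pow, if_neg (fun h => hji (Fin.ext h.symm)), mul_zero]
  · intro h
    exact absurd (Finset.mem_univ i) h

lemma poly_inj (m : ℕ) : Function.Injective (poly (R := R) m) := by
  intro a b h
  funext i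
  rw [← poly_coeff m a i, h, poly_coeff]

lemma poly_map {S : Type*} [CommRing S] (φ : R →+* S) (m : ℕ) (a : Fin m → R) :
    (poly m a).map φ = poly m (fun i => φ (a i)) := by
  unfold poly
  simp [Polynomial.map_sum]

lemma eq_poly {f : R[X]} (hf : f.Monic) : f = poly f.natDegree (fun i => f.coeff (i : ℕ)) := by
  unfold poly
  rw [Fin.sum_univ_eq_sum_range (fun i => C (f.coeff i) * X ^ i) f.natDegree]
  exact hf.as_sum

lemma mkP_eq {F : Type} [Field F] (m : ℕ) (a : Fin m → F) : mkP m a = poly m a := rfl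

end ring

section

variable {K : Type} [Field K] [NumberField K]

noncomputable instance fieldKv (v : HeightOneSpectrum (𝓞 K)) : Field (kv v) :=
  haveI := v.isMaximal
  Ideal.Quotient.field v.asIdeal

noncomputable instance decKv (v : HeightOneSpectrum (𝓞 K)) : DecidableEq (kv v) :=
  Classical.decEq _

/-- reduction of the coefficients modulo `v` -/
def redH {m : ℕ} (v : HeightOneSpectrum (𝓞 K)) (a : Fin m → 𝓞 K) : Fin m → kv v :=
  fun i => Ideal.Quotient.mk v.asIdeal (a i)

lemma poly_red {m : ℕ} (v : HeightOneSpectrum (𝓞 K)) (a : Fin m → 𝓞 K) :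
    (poly m a).map (Ideal.Quotient.mk v.asIdeal) = mkP m (redH v a) := by
  rw [poly_map]
  rfl

/-- if the polynomial is not separable over `K` then no reduction is squarefree -/
lemma nonsep_red {m : ℕ} (a : Fin m → 𝓞 K)
    (h : ¬ ((poly m a).map (algebraMap (𝓞 K) K)).Separable) (v : HeightOneSpectrum (𝓞 K)) :
    ¬ Squarefree (mkP m (redH v a)) := by
  have hinj : Function.Injective (algebraMap (𝓞 K) K) := RingOfIntegers.coe_injective
  rw [PerfectField.separable_iff_squarefree] at h
  obtain ⟨g, k, hg, hk, hdeg, he⟩ := exists_sq_monic ((poly_monic m a).map _) h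
  have hdg : g ∣ (poly m a).map (algebraMap (𝓞 K) K) := ⟨g * k, by rw [← he]; ring⟩
  have hdk : k ∣ (poly m a).map (algebraMap (𝓞 K) K) := ⟨g ^ 2, by rw [← he]; ring⟩
  obtain ⟨g', hg'⟩ := IsIntegrallyClosed.eq_map_mul_C_of_dvd K (poly_monic m a) hdg
  obtain ⟨k', hk'⟩ := IsIntegrallyClosed.eq_map_mul_C_of_dvd K (poly_monic m a) hdk
  rw [hg.leadingCoeff, C_1, mul_one] at hg'
  rw [hk.leadingCoeff, C_1, mul_one] at hk'
  have hg'm : g'.Monic := (Function.Injective.monic_map_iff hinj).2 (by rw [hg']; exact hg)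
  have he' : g' ^ 2 * k' = poly m a := by
    apply Polynomial.map_injective _ hinj
    rw [Polynomial.map_mul, Polynomial.map_pow, hg', hk', he]
  intro hsq
  rw [← poly_red, ← he', Polynomial.map_mul, Polynomial.map_pow] at hsq
  have h1 : IsUnit (g'.map (Ideal.Quotient.mk v.asIdeal)) :=
    hsq _ ⟨k'.map (Ideal.Quotient.mk v.asIdeal), by rw [sq]⟩
  have h2 : (g'.map (Ideal.Quotient.mk v.asIdeal)).Monic := hg'm.map _
  haveI : Nontrivial (kv v) := inferInstance
  have h3 : (g'.map (Ideal.Quotient.mk v.asIdeal)).natDegree = g'.natDegree :=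
    hg'm.natDegree_map _
  have h4 : g'.natDegree = g.natDegree := by
    rw [← hg', natDegree_map_eq_of_injective hinj]
  have h5 := natDegree_eq_zero_of_isUnit h1
  omega

/-- there are primes of arbitrarily large norm -/
lemma exists_large (N : ℕ) : ∃ v : HeightOneSpectrum (𝓞 K), N ≤ qv v := by
  obtain ⟨p, hpN, hp⟩ := Nat.exists_infinite_primes N
  have hne : Ideal.span {(p : 𝓞 K)} ≠ ⊤ := by
    intro h
    rw [Ideal.span_singleton_eq_top] at h
    have h1 : IsUnit (p : ℤ) := by
      have h2 := h.map (Algebra.norm ℤ)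
      rw [show ((p : ℕ) : 𝓞 K) = algebraMap ℤ (𝓞 K) (p : ℤ) by simp, Algebra.norm_algebraMap] at h2
      exact isUnit_pow_iff (Module.finrank_pos.ne') |>.1 h2
    rw [Int.isUnit_iff_natAbs_eq, Int.natAbs_natCast] at h1
    exact hp.one_lt.ne' h1
  obtain ⟨M, hM, hle⟩ := Ideal.exists_le_maximal _ hne
  have hpM : (p : 𝓞 K) ∈ M := hle (Ideal.mem_span_singleton_self _)
  have hM0 : M ≠ ⊥ := by
    rintro rfl
    have h1 : (p : 𝓞 K) = 0 := hpM
    exact hp.ne_zero (by exact_mod_cast h1)
  let v : HeightOneSpectrum (𝓞 K) := ⟨M, hM.isPrime, hM0⟩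
  refine ⟨v, hpN.trans ?_⟩
  have hq := card_kv v
  rw [← hq]
  have h2 : (p : kv v) = 0 := by
    have h3 : ((p : ℕ) : kv v) = Ideal.Quotient.mk M (p : 𝓞 K) := (map_natCast _ p).symm
    rw [h3, Ideal.Quotient.eq_zero_iff_mem]
    exact hpM
  have h5 : addOrderOf (1 : kv v) = p := by
    rcases (Nat.dvd_prime hp).1 (addOrderOf_dvd_of_nsmul_eq_zero (x := (1 : kv v)) (n := p)
      (by rw [nsmul_one]; exact h2)) with h | h
    · exact absurd (AddMonoid.addOrderOf_eq_one_iff.1 h) one_ne_zero
    · exact h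
  refine Nat.le_of_dvd Nat.card_pos ?_
  rw [← h5]
  exact addOrderOf_dvd_natCard 1

end

end Pool.Agent.T6.H9.HY
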