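import Pool.Agent.T6.H9.HY.FamH

/-!
# The mean over the family of all monic polynomials

Owner helper9.
-/

set_option autoImplicit false
set_option linter.unusedSectionVars false
set_option linter.style.haveILetI false
set_option linter.unusedVariables false

open Filter Topology Polynomial NumberField IsDedekindDomain

namespace Pool.Agent.T6.H9.HY

open Pool.Agent.T6.H9.MV Pool.Agent.H341R2.Sharp

section

variable {K : Type} [Field K] [NumberField K] {ι : Type} [Fintype ι] [DecidableEq ι] {m : ℕ}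

/-- the coefficients with given coordinates -/
noncomputable def ptH (ω : Module.Basis ι ℤ (𝓞 K)) (m : ℕ) : (Fin m × ι → ℤ) →+ (Fin m → 𝓞 K) where
  toFun x := fun i => el ω fun j => x (i, j)
  map_zero' := by
    funext i
    exact map_zero ω.equivFun.symm
  map_add' x y := by
    funext i
    exact map_add ω.equivFun.symm _ _

lemma ptH_apply (ω : Module.Basis ι ℤ (𝓞 K)) (x : Fin m × ι → ℤ) (i : Fin m) :
    ptH ω m x i = el ω fun j => x (i, j) := rfl

lemma ptH_surj (ω : Module.Basis ι ℤ (𝓞 K)) : Function.Surjective (ptH ω m) := by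
  intro a
  refine ⟨fun p => ω.equivFun (a p.1) p.2, ?_⟩
  funext i
  exact ω.equivFun.symm_apply_apply (a i)

lemma ptH_inj (ω : Module.Basis ι ℤ (𝓞 K)) : Function.Injective (ptH ω m) := by
  intro x y h
  funext p
  have h1 := ω.equivFun.symm.injective (congrFun h p.1)
  exact congrFun h1 p.2

/-- the reduction homomorphism -/
def redHom (v : HeightOneSpectrum (𝓞 K)) (m : ℕ) : (Fin m → 𝓞 K) →+ (Fin m → kv v) where
  toFun := redH v
  map_zero' := rfl
  map_add' _ _ := rfl

lemma redHom_apply (v : HeightOneSpectrum (𝓞 K)) (a : Fin m → 𝓞 K) : redHom v m a = redH v a := rfl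

lemma redHom_surj (v : HeightOneSpectrum (𝓞 K)) : Function.Surjective (redHom v m) := by
  intro c
  choose y hy using fun i => Ideal.Quotient.mk_surjective (c i)
  exact ⟨y, funext hy⟩

/-- the reduction to finitely many primes -/
noncomputable def phiH (ω : Module.Basis ι ℤ (𝓞 K)) (m : ℕ)
    (D : Finset (HeightOneSpectrum (𝓞 K))) : (Fin m × ι → ℤ) →+ (∀ v : D, Fin m → kv v.1) :=
  (AddMonoidHom.pi fun v : D => redHom v.1 m).comp (ptH ω m)

lemma phiH_apply (ω : Module.Basis ι ℤ (𝓞 K)) (D : Finset (HeightOneSpectrum (𝓞 K)))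
    (x : Fin m × ι → ℤ) (v : D) : phiH ω m D x v = redH v.1 (ptH ω m x) := rfl

lemma phiH_surj (ω : Module.Basis ι ℤ (𝓞 K)) (D : Finset (HeightOneSpectrum (𝓞 K))) :
    Function.Surjective (phiH ω m D) := by
  classical
  intro c
  have hprime : ∀ v ∈ D, Prime v.asIdeal := fun v _ => v.prime
  have hcop : ∀ᵉ (v ∈ D) (w ∈ D), v ≠ w → v.asIdeal ≠ w.asIdeal := by
    intro v _ w _ hvw h
    exact hvw (HeightOneSpectrum.ext h)
  have hex : ∀ i : Fin m, ∃ a : 𝓞 K, ∀ v : D, Ideal.Quotient.mk v.1.asIdeal a = c v i := by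
    intro i
    choose y hy using fun v : D => Ideal.Quotient.mk_surjective (c v i)
    obtain ⟨a, ha⟩ := IsDedekindDomain.exists_forall_sub_mem_ideal (s := D)
      (fun v => v.asIdeal) (fun _ => 1) hprime hcop y
    refine ⟨a, fun v => ?_⟩
    have h1 := ha v.1 v.2
    rw [pow_one] at h1
    rw [← hy v]
    exact (Ideal.Quotient.mk_eq_mk_iff_sub_mem _ _).2 h1
  choose a ha using hex
  obtain ⟨x, hx⟩ := ptH_surj ω a
  refine ⟨x, ?_⟩
  funext v i
  rw [phiH_apply, hx]
  exact ha i v

/-- means of finite products of local functions -/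
theorem tendsto_finH (ω : Module.Basis ι ℤ (𝓞 K))
    (g : ∀ v : HeightOneSpectrum (𝓞 K), (Fin m → kv v) → ℂ)
    (D : Finset (HeightOneSpectrum (𝓞 K))) :
    Tendsto (fun B : Fin m × ι → ℕ => avg (box B)
      (fun x => ∏ v ∈ D, g v (redH v (ptH ω m x)))) atTop
      (𝓝 (∏ v ∈ D, fmean (g v))) := by
  classical
  have h1 := tendsto_avg_hom' (phiH ω m D) (phiH_surj ω D) (fun c => ∏ v : D, g v.1 (c v))
  rw [fmean_pi (fun v : D => g v.1)] at h1
  have h3 : ∏ v : D, fmean (g v.1) = ∏ v ∈ D, fmean (g v) :=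
    Finset.prod_coe_sort D (fun v => fmean (g v))
  rw [h3] at h1
  refine h1.congr fun B => ?_
  unfold avg
  congr 1
  refine Finset.sum_congr rfl fun x _ => ?_
  beta_reduce
  rw [← Finset.prod_coe_sort D (fun v => g v (redH v (ptH ω m x)))]
  rfl

open Classical in
/-- the polynomials which are not separable -/
noncomputable def NS (ω : Module.Basis ι ℤ (𝓞 K)) (m : ℕ) (B : Fin m × ι → ℕ) :
    Finset (Fin m × ι → ℤ) :=
  (box B).filter fun x => ¬ ((poly m (ptH ω m x)).map (algebraMap (𝓞 K) K)).Separable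

lemma NS_le (ω : Module.Basis ι ℤ (𝓞 K)) (v : HeightOneSpectrum (𝓞 K)) (B : Fin m × ι → ℕ) :
    ((NS ω m B).card : ℝ) / (box B).card ≤
      ‖avg (box B) (fun x => ((nsq (kv v) m (redH v (ptH ω m x)) : ℝ) : ℂ))‖ := by
  classical
  unfold avg
  rw [norm_div, Complex.norm_natCast]
  refine div_le_div_of_nonneg_right ?_ (Nat.cast_nonneg _)
  rw [← Complex.ofReal_sum, Complex.norm_real, Real.norm_eq_abs]
  refine le_trans ?_ (le_abs_self _)
  unfold NS
  rw [Finset.card_filter]
  push_cast
  refine Finset.sum_le_sum fun x _ => ?_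
  split_ifs with h
  · exact nsq_nonneg m _
  · have h1 := nonsep_red (ptH ω m x) h v
    unfold nsq
    rw [if_neg h1]

/-- the polynomials which are not separable are negligible -/
lemma tendsto_NS (ω : Module.Basis ι ℤ (𝓞 K)) (hm : 1 ≤ m) :
    Tendsto (fun B : Fin m × ι → ℕ => ((NS ω m B).card : ℝ) / (box B).card) atTop (𝓝 0) := by
  classical
  rw [Metric.tendsto_nhds]
  intro ε hε
  obtain ⟨N, hN⟩ := exists_nat_gt (4 / ε)
  obtain ⟨v, hv⟩ := exists_large (K := K) N
  have hq0 : (0 : ℝ) < qv v := by exact_mod_cast Nat.pos_of_ne_zero (qv_ne_zero v)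
  have hqN : 4 / ε < qv v := hN.trans_le (by exact_mod_cast hv)
  have h1 := tendsto_finH ω (fun v (c : Fin m → kv v) => ((nsq (kv v) m c : ℝ) : ℂ)) {v}
  simp only [Finset.prod_singleton] at h1
  have h2 : ‖fmean (fun c : Fin m → kv v => ((nsq (kv v) m c : ℝ) : ℂ))‖ ≤ 2 / (qv v : ℝ) * 1 := by
    have h3 := norm_fmean_le_nsq (F := kv v) hm (g := fun c => ((nsq (kv v) m c : ℝ) : ℂ))
      zero_le_one (fun a => by
        rw [Complex.norm_real, Real.norm_eq_abs, abs_of_nonneg (nsq_nonneg m a), mul_one])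
    rw [card_kv'] at h3
    exact h3
  have h3 : 2 / (qv v : ℝ) * 1 < ε := by
    rw [mul_one, div_lt_iff₀ hq0]
    rw [div_lt_iff₀ hε] at hqN
    nlinarith
  have h4 := h1.norm.eventually (gt_mem_nhds (h2.trans_lt h3))
  filter_upwards [h4] with B hB
  rw [Real.dist_eq, sub_zero, abs_of_nonneg (by positivity)]
  exact (NS_le ω v B).trans_lt hB

open Classical in
/-- the indicator of the family -/
noncomputable def WtH {m : ℕ} (a : Fin m → 𝓞 K) : ℂ :=
  if ((poly m a).map (algebraMap (𝓞 K) K)).Separable then 1 else 0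

/-- **The mean over the family** of an Euler product whose factors depend on the reductions of the
coefficients. -/
theorem tendsto_famH (ω : Module.Basis ι ℤ (𝓞 K)) (hm : 1 ≤ m)
    (g : ∀ v : HeightOneSpectrum (𝓞 K), (Fin m → kv v) → ℂ)
    {β : HeightOneSpectrum (𝓞 K) → ℝ} (hβ : Summable β) (hg : ∀ v t, ‖g v t - 1‖ ≤ β v) :
    Tendsto (fun B : Fin m × ι → ℕ => avg (box B)
      (fun x => WtH (ptH ω m x) * ∏' v, g v (redH v (ptH ω m x)))) atTop
      (𝓝 (∏' v, fmean (g v))) := by
  classical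
  have hm' : ∀ v : HeightOneSpectrum (𝓞 K), ‖fmean (g v) - 1‖ ≤ β v :=
    fun v => norm_fmean_sub_one_le (hg v)
  have hL := (multipliable_of_bound hβ hm').hasProd
  set S : ℝ := Real.exp (∑' v, β v) with hS
  have hS0 : 0 ≤ S := (Real.exp_pos _).le
  refine tendsto_of_approx (FD := fun D B => avg (box B)
    (fun x => ∏ v ∈ D, g v (redH v (ptH ω m x))))
    (L := fun D => ∏ v ∈ D, fmean (g v)) ?_ (fun D => tendsto_finH ω g D) hL
  intro ε hε
  have e1 : ∀ᶠ D in atTop, errP β D < ε / 2 :=
    (tendsto_errP hβ).eventually (gt_mem_nhds (by positivity))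
  filter_upwards [e1] with D hD
  have e2 : ∀ᶠ B : Fin m × ι → ℕ in atTop,
      S * (((NS ω m B).card : ℝ) / (box B).card) < ε / 2 := by
    have h1 := (tendsto_NS ω hm).const_mul S
    rw [mul_zero] at h1
    exact h1.eventually (gt_mem_nhds (by positivity))
  filter_upwards [e2] with B hB
  have hcard : (0 : ℝ) < (box B).card := by exact_mod_cast card_box_pos _
  have herr0 : 0 ≤ errP β D :=
    (norm_nonneg _).trans (norm_tprod_sub_prod_le hβ (fun v => hg v 0) D)
  have hpt : ∀ x ∈ box B, ‖WtH (ptH ω m x) * ∏' v, g v (redH v (ptH ω m x)) -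
      ∏ v ∈ D, g v (redH v (ptH ω m x))‖ ≤
      errP β D + S * (if x ∈ NS ω m B then 1 else 0) := by
    intro x hx
    have hgx : ∀ v, ‖g v (redH v (ptH ω m x)) - 1‖ ≤ β v := fun v => hg v _
    by_cases h : ((poly m (ptH ω m x)).map (algebraMap (𝓞 K) K)).Separable
    · have h1 : x ∉ NS ω m B := fun h' => (Finset.mem_filter.1 h').2 h
      unfold WtH
      rw [if_pos h, one_mul, if_neg h1, mul_zero, add_zero]
      exact norm_tprod_sub_prod_le hβ hgx D
    · have h1 : x ∈ NS ω m B := Finset.mem_filter.2 ⟨hx, h⟩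
      unfold WtH
      rw [if_neg h, zero_mul, if_pos h1, mul_one, zero_sub, norm_neg]
      have := norm_prod_le hβ hgx D
      linarith
  have hsub : ∑ x ∈ box B, (if x ∈ NS ω m B then (1 : ℝ) else 0) ≤ (NS ω m B).card := by
    rw [Finset.sum_boole]
    have : ((box B).filter fun x => x ∈ NS ω m B).card ≤ (NS ω m B).card :=
      Finset.card_le_card fun x hx => (Finset.mem_filter.1 hx).2
    exact_mod_cast this
  have hmain : ‖avg (box B) (fun x => WtH (ptH ω m x) * ∏' v, g v (redH v (ptH ω m x))) -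
      avg (box B) (fun x => ∏ v ∈ D, g v (redH v (ptH ω m x)))‖ ≤
      ((box B).card * errP β D + S * (NS ω m B).card) / (box B).card := by
    unfold avg
    rw [← sub_div, ← Finset.sum_sub_distrib, norm_div, Complex.norm_natCast]
    refine div_le_div_of_nonneg_right ?_ hcard.le
    refine (norm_sum_le _ _).trans ((Finset.sum_le_sum hpt).trans ?_)
    rw [Finset.sum_add_distrib, Finset.sum_const, nsmul_eq_mul, ← Finset.mul_sum]
    gcongr
  refine hmain.trans ?_
  have h1 : ((box B).card * errP β D + S * (NS ω m B).card) / ((box B).card : ℝ) =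
      errP β D + S * (((NS ω m B).card : ℝ) / (box B).card) := by
    field_simp
  rw [h1]
  linarith

end

end Pool.Agent.T6.H9.HY
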