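import Pool.Agent.T6.H9.MV.Loc

/-!
# The local estimate at one irreducible polynomial

Owner helper9.
-/

set_option autoImplicit false
set_option linter.unusedSectionVars false

open Filter Topology Finset Asymptotics

namespace Pool.Agent.T6.H9.HY

open Pool.Agent.T6.H9.MV

variable {r : ℕ}

/-- `∏ (1 - σ x_k) ^ n_k` -/
noncomputable def gP (n : Fin r → ℤ) (σ : ℂ) (x : Fin r → ℂ) : ℂ := ∏ k, (1 - σ * x k) ^ n k

/-- the mean over the two signs -/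
noncomputable def SP (n : Fin r → ℤ) (x : Fin r → ℂ) : ℂ := (gP n 1 x + gP n (-1) x) / 2

/-- the factors of the zeta functions -/
noncomputable def RP (n : Fin r → ℤ) (x : Fin r → ℂ) : ℂ :=
  ∏ p ∈ prs r, (1 - x p.1 * x p.2) ^ ex n p

lemma lin_jet (a : ℂ) : Jet (fun w => 1 - w * a) (-a) (-(a ^ 2 / 2)) := by
  have h := Jet.quad a 0
  have h1 : (fun w : ℂ => 1 - w * a) = fun w => 1 - a * w + 0 * w ^ 2 := by
    funext w
    ring
  rw [h1]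
  simpa using h

lemma lin_tendsto (a : ℂ) : Tendsto (fun w : ℂ => 1 - w * a) (𝓝 0) (𝓝 1) := by
  have h : Continuous fun w : ℂ => 1 - w * a := by fun_prop
  simpa using h.tendsto 0

lemma gP_jet (n : Fin r → ℤ) (σ : ℂ) (hσ : σ ^ 2 = 1) (x : Fin r → ℂ) :
    Jet (fun w => gP n σ (fun k => w * x k)) (-(σ * s1 n x)) (-(s2 n x / 2)) := by
  have h1 : Jet (fun w => ∏ k, (1 - w * (σ * x k)) ^ n k)
      (∑ k, ((n k : ℤ) : ℂ) * (-(σ * x k))) (∑ k, ((n k : ℤ) : ℂ) * (-((σ * x k) ^ 2 / 2))) :=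
    Jet.prod _ fun k _ => (lin_jet (σ * x k)).zpow (lin_tendsto _) (n k)
  have hA : ∑ k, ((n k : ℤ) : ℂ) * (-(σ * x k)) = -(σ * s1 n x) := by
    rw [s1, Finset.mul_sum, ← Finset.sum_neg_distrib]
    refine Finset.sum_congr rfl fun k _ => ?_
    ring
  have hB : ∑ k, ((n k : ℤ) : ℂ) * (-((σ * x k) ^ 2 / 2)) = -(s2 n x / 2) := by
    rw [s2, Finset.sum_div, ← Finset.sum_neg_distrib]
    refine Finset.sum_congr rfl fun k _ => ?_
    rw [mul_pow, hσ]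
    ring
  rw [hA, hB] at h1
  have h2 : (fun w => gP n σ (fun k => w * x k)) = fun w => ∏ k, (1 - w * (σ * x k)) ^ n k := by
    funext w
    unfold gP
    refine Finset.prod_congr rfl fun k _ => ?_
    congr 1
    ring
  rw [h2]
  exact h1

/-- the quadratic form `∑ e_{jk} x_j x_k` -/
noncomputable def QP (n : Fin r → ℤ) (x : Fin r → ℂ) : ℂ := (s1 n x ^ 2 - s2 n x) / 2

lemma SP_jet (n : Fin r → ℤ) (x : Fin r → ℂ) :
    Jet (fun w => SP n (fun k => w * x k)) 0 (QP n x) := by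
  have h1 := gP_jet n 1 (by norm_num) x
  have h2 := gP_jet n (-1) (by norm_num) x
  unfold Jet at *
  have h3 := (h1.add h2).const_mul_left (1 / 2)
  refine h3.congr_left fun w => ?_
  unfold SP QP
  ring

lemma RP_jet (n : Fin r → ℤ) (x : Fin r → ℂ) :
    Jet (fun w => RP n (fun k => w * x k)) 0 (-(QP n x)) := by
  have h2 : Jet (fun w => ∏ p ∈ prs r, (1 - ((1 : ℝ) : ℂ) * ((w * x p.1) * (w * x p.2))) ^ ex n p)
      (∑ p ∈ prs r, ((ex n p : ℤ) : ℂ) * 0)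
      (∑ p ∈ prs r, ((ex n p : ℤ) : ℂ) * (-(((1 : ℝ) : ℂ) * (x p.1 * x p.2)))) :=
    Jet.prod _ fun p _ => (pair_jet 1 (x p.1) (x p.2)).zpow (pair_tendsto 1 (x p.1) (x p.2)) _
  have hA : (∑ p ∈ prs r, ((ex n p : ℤ) : ℂ) * 0) = 0 := by simp
  have hB : (∑ p ∈ prs r, ((ex n p : ℤ) : ℂ) * (-(((1 : ℝ) : ℂ) * (x p.1 * x p.2)))) =
      -(QP n x) := by
    unfold QP s1 s2
    rw [← quad_identity, ← Finset.sum_neg_distrib]
    refine Finset.sum_congr rfl fun p _ => ?_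
    push_cast
    ring
  rw [hA, hB] at h2
  have h3 : (fun w => RP n (fun k => w * x k)) =
      fun w => ∏ p ∈ prs r, (1 - ((1 : ℝ) : ℂ) * ((w * x p.1) * (w * x p.2))) ^ ex n p := by
    funext w
    unfold RP
    refine Finset.prod_congr rfl fun p _ => ?_
    rw [Complex.ofReal_one, one_mul]
  rw [h3]
  exact h2

/-- bounds for the linear factors -/
lemma lin_bounds {z : ℂ} {c : ℝ} (hc : c < 1) (hz : ‖z‖ ≤ c) :
    (Lam c)⁻¹ ≤ ‖1 - z‖ ∧ ‖1 - z‖ ≤ Lam c := by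
  have hc0 : 0 ≤ c := (norm_nonneg _).trans hz
  obtain ⟨b1, b2⟩ := one_sub_bounds hz
  constructor
  · refine (Lam_inv_le hc).trans (le_trans ?_ b1)
    nlinarith
  · refine b2.trans (le_max_of_le_left ?_)
    linarith

lemma gP_norm {n : Fin r → ℤ} {σ : ℂ} (hσ : ‖σ‖ ≤ 1) {x : Fin r → ℂ} {c : ℝ} (hc : c < 1)
    (hx : ∀ k, ‖x k‖ ≤ c) : ‖gP n σ x‖ ≤ Lam c ^ Nt n := by
  unfold gP
  rw [norm_prod, Nt, ← Finset.prod_pow_eq_pow_sum]
  refine Finset.prod_le_prod (fun _ _ => norm_nonneg _) fun k _ => ?_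
  have h1 : ‖σ * x k‖ ≤ c := by
    rw [norm_mul]
    calc ‖σ‖ * ‖x k‖ ≤ 1 * ‖x k‖ := by gcongr
      _ ≤ c := by rw [one_mul]; exact hx k
  obtain ⟨b1, b2⟩ := lin_bounds hc h1
  exact norm_zpow_le b1 b2 (one_le_Lam _) _

lemma SP_norm {n : Fin r → ℤ} {x : Fin r → ℂ} {c : ℝ} (hc : c < 1)
    (hx : ∀ k, ‖x k‖ ≤ c) : ‖SP n x‖ ≤ Lam c ^ Nt n := by
  unfold SP
  rw [norm_div]
  have h1 := gP_norm (n := n) (σ := 1) (by simp) hc hx
  have h2 := gP_norm (n := n) (σ := -1) (by simp) hc hx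
  have h3 : ‖(2 : ℂ)‖ = 2 := by simp
  rw [h3]
  have := norm_add_le (gP n 1 x) (gP n (-1) x)
  linarith

lemma prod_le_sq {z z' : ℂ} {c : ℝ} (hz : ‖z‖ ≤ c) (hz' : ‖z'‖ ≤ c) (hc1 : c < 1) :
    ‖z * z'‖ ≤ c := by
  have hc0 : 0 ≤ c := (norm_nonneg _).trans hz
  rw [norm_mul]
  calc ‖z‖ * ‖z'‖ ≤ c * c := mul_le_mul hz hz' (norm_nonneg _) hc0
    _ ≤ c := by nlinarith

lemma RP_norm {n : Fin r → ℤ} {x : Fin r → ℂ} {c : ℝ} (hc : c < 1)
    (hx : ∀ k, ‖x k‖ ≤ c) : ‖RP n x‖ ≤ Lam c ^ Np n := by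
  unfold RP
  rw [norm_prod, Np, ← Finset.prod_pow_eq_pow_sum]
  refine Finset.prod_le_prod (fun _ _ => norm_nonneg _) fun p _ => ?_
  obtain ⟨b1, b2⟩ := lin_bounds hc (prod_le_sq (hx p.1) (hx p.2) hc)
  exact norm_zpow_le b1 b2 (one_le_Lam _) _

lemma ne_zero_of_bounds {z : ℂ} {c : ℝ} (h : (Lam c)⁻¹ ≤ ‖z‖) : z ≠ 0 := by
  have := one_le_Lam c
  exact norm_pos_iff.1 (lt_of_lt_of_le (by positivity) h)

lemma diff_gP {n : Fin r → ℤ} {σ : ℂ} (hσ : ‖σ‖ ≤ 1) {x : Fin r → ℂ} {c : ℝ} (hc : c < 1)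
    {w : ℂ} (hx : ∀ k, ‖w * x k‖ ≤ c) :
    DifferentiableAt ℂ (fun w => gP n σ (fun k => w * x k)) w := by
  unfold gP
  refine DifferentiableAt.fun_finsetProd fun k _ => ?_
  have h1 : ‖σ * (w * x k)‖ ≤ c := by
    rw [norm_mul]
    calc ‖σ‖ * ‖w * x k‖ ≤ 1 * ‖w * x k‖ := by gcongr
      _ ≤ c := by rw [one_mul]; exact hx k
  have h3 : DifferentiableAt ℂ (fun w => 1 - σ * (w * x k)) w := by fun_prop
  exact h3.zpow (Or.inl (ne_zero_of_bounds (lin_bounds hc h1).1))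

lemma diff_SP {n : Fin r → ℤ} {x : Fin r → ℂ} {c : ℝ} (hc : c < 1)
    {w : ℂ} (hx : ∀ k, ‖w * x k‖ ≤ c) :
    DifferentiableAt ℂ (fun w => SP n (fun k => w * x k)) w := by
  unfold SP
  exact ((diff_gP (by simp) hc hx).add (diff_gP (by simp) hc hx)).div_const 2

lemma diff_RP {n : Fin r → ℤ} {x : Fin r → ℂ} {c : ℝ} (hc : c < 1)
    {w : ℂ} (hx : ∀ k, ‖w * x k‖ ≤ c) :
    DifferentiableAt ℂ (fun w => RP n (fun k => w * x k)) w := by
  unfold RP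
  refine DifferentiableAt.fun_finsetProd fun p _ => ?_
  have h3 : DifferentiableAt ℂ (fun w => 1 - (w * x p.1) * (w * x p.2)) w := by fun_prop
  exact h3.zpow (Or.inl (ne_zero_of_bounds
    (lin_bounds hc (prod_le_sq (hx p.1) (hx p.2) hc)).1))

lemma gP_neg (n : Fin r → ℤ) (σ : ℂ) (x : Fin r → ℂ) :
    gP n σ (fun k => -(x k)) = gP n (-σ) x := by
  unfold gP
  refine Finset.prod_congr rfl fun k _ => ?_
  congr 1
  ring

lemma SP_even (n : Fin r → ℤ) (x : Fin r → ℂ) (w : ℂ) :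
    SP n (fun k => -w * x k) = SP n (fun k => w * x k) := by
  have h : (fun k => -w * x k) = fun k => -((fun k => w * x k) k) := by
    funext k
    ring
  rw [h]
  unfold SP
  rw [gP_neg, gP_neg, neg_neg]
  ring

lemma RP_even (n : Fin r → ℤ) (x : Fin r → ℂ) (w : ℂ) :
    RP n (fun k => -w * x k) = RP n (fun k => w * x k) := by
  unfold RP
  refine Finset.prod_congr rfl fun p _ => ?_
  congr 1
  ring

/-- **The estimate at one irreducible polynomial.** -/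
theorem est_P (n : Fin r → ℤ) {c₀ c₁ : ℝ} (hc0 : 0 < c₀) (hc : c₀ < c₁) (hc1 : c₁ < 1) :
    ∃ C : ℝ, 0 ≤ C ∧ ∀ (x : Fin r → ℂ) (b : ℝ), 0 < b → b ≤ c₀ → (∀ k, ‖x k‖ ≤ b) →
      ∀ ε : ℝ, 0 ≤ ε → ε ≤ 1 →
        ‖((ε : ℂ) + (1 - ε) * SP n x) * RP n x - 1‖ ≤ C * (ε * b ^ 2 + b ^ 4) := by
  have hL := one_le_Lam c₁
  have hc1' : 0 < c₁ := by linarith
  set t : ℝ := c₀ / c₁ with ht
  have ht0 : 0 < t := by positivity
  have ht1 : t < 1 := by rw [ht, div_lt_one hc1']; exact hc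
  set M₁ : ℝ := Lam c₁ ^ Nt n * Lam c₁ ^ Np n + 1 with hM1
  set M₂ : ℝ := Lam c₁ ^ Nt n + 1 with hM2
  have hM10 : 0 ≤ M₁ := by positivity
  have hM20 : 0 ≤ M₂ := by positivity
  refine ⟨M₁ / (c₁ ^ 4 * (1 - t)) + M₂ / (c₁ ^ 2 * (1 - t)) * Lam c₁ ^ Np n, ?_, ?_⟩
  · have : 0 < 1 - t := by linarith
    positivity
  intro x b hb hbc hx ε hε0 hε1
  have h1t : 0 < 1 - t := by linarith
  set R : ℝ := c₁ / b with hR
  have hR0 : 0 < R := by positivity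
  have hRi : 1 / R ≤ t := by
    rw [hR, one_div_div, ht]
    gcongr
  have hR1 : 1 < R := by
    have h1 : 1 / R < 1 := hRi.trans_lt ht1
    rwa [div_lt_one hR0] at h1
  have hwx : ∀ w : ℂ, ‖w‖ ≤ R → ∀ k, ‖w * x k‖ ≤ c₁ := by
    intro w hw k
    rw [norm_mul]
    calc ‖w‖ * ‖x k‖ ≤ R * b := mul_le_mul hw (hx k) (norm_nonneg _) hR0.le
      _ = c₁ := by rw [hR]; field_simp
  -- the two functions
  set G₁ : ℂ → ℂ := fun w => SP n (fun k => w * x k) * RP n (fun k => w * x k) - 1 with hG1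
  set G₂ : ℂ → ℂ := fun w => SP n (fun k => w * x k) - 1 with hG2
  have hd1 : DiffContOnCl ℂ G₁ (Metric.ball 0 R) := by
    refine DifferentiableOn.diffContOnCl ?_
    rw [closure_ball _ hR0.ne']
    intro w hw
    have hw' : ‖w‖ ≤ R := by simpa using hw
    exact (((diff_SP hc1 (hwx w hw')).mul (diff_RP hc1 (hwx w hw'))).sub_const
      1).differentiableWithinAt
  have hd2 : DiffContOnCl ℂ G₂ (Metric.ball 0 R) := by
    refine DifferentiableOn.diffContOnCl ?_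
    rw [closure_ball _ hR0.ne']
    intro w hw
    have hw' : ‖w‖ ≤ R := by simpa using hw
    exact ((diff_SP hc1 (hwx w hw')).sub_const 1).differentiableWithinAt
  have hb1 : ∀ z ∈ Metric.sphere (0 : ℂ) R, ‖G₁ z‖ ≤ M₁ := by
    intro z hz
    have hz' : ‖z‖ ≤ R := by simpa using (le_of_eq (by simpa using hz : ‖z‖ = R))
    rw [hG1, hM1]
    refine (norm_sub_le _ _).trans ?_
    rw [norm_one, norm_mul]
    have a1 := SP_norm (n := n) hc1 (hwx z hz')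
    have a2 := RP_norm (n := n) hc1 (hwx z hz')
    have := mul_le_mul a1 a2 (norm_nonneg _) (by positivity)
    linarith
  have hb2 : ∀ z ∈ Metric.sphere (0 : ℂ) R, ‖G₂ z‖ ≤ M₂ := by
    intro z hz
    have hz' : ‖z‖ ≤ R := by simpa using (le_of_eq (by simpa using hz : ‖z‖ = R))
    rw [hG2, hM2]
    refine (norm_sub_le _ _).trans ?_
    rw [norm_one]
    exact add_le_add (SP_norm (n := n) hc1 (hwx z hz')) le_rfl
  have he1 : ∀ z, G₁ (-z) = G₁ z := by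
    intro z
    simp only [hG1]
    rw [SP_even, RP_even]
  have he2 : ∀ z, G₂ (-z) = G₂ z := by
    intro z
    simp only [hG2]
    rw [SP_even]
  have ho1 : G₁ =O[𝓝 0] fun w => w ^ 3 := by
    have h := (SP_jet n x).mul (RP_jet n x)
    unfold Jet at h
    refine h.congr_left fun w => ?_
    simp only [hG1]
    ring
  have ho2 : G₂ =O[𝓝 0] fun w => w ^ 2 := by
    have h := SP_jet n x
    unfold Jet at h
    have h1 : (fun w : ℂ => w ^ 3) =O[𝓝 0] fun w : ℂ => w ^ 2 := by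
      have : (fun w : ℂ => w ^ 3) = fun w => w ^ 2 * w := by funext w; ring
      rw [this]
      have h2 : (fun w : ℂ => w) =O[𝓝 0] fun _ => (1 : ℂ) :=
        (continuous_id.tendsto (0 : ℂ)).isBigO_one ℂ
      simpa using (isBigO_refl (fun w : ℂ => w ^ 2) (𝓝 0)).mul h2
    have h2 : (fun w : ℂ => QP n x * w ^ 2) =O[𝓝 0] fun w : ℂ => w ^ 2 :=
      (isBigO_refl (fun w : ℂ => w ^ 2) (𝓝 0)).const_mul_left _
    refine ((h.trans h1).add h2).congr_left fun w => ?_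
    simp only [hG2]
    ring
  have m1 := even_est hR1 hd1 hb1 he1 ho1
  have m2 := taylor_tail hR1 hd2 hb2 2 fun m hm => iteratedDeriv_of_isBigO hR0 hd2 ho2 hm
  have e1 : M₁ * (1 / R) ^ 4 / (1 - 1 / R) ≤ M₁ / (c₁ ^ 4 * (1 - t)) * b ^ 4 := by
    have h3 : (1 / R) ^ 4 = b ^ 4 / c₁ ^ 4 := by rw [hR, one_div_div, div_pow]
    rw [h3]
    calc M₁ * (b ^ 4 / c₁ ^ 4) / (1 - 1 / R) ≤ M₁ * (b ^ 4 / c₁ ^ 4) / (1 - t) := by
          apply div_le_div_of_nonneg_left (by positivity) h1t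
          linarith
      _ = _ := by field_simp
  have e2 : M₂ * (1 / R) ^ 2 / (1 - 1 / R) ≤ M₂ / (c₁ ^ 2 * (1 - t)) * b ^ 2 := by
    have h3 : (1 / R) ^ 2 = b ^ 2 / c₁ ^ 2 := by rw [hR, one_div_div, div_pow]
    rw [h3]
    calc M₂ * (b ^ 2 / c₁ ^ 2) / (1 - 1 / R) ≤ M₂ * (b ^ 2 / c₁ ^ 2) / (1 - t) := by
          apply div_le_div_of_nonneg_left (by positivity) h1t
          linarith
      _ = _ := by field_simp
  have f1 : G₁ 1 = SP n x * RP n x - 1 := by simp only [hG1, one_mul]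
  have f2 : G₂ 1 = SP n x - 1 := by simp only [hG2, one_mul]
  have hx1 : ∀ k, ‖x k‖ ≤ c₁ := fun k => (hx k).trans (by linarith)
  have hRb := RP_norm (n := n) hc1 hx1
  have key : ((ε : ℂ) + (1 - ε) * SP n x) * RP n x - 1 =
      (SP n x * RP n x - 1) - ε * (SP n x - 1) * RP n x := by ring
  rw [key, ← f1, ← f2]
  refine (norm_sub_le _ _).trans ?_
  rw [norm_mul, norm_mul, Complex.norm_real, Real.norm_eq_abs, abs_of_nonneg hε0]
  have g1 := m1.trans e1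
  have g2 := m2.trans e2
  have g3 : ε * ‖G₂ 1‖ * ‖RP n x‖ ≤ ε * (M₂ / (c₁ ^ 2 * (1 - t)) * b ^ 2) * Lam c₁ ^ Np n := by
    gcongr
  have p1 : 0 ≤ M₁ / (c₁ ^ 4 * (1 - t)) * (ε * b ^ 2) := by positivity
  have p2 : 0 ≤ M₂ / (c₁ ^ 2 * (1 - t)) * Lam c₁ ^ Np n * b ^ 4 := by positivity
  calc ‖G₁ 1‖ + ε * ‖G₂ 1‖ * ‖RP n x‖ ≤ M₁ / (c₁ ^ 4 * (1 - t)) * b ^ 4 +
        ε * (M₂ / (c₁ ^ 2 * (1 - t)) * b ^ 2) * Lam c₁ ^ Np n := add_le_add g1 g3
    _ ≤ (M₁ / (c₁ ^ 4 * (1 - t)) + M₂ / (c₁ ^ 2 * (1 - t)) * Lam c₁ ^ Np n) *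
        (ε * b ^ 2 + b ^ 4) := by
      have : (M₁ / (c₁ ^ 4 * (1 - t)) + M₂ / (c₁ ^ 2 * (1 - t)) * Lam c₁ ^ Np n) *
          (ε * b ^ 2 + b ^ 4) = M₁ / (c₁ ^ 4 * (1 - t)) * b ^ 4 +
          ε * (M₂ / (c₁ ^ 2 * (1 - t)) * b ^ 2) * Lam c₁ ^ Np n +
          (M₁ / (c₁ ^ 4 * (1 - t)) * (ε * b ^ 2) +
            M₂ / (c₁ ^ 2 * (1 - t)) * Lam c₁ ^ Np n * b ^ 4) := by ring
      rw [this]
      linarith

end Pool.Agent.T6.H9.HY
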