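import Pool.Agent.H341R2.WeilSharp
import Pool.Agent.T6.H9.MV.Box

/-!
# Means over all monic polynomials of products of quadratic symbols

Owner helper9.
-/

set_option autoImplicit false
set_option linter.unusedSectionVars false
set_option linter.style.haveILetI false

open Polynomial Finset

namespace Pool.Agent.T6.H9.HY

open Pool.Agent.T6.H9.MV Pool.Agent.H341R2.Sharp

section

variable {F : Type} [Field F] [Fintype F] [DecidableEq F]

lemma finite_adjoinRoot {P : F[X]} (hP : P.Monic) : Finite (AdjoinRoot P) := by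
  haveI : Module.Finite F (AdjoinRoot P) := hP.finite_adjoinRoot
  exact Module.finite_of_finite F

lemma card_adjoinRoot {P : F[X]} (hP : P.Monic) :
    Nat.card (AdjoinRoot P) = Fintype.card F ^ P.natDegree := by
  haveI : Module.Finite F (AdjoinRoot P) := hP.finite_adjoinRoot
  haveI := finite_adjoinRoot hP
  haveI := Fintype.ofFinite (AdjoinRoot P)
  rw [Nat.card_eq_fintype_card, Module.card_eq_pow_finrank (K := F)]
  congr 1
  exact finrank_quotient_span_eq_natDegree

/-- the quadratic character modulo an irreducible polynomial -/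
theorem exists_chi (hF : ringChar F ≠ 2) {P : F[X]} (hP : P.Monic) (hi : Irreducible P) :
    ∃ χ : AdjoinRoot P → ℤ, (∀ f, lam f P = χ (AdjoinRoot.mk P f)) ∧
      (∀ c, c ≠ 0 → χ c ^ 2 = 1) ∧ χ 0 = 0 ∧ fmean (fun c => (χ c : ℂ)) = 0 := by
  classical
  haveI := Fact.mk hi
  haveI : Module.Finite F (AdjoinRoot P) := hP.finite_adjoinRoot
  haveI := finite_adjoinRoot hP
  letI : Fintype (AdjoinRoot P) := Fintype.ofFinite _
  have hE : ringChar (AdjoinRoot P) ≠ 2 := by rwa [← Algebra.ringChar_eq F (AdjoinRoot P)]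
  refine ⟨fun c => quadraticChar (AdjoinRoot P) c, fun f => ?_, fun c hc => ?_, ?_, ?_⟩
  · have h1 := qc_aeval (E := AdjoinRoot P) hF f (AdjoinRoot.root P)
    rw [AdjoinRoot.aeval_eq] at h1
    have h2 : minpoly F (AdjoinRoot.root P) = P := by
      rw [AdjoinRoot.minpoly_root hP.ne_zero, hP.leadingCoeff]
      simp
    have h3 : Module.finrank F (AdjoinRoot P) = P.natDegree := finrank_quotient_span_eq_natDegree
    rw [h2, h3, Nat.div_self hi.natDegree_pos, pow_one] at h1
    exact h1.symm
  · exact quadraticChar_sq_one hc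
  · exact MulChar.map_zero _
  · rw [fmean_eq]
    have := quadraticChar_sum_zero hE
    have h2 : ∑ c : AdjoinRoot P, ((quadraticChar (AdjoinRoot P) c : ℤ) : ℂ) = 0 := by
      exact_mod_cast this
    rw [h2, zero_div]

/-- the polynomial of degree less than `n` with given coefficients -/
noncomputable def lowP (n : ℕ) : (Fin n → F) →+ F[X] where
  toFun a := ∑ i : Fin n, C (a i) * X ^ (i : ℕ)
  map_zero' := by simp
  map_add' a b := by
    rw [← Finset.sum_add_distrib]
    refine Finset.sum_congr rfl fun i _ => ?_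
    rw [Pi.add_apply, C_add, add_mul]

lemma lowP_apply (n : ℕ) (a : Fin n → F) : lowP n a = ∑ i : Fin n, C (a i) * X ^ (i : ℕ) := rfl

/-- the monic polynomial of degree `n` with given coefficients -/
noncomputable def mkP (n : ℕ) (a : Fin n → F) : F[X] := X ^ n + lowP n a

lemma degree_lowP (n : ℕ) (a : Fin n → F) : (lowP n a).degree < n := degree_sum_fin_lt a

lemma mkP_monic (n : ℕ) (a : Fin n → F) : (mkP n a).Monic :=
  monic_X_pow_add (degree_lowP n a)

lemma mkP_natDegree (n : ℕ) (a : Fin n → F) : (mkP n a).natDegree = n := by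
  unfold mkP
  rw [natDegree_add_eq_left_of_degree_lt (by rw [degree_X_pow]; exact degree_lowP n a),
    natDegree_X_pow]

lemma lowP_coeff (n : ℕ) {g : F[X]} (hg : g.degree < n) :
    lowP n (fun i : Fin n => g.coeff i) = g := by
  rw [lowP_apply]
  by_cases h0 : g = 0
  · subst h0
    simp
  have h1 : g.natDegree < n := (natDegree_lt_iff_degree_lt h0).2 hg
  conv_rhs => rw [g.as_sum_range' n h1]
  rw [← Fin.sum_univ_eq_sum_range (fun i => monomial i (g.coeff i)) n]
  refine Finset.sum_congr rfl fun i _ => ?_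
  rw [C_mul_X_pow_eq_monomial]

/-- reduction modulo the members of a finite set of polynomials -/
noncomputable def phiS (n : ℕ) (S : Finset F[X]) :
    (Fin n → F) →+ (∀ P : S, AdjoinRoot P.1) :=
  (AddMonoidHom.pi fun P : S => (AdjoinRoot.mk P.1).toAddMonoidHom).comp (lowP n)

lemma phiS_apply (n : ℕ) (S : Finset F[X]) (a : Fin n → F) (P : S) :
    phiS n S a P = AdjoinRoot.mk P.1 (lowP n a) := rfl

lemma phiS_surj (n : ℕ) (S : Finset F[X]) (hS : ∀ P ∈ S, P.Monic ∧ Irreducible P)
    (hdeg : ∑ P ∈ S, P.natDegree ≤ n) : Function.Surjective (phiS n S) := by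
  classical
  intro c
  have hprime : ∀ P ∈ S, Prime (Ideal.span {P}) := by
    intro P hP
    rw [Ideal.prime_iff_isPrime (by
      rw [Ne, Ideal.span_singleton_eq_bot]; exact (hS P hP).1.ne_zero)]
    exact (Ideal.span_singleton_prime (hS P hP).1.ne_zero).2 (hS P hP).2.prime
  have hcop : ∀ᵉ (P ∈ S) (Q ∈ S), P ≠ Q → Ideal.span {P} ≠ Ideal.span {Q} := by
    intro P hP Q hQ hPQ h
    apply hPQ
    rw [Ideal.span_singleton_eq_span_singleton] at h
    exact eq_of_monic_of_associated (hS P hP).1 (hS Q hQ).1 h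
  choose y hy using fun P : S => AdjoinRoot.mk_surjective (c P)
  obtain ⟨g, hg⟩ := IsDedekindDomain.exists_forall_sub_mem_ideal (s := S)
    (fun P => Ideal.span {P}) (fun _ => 1) hprime hcop y
  set h : F[X] := ∏ P ∈ S, P with hh
  have hhm : h.Monic := monic_prod_of_monic _ _ fun P hP => (hS P hP).1
  have hhd : h.natDegree ≤ n := by
    rw [hh, natDegree_prod_of_monic _ _ fun P hP => (hS P hP).1]
    exact hdeg
  have hdegg : (g %ₘ h).degree < n := by
    refine (degree_modByMonic_lt _ hhm).trans_le ?_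
    rw [degree_eq_natDegree hhm.ne_zero]
    exact_mod_cast hhd
  refine ⟨fun i : Fin n => (g %ₘ h).coeff i, ?_⟩
  funext P
  rw [phiS_apply, lowP_coeff n hdegg]
  have h1 : P.1 ∣ g %ₘ h - g := by
    have h2 : g %ₘ h - g = -(h * (g /ₘ h)) := by
      have := modByMonic_add_div g h
      linear_combination this
    rw [h2, dvd_neg]
    exact Dvd.dvd.mul_right (Finset.dvd_prod_of_mem _ P.2) _
  have h3 : P.1 ∣ g - y P := by
    have := hg P.1 P.2
    rw [pow_one, Ideal.mem_span_singleton] at this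
    exact this
  have h4 : AdjoinRoot.mk P.1 (g %ₘ h) = AdjoinRoot.mk P.1 (y P) := by
    rw [AdjoinRoot.mk_eq_mk]
    have : g %ₘ h - y P = (g %ₘ h - g) + (g - y P) := by ring
    rw [this]
    exact dvd_add h1 h3
  rw [h4, hy]

lemma fmean_shift {Q : Type*} [AddCommGroup Q] [Finite Q] (g : Q → ℂ) (q : Q) :
    fmean (fun c => g (q + c)) = fmean g := by
  haveI := Fintype.ofFinite Q
  rw [fmean_eq, fmean_eq]
  congr 1
  exact Equiv.sum_comp (Equiv.addLeft q) g

/-- **Independence of the quadratic symbols**: the mean over all monic polynomials of degree `n`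
of a product of symbols at finitely many irreducible polynomials of total degree at most `n`. -/
theorem mean_lam (hF : ringChar F ≠ 2) (n : ℕ) (S A : Finset F[X]) (hAS : A ⊆ S)
    (hS : ∀ P ∈ S, P.Monic ∧ Irreducible P) (hdeg : ∑ P ∈ S, P.natDegree ≤ n) :
    fmean (fun a : Fin n → F => (∏ P ∈ A, (lam (mkP n a) P : ℂ)) *
      ∏ P ∈ S \ A, (lam (mkP n a) P : ℂ) ^ 2) =
      if A = ∅ then ∏ P ∈ S, (1 - 1 / (Fintype.card F : ℂ) ^ P.natDegree) else 0 := by
  classical
  choose χ h1 h2 h3 h4 using fun P : S => exists_chi hF (hS P.1 P.2).1 (hS P.1 P.2).2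
  haveI : ∀ P : S, Finite (AdjoinRoot P.1) := fun P => finite_adjoinRoot (hS P.1 P.2).1
  let η : ∀ P : S, AdjoinRoot P.1 → ℂ := fun P c =>
    if P.1 ∈ A then (χ P (AdjoinRoot.mk P.1 (X ^ n) + c) : ℂ) else
      (χ P (AdjoinRoot.mk P.1 (X ^ n) + c) : ℂ) ^ 2
  have e1 : ∀ a : Fin n → F, (∏ P ∈ A, (lam (mkP n a) P : ℂ)) *
      ∏ P ∈ S \ A, (lam (mkP n a) P : ℂ) ^ 2 = ∏ P : S, η P (phiS n S a P) := by
    intro a
    have e2 : ∀ P : S, η P (phiS n S a P) =
        if P.1 ∈ A then (lam (mkP n a) P.1 : ℂ) else (lam (mkP n a) P.1 : ℂ) ^ 2 := by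
      intro P
      have e3 : lam (mkP n a) P.1 = χ P (AdjoinRoot.mk P.1 (X ^ n) + phiS n S a P) := by
        rw [h1 P, mkP, map_add]
        rfl
      simp only [η]
      rw [e3]
    rw [Finset.prod_congr rfl fun P _ => e2 P,
      Finset.prod_coe_sort S (fun P => if P ∈ A then (lam (mkP n a) P : ℂ) else
        (lam (mkP n a) P : ℂ) ^ 2), ← Finset.prod_sdiff hAS, mul_comm]
    congr 1
    · refine Finset.prod_congr rfl fun P hP => ?_
      rw [if_neg (Finset.mem_sdiff.1 hP).2]
    · refine Finset.prod_congr rfl fun P hP => ?_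
      rw [if_pos hP]
  have e2 : fmean (fun a : Fin n → F => ∏ P : S, η P (phiS n S a P)) =
      ∏ P : S, fmean (η P) := by
    rw [← fmean_pi η]
    exact fmean_comp (phiS n S) (phiS_surj n S hS hdeg) (fun c => ∏ P : S, η P (c P))
  rw [funext e1, e2]
  have e3 : ∀ P : S, fmean (η P) = if P.1 ∈ A then 0 else
      (1 - 1 / (Fintype.card F : ℂ) ^ P.1.natDegree) := by
    intro P
    by_cases hPA : P.1 ∈ A
    · rw [if_pos hPA]
      have : η P = fun c => (χ P (AdjoinRoot.mk P.1 (X ^ n) + c) : ℂ) := by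
        funext c
        simp only [η, if_pos hPA]
      rw [this, fmean_shift (fun c => (χ P c : ℂ)), h4]
    · rw [if_neg hPA]
      have : η P = fun c => (χ P (AdjoinRoot.mk P.1 (X ^ n) + c) : ℂ) ^ 2 := by
        funext c
        simp only [η, if_neg hPA]
      rw [this, fmean_shift (fun c => (χ P c : ℂ) ^ 2)]
      have e4 : (fun c => (χ P c : ℂ) ^ 2) = fun c => 1 - if c = 0 then (1 : ℂ) else 0 := by
        funext c
        by_cases hc : c = 0
        · subst hc
          rw [h3 P]
          simp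
        · rw [if_neg hc, sub_zero]
          exact_mod_cast h2 P c hc
      rw [e4, fmean_sub]
      have e5 : fmean (fun c : AdjoinRoot P.1 => if c = 0 then (1 : ℂ) else 0) =
          1 / (Nat.card (AdjoinRoot P.1) : ℂ) := by
        have := fmean_ite (0 : AdjoinRoot P.1)
        convert this
      rw [e5, card_adjoinRoot (hS P.1 P.2).1]
      have e6 : fmean (fun _ : AdjoinRoot P.1 => (1 : ℂ)) = 1 := by
        haveI := Fintype.ofFinite (AdjoinRoot P.1)
        rw [fmean_eq]
        simp
      rw [e6]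
      push_cast
      rfl
  rw [Finset.prod_congr rfl fun P _ => e3 P,
    Finset.prod_coe_sort S (fun P => if P ∈ A then (0 : ℂ) else
      (1 - 1 / (Fintype.card F : ℂ) ^ P.natDegree))]
  by_cases hA : A = ∅
  · rw [if_pos hA]
    subst hA
    refine Finset.prod_congr rfl fun P _ => ?_
    rw [if_neg (Finset.notMem_empty P)]
  · rw [if_neg hA]
    obtain ⟨P, hP⟩ := Finset.nonempty_iff_ne_empty.2 hA
    exact Finset.prod_eq_zero (hAS hP) (if_pos hP)

end

end Pool.Agent.T6.H9.HY
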