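import Pool.Agent.H126T.Field
import Pool.Agent.T6.H9.HY.LocP
import Pool.Agent.T6.H9.HY.Poly
import Pool.Agent.T6.H9.HY.Expo

/-!
# The local estimate for hyperelliptic curves

Owner helper9.
-/

set_option autoImplicit false
set_option linter.unusedSectionVars false
set_option linter.style.haveILetI false
set_option linter.unusedVariables false

open Filter Topology Asymptotics Finset Polynomial

namespace Pool.Agent.T6.H9.HY

open Pool.Agent.T6.H9.MV Pool.Agent.H341R2.Sharp

section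

variable {F : Type} [Field F] [Fintype F] [DecidableEq F] {r : ℕ}

/-- the power sums are differences of numbers of points -/
lemma T_eq_aff (hF : ringChar F ≠ 2) (f : F[X]) {j : ℕ} (hj : j ≠ 0) :
    T f j = (Pool.Agent.H126T.affPts F f 1 j : ℤ) - (Fintype.card F : ℤ) ^ j := by
  classical
  obtain ⟨E, i1, i2, i3, hE⟩ := Pool.Agent.H126T.exists_ext (k := F) j hj
  letI := Fintype.ofFinite E
  have hE2 : ringChar E ≠ 2 := by rwa [← Algebra.ringChar_eq F E]
  have hfr : Module.finrank F E = j := by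
    have h1 : Nat.card E = Nat.card F ^ Module.finrank F E := by
      rw [Nat.card_eq_fintype_card, Nat.card_eq_fintype_card, Module.card_eq_pow_finrank (K := F)]
    rw [hE] at h1
    have h2 : 1 < Nat.card F := by
      rw [Nat.card_eq_fintype_card]
      exact Fintype.one_lt_card
    exact (Nat.pow_right_injective h2 h1).symm
  have h1 := T_eq_sum (F := F) (E := E) hF f
  rw [hfr] at h1
  rw [h1, Pool.Agent.H126T.affPts_eq f 1 j E hE]
  have e1 : {P : E × E // algebraMap F E 1 * P.2 ^ 2 = aeval P.1 f} =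
      {P : E × E // (1 : E) * P.2 ^ 2 = (f.map (algebraMap F E)).eval P.1} := by
    congr 1
    funext P
    rw [eval_map, aeval_def, map_one]
  rw [e1, Pool.Agent.H126T.card_aff hE2 (f.map (algebraMap F E)) 1 one_ne_zero]
  rw [← Nat.card_eq_fintype_card (α := E), hE, Nat.card_eq_fintype_card]
  push_cast
  rw [map_one]
  have e2 : ∀ x : E, (f.map (algebraMap F E)).eval x = aeval x f := fun x =>
    eval_map_algebraMap _ _
  simp only [e2]
  ring

/-- the sharp bound for the power sums -/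
lemma T_le (hF : ringChar F ≠ 2) {f : F[X]} (hf : Odd f.natDegree) {j : ℕ} (hj : 1 ≤ j) :
    ‖(T f j : ℂ)‖ ≤ (f.natDegree - 1 : ℝ) * (√(Fintype.card F)) ^ j := by
  have h1 := Pool.Agent.H126T.trace_bound hF f hf 1 one_ne_zero j (by omega)
  rw [Nat.card_eq_fintype_card] at h1
  have h2 : (((Fintype.card F : ℤ) ^ j + 1 - ((Pool.Agent.H126T.affPts F f 1 j : ℤ) + 1) : ℤ) : ℝ) =
      -(T f j : ℝ) := by
    rw [T_eq_aff hF f (by omega)]
    push_cast
    ring
  rw [h2, abs_neg] at h1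
  rw [Complex.norm_intCast]
  refine h1.trans (le_of_eq ?_)
  congr 1
  rw [Real.sqrt_eq_rpow, ← Real.rpow_natCast (Fintype.card F : ℝ) j, ← Real.rpow_mul (by positivity),
    Real.sqrt_eq_rpow, ← Real.rpow_mul_natCast (by positivity)]
  congr 1
  ring

lemma lam_one_left (P : F[X]) (hP : P.Monic) : lam (1 : F[X]) P = 1 := by
  unfold lam
  rw [natDegree_one, resultant_zero_right_deg]
  simp

lemma T_one (hF : ringChar F ≠ 2) {j : ℕ} (hj : j ≠ 0) :
    T (1 : F[X]) j = (Fintype.card F : ℤ) ^ j := by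
  classical
  obtain ⟨E, i1, i2, i3, hE⟩ := Pool.Agent.H126T.exists_ext (k := F) j hj
  letI := Fintype.ofFinite E
  have hfr : Module.finrank F E = j := by
    have h1 : Nat.card E = Nat.card F ^ Module.finrank F E := by
      rw [Nat.card_eq_fintype_card, Nat.card_eq_fintype_card, Module.card_eq_pow_finrank (K := F)]
    rw [hE] at h1
    have h2 : 1 < Nat.card F := by
      rw [Nat.card_eq_fintype_card]
      exact Fintype.one_lt_card
    exact (Nat.pow_right_injective h2 h1).symm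
  have h1 := T_eq_sum (F := F) (E := E) hF (1 : F[X])
  rw [hfr] at h1
  rw [h1]
  simp only [map_one, Finset.sum_const, Finset.card_univ, nsmul_eq_mul, mul_one]
  have h2 : Fintype.card E = Fintype.card F ^ j := by
    rw [← Nat.card_eq_fintype_card, hE, Nat.card_eq_fintype_card]
  rw [h2]
  push_cast
  rfl

/-- the product of `1 - u^{deg P}` agrees with `1 - q u` -/
lemma one_eqv (hF : ringChar F ≠ 2) (m : ℕ) :
    Eqv (m + 1) (fun u => 1 - (Fintype.card F : ℂ) * u)
      (fun u => ∏ P ∈ Irr F m, (1 - u ^ P.natDegree)) := by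
  classical
  have hq1 : (1 : ℝ) ≤ (Fintype.card F : ℝ) := by exact_mod_cast Fintype.card_pos
  have h1 := EF_eqv (1 : F[X]) (C := 1) (s := (Fintype.card F : ℝ)) zero_le_one hq1 (by
    intro j hj
    rw [T_one hF (by omega)]
    push_cast
    rw [norm_pow, Complex.norm_natCast, one_mul]) m
  have h2 : (fun u : ℂ => ∏ P ∈ Irr F m, (1 - (lam (1 : F[X]) P : ℂ) * u ^ P.natDegree)) =
      fun u => ∏ P ∈ Irr F m, (1 - u ^ P.natDegree) := by
    funext u
    refine Finset.prod_congr rfl fun P hP => ?_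
    rw [lam_one_left P (mem_Irr.1 hP).1]
    simp
  rw [h2] at h1
  have h3 : ∀ᶠ u : ℂ in 𝓝 0, EF (1 : F[X]) u = 1 - (Fintype.card F : ℂ) * u := by
    have h4 : ∀ᶠ u : ℂ in 𝓝 0, ‖u‖ < 1 / (Fintype.card F : ℝ) := by
      have h2 : Tendsto (fun u : ℂ => ‖u‖) (𝓝 0) (𝓝 0) := by
        have := (continuous_norm (E := ℂ)).tendsto 0
        simpa using this
      exact h2.eventually (gt_mem_nhds (by positivity))
    filter_upwards [h4] with u hu
    have hq0 : (0 : ℝ) < (Fintype.card F : ℝ) := by linarith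
    have hz : ‖(Fintype.card F : ℂ) * u‖ < 1 := by
      rw [norm_mul, Complex.norm_natCast]
      rw [lt_div_iff₀ hq0] at hu
      linarith
    have h5 := LS_tP (d := 1) le_rfl (lam := 1) (u := (Fintype.card F : ℂ) * u) (by simp) hz
    have h6 : LS (fun m => -(T (1 : F[X]) m : ℂ)) u = LS (tP 1 1) ((Fintype.card F : ℂ) * u) := by
      unfold LS
      refine tsum_congr fun j => ?_
      beta_reduce
      rw [T_one hF (by omega : j + 1 ≠ 0)]
      unfold tP
      rw [if_pos (one_dvd _), one_pow, mul_pow]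
      push_cast
      ring
    unfold EF
    rw [h6, h5, Complex.exp_log]
    · simp
    · intro h0
      rw [one_mul, pow_one] at h0
      have : (Fintype.card F : ℂ) * u = 1 := (sub_eq_zero.1 h0).symm
      rw [this, norm_one] at hz
      exact lt_irrefl _ hz
  obtain ⟨a1, a2, a3⟩ := h1
  refine ⟨a1.congr' h3, a2, a3.congr' ?_ EventuallyEq.rfl⟩
  filter_upwards [h3] with u hu
  rw [hu]

/-- the arguments -/
noncomputable def xP (T : Fin r → ℂ) (d : ℕ) (w : ℂ) : Fin r → ℂ := fun k => (w * T k) ^ d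

lemma tendsto_wT (t : ℂ) : Tendsto (fun w : ℂ => w * t) (𝓝 0) (𝓝 0) := by
  have h : Continuous fun w : ℂ => w * t := by fun_prop
  simpa using h.tendsto 0

lemma bigO_wT (t : ℂ) : (fun w : ℂ => w * t) =O[𝓝 0] fun w => w := by
  have := (isBigO_refl (fun w : ℂ => w) (𝓝 0)).const_mul_left t
  refine this.congr_left fun w => ?_
  ring

/-- the product of Euler factors agrees with the product over irreducible polynomials -/
lemma prod_eqv (n : Fin r → ℤ) (f : F[X]) {C s : ℝ} (hC : 0 ≤ C) (hs : 1 ≤ s)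
    (hT : ∀ m, 1 ≤ m → ‖(T f m : ℂ)‖ ≤ C * s ^ m) (m : ℕ) (t : Fin r → ℂ) :
    Eqv (m + 1) (fun w => ∏ k, EF f (w * t k) ^ n k)
      (fun w => ∏ P ∈ Irr F m, gP n (lam f P) (xP t P.natDegree w)) := by
  have h1 : Eqv (m + 1) (fun w => ∏ k, EF f (w * t k) ^ n k)
      (fun w => ∏ k, (∏ P ∈ Irr F m, (1 - (lam f P : ℂ) * (w * t k) ^ P.natDegree)) ^ n k) :=
    Eqv.prod _ fun k _ => ((EF_eqv f hC hs hT m).comp (tendsto_wT (t k)) (bigO_wT (t k))).zpow (n k)
  have h2 : (fun w => ∏ k, (∏ P ∈ Irr F m, (1 - (lam f P : ℂ) * (w * t k) ^ P.natDegree)) ^ n k) =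
      fun w => ∏ P ∈ Irr F m, gP n (lam f P) (xP t P.natDegree w) := by
    funext w
    unfold gP xP
    rw [Finset.prod_comm]
    refine Finset.prod_congr rfl fun k _ => ?_
    rw [Finset.prod_zpow]
  rw [h2] at h1
  exact h1

lemma zeta_eqv (hF : ringChar F ≠ 2) (n : Fin r → ℤ) (m : ℕ) (t : Fin r → ℂ) :
    Eqv (m + 1)
      (fun w => ∏ p ∈ prs r, (1 - (Fintype.card F : ℂ) * ((w * t p.1) * (w * t p.2))) ^ ex n p)
      (fun w => ∏ P ∈ Irr F m, RP n (xP t P.natDegree w)) := by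
  have h1 : Eqv (m + 1)
      (fun w => ∏ p ∈ prs r, (1 - (Fintype.card F : ℂ) * ((w * t p.1) * (w * t p.2))) ^ ex n p)
      (fun w => ∏ p ∈ prs r, (∏ P ∈ Irr F m,
        (1 - ((w * t p.1) * (w * t p.2)) ^ P.natDegree)) ^ ex n p) := by
    refine Eqv.prod _ fun p _ => ?_
    have h2 : Tendsto (fun w : ℂ => (w * t p.1) * (w * t p.2)) (𝓝 0) (𝓝 0) := by
      have := (tendsto_wT (t p.1)).mul (tendsto_wT (t p.2))
      simpa using this
    have h3 : (fun w : ℂ => (w * t p.1) * (w * t p.2)) =O[𝓝 0] fun w => w := by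
      have h4 := (bigO_wT (t p.1)).mul ((tendsto_wT (t p.2)).isBigO_one ℂ)
      simpa using h4
    exact ((one_eqv hF m).comp h2 h3).zpow (ex n p)
  have h2 : (fun w => ∏ p ∈ prs r, (∏ P ∈ Irr F m,
        (1 - ((w * t p.1) * (w * t p.2)) ^ P.natDegree)) ^ ex n p) =
      fun w => ∏ P ∈ Irr F m, RP n (xP t P.natDegree w) := by
    funext w
    unfold RP xP
    rw [Finset.prod_comm]
    refine Finset.prod_congr rfl fun p _ => ?_
    rw [← Finset.prod_zpow]
    refine Finset.prod_congr rfl fun P _ => ?_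
    rw [mul_pow]
  rw [h2] at h1
  exact h1

/-- odd part -/
noncomputable def oP (n : Fin r → ℤ) (x : Fin r → ℂ) : ℂ := (gP n 1 x - gP n (-1) x) / 2

lemma gP_lam (n : Fin r → ℤ) (f P : F[X]) (x : Fin r → ℂ) :
    gP n (lam f P) x = 1 + ((lam f P : ℂ) * oP n x + (lam f P : ℂ) ^ 2 * (SP n x - 1)) := by
  have h : lam f P = 0 ∨ lam f P = 1 ∨ lam f P = -1 := by
    unfold lam
    by_cases h : resultant P f P.natDegree f.natDegree = 0
    · left
      rw [h, MulChar.map_zero]
    · right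
      exact quadraticChar_dichotomy h
  unfold oP SP
  rcases h with h | h | h <;> rw [h]
  · unfold gP
    simp
  · push_cast
    ring
  · push_cast
    ring

lemma gP_eqv_one (n : Fin r → ℤ) (σ : ℂ) (t : Fin r → ℂ) {d : ℕ} (hd : 1 ≤ d) :
    Eqv d (fun w => gP n σ (xP t d w)) (fun _ => 1) := by
  have h1 : Eqv d (fun w => ∏ k, (1 - σ * (w * t k) ^ d) ^ n k)
      (fun _ => ∏ k, (1 : ℂ) ^ n k) := by
    refine Eqv.prod _ fun k _ => Eqv.zpow ⟨?_, tendsto_const_nhds, ?_⟩ (n k)
    · have h : Continuous fun w : ℂ => 1 - σ * (w * t k) ^ d := by fun_prop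
      have h2 := h.tendsto 0
      simpa [zero_pow (by omega : d ≠ 0)] using h2
    · have h2 := ((bigO_wT (t k)).pow d).const_mul_left (-σ)
      refine h2.congr_left fun w => ?_
      ring
  simp only [one_zpow, Finset.prod_const_one] at h1
  exact h1

lemma oP_bigO (n : Fin r → ℤ) (t : Fin r → ℂ) {d : ℕ} (hd : 1 ≤ d) :
    (fun w => oP n (xP t d w)) =O[𝓝 0] fun w => w ^ d := by
  have h1 := (gP_eqv_one n 1 t hd).2.2
  have h2 := (gP_eqv_one n (-1) t hd).2.2
  have h3 := (h1.sub h2).const_mul_left (1 / 2)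
  refine h3.congr_left fun w => ?_
  unfold oP
  ring

lemma eP_bigO (n : Fin r → ℤ) (t : Fin r → ℂ) {d : ℕ} (hd : 1 ≤ d) :
    (fun w => SP n (xP t d w) - 1) =O[𝓝 0] fun w => w ^ d := by
  have h1 := (gP_eqv_one n 1 t hd).2.2
  have h2 := (gP_eqv_one n (-1) t hd).2.2
  have h3 := (h1.add h2).const_mul_left (1 / 2)
  refine h3.congr_left fun w => ?_
  unfold SP
  ring

lemma SP_tendsto (n : Fin r → ℤ) (t : Fin r → ℂ) {d : ℕ} (hd : 1 ≤ d) :
    Tendsto (fun w => SP n (xP t d w)) (𝓝 0) (𝓝 1) := by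
  have h1 := (gP_eqv_one n 1 t hd).1
  have h2 := (gP_eqv_one n (-1) t hd).1
  have h3 := (h1.add h2).div_const 2
  have h4 : ((1 : ℂ) + 1) / 2 = 1 := by norm_num
  rw [h4] at h3
  exact h3

lemma fmean_sum {α ι : Type*} [Finite α] (S : Finset ι) (g : ι → α → ℂ) :
    fmean (fun t => ∑ i ∈ S, g i t) = ∑ i ∈ S, fmean (g i) := by
  haveI := Fintype.ofFinite α
  simp only [fmean_eq]
  rw [Finset.sum_comm, Finset.sum_div]

lemma fmean_mul_const {α : Type*} [Finite α] (g : α → ℂ) (c : ℂ) :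
    fmean (fun t => g t * c) = fmean g * c := by
  haveI := Fintype.ofFinite α
  simp only [fmean_eq]
  rw [← Finset.sum_mul]
  ring

lemma prod_bigO {ι : Type*} (S : Finset ι) {f : ι → ℂ → ℂ} {d : ι → ℕ}
    (h : ∀ i ∈ S, f i =O[𝓝 0] fun w => w ^ d i) :
    (fun w => ∏ i ∈ S, f i w) =O[𝓝 0] fun w => w ^ ∑ i ∈ S, d i := by
  classical
  induction S using Finset.induction_on with
  | empty => simpa using isBigO_refl (fun _ : ℂ => (1 : ℂ)) (𝓝 0)
  | insert i S hi ih =>
    simp only [Finset.prod_insert hi, Finset.sum_insert hi]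
    have := (h i (Finset.mem_insert_self _ _)).mul (ih fun j hj => h j (Finset.mem_insert_of_mem hj))
    simpa only [pow_add] using this

lemma pow_bigO {a b : ℕ} (h : a ≤ b) : (fun w : ℂ => w ^ b) =O[𝓝 0] fun w => w ^ a := by
  obtain ⟨c, rfl⟩ := Nat.exists_eq_add_of_le h
  have h1 : (fun w : ℂ => w ^ c) =O[𝓝 0] fun _ => (1 : ℂ) := by
    have : Continuous fun w : ℂ => w ^ c := by fun_prop
    exact (this.tendsto 0).isBigO_one ℂ
  have h2 := (isBigO_refl (fun w : ℂ => w ^ a) (𝓝 0)).mul h1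
  simpa [pow_add] using h2

/-- the local model -/
noncomputable def Xi (n : Fin r → ℤ) (m : ℕ) (t : Fin r → ℂ) (w : ℂ) : ℂ :=
  ∏ P ∈ Irr F m, ((1 / (Fintype.card F : ℂ) ^ P.natDegree +
    (1 - 1 / (Fintype.card F : ℂ) ^ P.natDegree) * SP n (xP t P.natDegree w)))

/-- **Step 2**: the mean over all monic polynomials of degree `m` agrees with the local model up
to order `m`. -/
theorem mean_bigO (hF : ringChar F ≠ 2) (n : Fin r → ℤ) (m : ℕ) (t : Fin r → ℂ) :
    (fun w => fmean (fun a : Fin m → F =>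
      ∏ P ∈ Irr F m, gP n (lam (mkP m a) P) (xP t P.natDegree w)) - Xi (F := F) n m t w) =O[𝓝 0]
      fun w => w ^ (m + 1) := by
  classical
  set q : ℂ := (Fintype.card F : ℂ) with hq
  let o : F[X] → ℂ → ℂ := fun P w => oP n (xP t P.natDegree w)
  let e : F[X] → ℂ → ℂ := fun P w => SP n (xP t P.natDegree w) - 1
  let c : Finset F[X] → Finset F[X] → ℂ → ℂ := fun S A w => (∏ P ∈ A, o P w) * ∏ P ∈ S \ A, e P w
  let μ : Finset F[X] → Finset F[X] → ℂ := fun S A => fmean (fun a : Fin m → F =>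
    (∏ P ∈ A, (lam (mkP m a) P : ℂ)) * ∏ P ∈ S \ A, (lam (mkP m a) P : ℂ) ^ 2)
  let μ' : Finset F[X] → Finset F[X] → ℂ := fun S A =>
    if A = ∅ then ∏ P ∈ S, (1 - 1 / q ^ P.natDegree) else 0
  have h1 : ∀ w, fmean (fun a : Fin m → F =>
      ∏ P ∈ Irr F m, gP n (lam (mkP m a) P) (xP t P.natDegree w)) =
      ∑ S ∈ (Irr F m).powerset, ∑ A ∈ S.powerset, μ S A * c S A w := by
    intro w
    have h2 : ∀ a : Fin m → F, ∏ P ∈ Irr F m, gP n (lam (mkP m a) P) (xP t P.natDegree w) =
        ∑ S ∈ (Irr F m).powerset, ∑ A ∈ S.powerset,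
          ((∏ P ∈ A, (lam (mkP m a) P : ℂ)) * ∏ P ∈ S \ A, (lam (mkP m a) P : ℂ) ^ 2) *
            c S A w := by
      intro a
      have h3 : ∏ P ∈ Irr F m, gP n (lam (mkP m a) P) (xP t P.natDegree w) =
          ∏ P ∈ Irr F m, (1 + ((lam (mkP m a) P : ℂ) * o P w +
            (lam (mkP m a) P : ℂ) ^ 2 * e P w)) :=
        Finset.prod_congr rfl fun P _ => gP_lam n _ P _
      rw [h3, Finset.prod_one_add]
      refine Finset.sum_congr rfl fun S _ => ?_
      rw [Finset.prod_add]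
      refine Finset.sum_congr rfl fun A _ => ?_
      rw [Finset.prod_mul_distrib, Finset.prod_mul_distrib]
      simp only [c]
      ring
    rw [funext h2, fmean_sum]
    refine Finset.sum_congr rfl fun S _ => ?_
    rw [fmean_sum]
    refine Finset.sum_congr rfl fun A _ => ?_
    exact fmean_mul_const _ _
  have h2 : ∀ w, Xi (F := F) n m t w =
      ∑ S ∈ (Irr F m).powerset, ∑ A ∈ S.powerset, μ' S A * c S A w := by
    intro w
    have h3 : Xi (F := F) n m t w = ∏ P ∈ Irr F m, (1 + (1 - 1 / q ^ P.natDegree) * e P w) := by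
      unfold Xi
      refine Finset.prod_congr rfl fun P _ => ?_
      simp only [e]
      ring
    rw [h3, Finset.prod_one_add]
    refine Finset.sum_congr rfl fun S _ => ?_
    rw [Finset.sum_eq_single ∅]
    · simp only [μ', c, if_true, Finset.prod_empty, one_mul, Finset.sdiff_empty]
      rw [Finset.prod_mul_distrib]
    · intro A _ hA
      simp only [μ', if_neg hA, zero_mul]
    · intro h
      exact absurd (Finset.empty_mem_powerset S) h
  have h3 : (fun w => ∑ S ∈ (Irr F m).powerset, ∑ A ∈ S.powerset, (μ S A - μ' S A) * c S A w)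
      =O[𝓝 0] fun w => w ^ (m + 1) := by
    refine IsBigO.fun_sum fun S hS => IsBigO.fun_sum fun A hA => ?_
    rw [Finset.mem_powerset] at hS hA
    by_cases hdeg : ∑ P ∈ S, P.natDegree ≤ m
    · have h4 : μ S A = μ' S A := mean_lam hF m S A hA (fun P hP =>
        ⟨(mem_Irr.1 (hS hP)).1, (mem_Irr.1 (hS hP)).2.1⟩) hdeg
      rw [h4]
      simp only [sub_self, zero_mul]
      exact isBigO_zero _ _
    · have hpos : ∀ P ∈ S, 1 ≤ P.natDegree := fun P hP => (mem_Irr.1 (hS hP)).2.1.natDegree_pos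
      have h4 : (fun w => ∏ P ∈ A, o P w) =O[𝓝 0] fun w => w ^ ∑ P ∈ A, P.natDegree :=
        prod_bigO A fun P hP => oP_bigO n t (hpos P (hA hP))
      have h5 : (fun w => ∏ P ∈ S \ A, e P w) =O[𝓝 0] fun w => w ^ ∑ P ∈ S \ A, P.natDegree :=
        prod_bigO (S \ A) fun P hP => eP_bigO n t (hpos P (Finset.mem_sdiff.1 hP).1)
      have h6 := (h4.mul h5).const_mul_left (μ S A - μ' S A)
      have h7 : ∑ P ∈ A, P.natDegree + ∑ P ∈ S \ A, P.natDegree = ∑ P ∈ S, P.natDegree := by
        rw [add_comm]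
        exact Finset.sum_sdiff hA
      simp only [← pow_add, h7] at h6
      exact h6.trans (pow_bigO (by omega))
  refine h3.congr_left fun w => ?_
  rw [h1, h2, ← Finset.sum_sub_distrib]
  refine Finset.sum_congr rfl fun S _ => ?_
  rw [← Finset.sum_sub_distrib]
  refine Finset.sum_congr rfl fun A _ => ?_
  ring

end

end Pool.Agent.T6.H9.HY
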