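import Pool.Agent.T6.H9.HY.LocalEst

/-!
# The local estimate for hyperelliptic curves: conclusion

Owner helper9.
-/

set_option autoImplicit false
set_option linter.unusedSectionVars false
set_option linter.style.haveILetI false
set_option linter.unusedVariables false

open Filter Topology Asymptotics Finset Polynomial

namespace Pool.Agent.T6.H9.HY

open Pool.Agent.T6.H9.MV Pool.Agent.H341R2.Sharp

section

variable {F : Type} [Field F] [Fintype F] [DecidableEq F] {r : ℕ}

lemma card_Mon (d : ℕ) : (Mon F d).card = Fintype.card F ^ d := by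
  classical
  have h1 : Fintype.card (Fin d → F) = Fintype.card F ^ d := by
    rw [Fintype.card_fun, Fintype.card_fin]
  rw [← h1, ← Finset.card_univ]
  symm
  refine Finset.card_bij (fun a _ => mkP d a) ?_ ?_ ?_
  · intro a _
    exact mem_Mon.2 ⟨mkP_monic d a, mkP_natDegree d a⟩
  · intro a _ b _ hab
    unfold mkP at hab
    have h2 := add_left_cancel hab
    funext i
    have h3 := congrArg (fun p : F[X] => p.coeff i) h2
    simp only [lowP_apply, finsetSum_coeff, coeff_C_mul, coeff_X_pow] at h3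
    have h4 : ∀ c : Fin d → F, ∑ j : Fin d, c j * (if (i : ℕ) = (j : ℕ) then (1 : F) else 0) = c i := by
      intro c
      rw [Finset.sum_eq_single i]
      · simp
      · intro j _ hji
        rw [if_neg (fun h => hji (Fin.ext h.symm)), mul_zero]
      · intro h
        exact absurd (Finset.mem_univ i) h
    rw [h4, h4] at h3
    exact h3
  · intro f hf
    rw [mem_Mon] at hf
    have h2 : (f - X ^ d).degree < ((d : ℕ) : WithBot ℕ) := by
      have h3 : f.degree = ((d : ℕ) : WithBot ℕ) := by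
        rw [degree_eq_natDegree hf.1.ne_zero, hf.2]
      have h4 : (f - X ^ d).degree < f.degree := by
        refine degree_sub_lt_left ?_ hf.1.ne_zero ?_
        · rw [h3, degree_X_pow]
        · rw [hf.1.leadingCoeff, leadingCoeff_X_pow]
      rwa [h3] at h4
    refine ⟨fun i : Fin d => (f - X ^ d).coeff i, Finset.mem_univ _, ?_⟩
    unfold mkP
    rw [lowP_coeff d h2]
    ring

/-- sums over irreducible polynomials, by degree -/
lemma sum_Irr_le (m : ℕ) {h : ℕ → ℝ} (hh : ∀ d, 0 ≤ h d) :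
    ∑ P ∈ Irr F m, h P.natDegree ≤ ∑ d ∈ Icc 1 m, (Fintype.card F : ℝ) ^ d * h d := by
  classical
  have hmaps : ∀ P ∈ Irr F m, P.natDegree ∈ Icc 1 m := by
    intro P hP
    rw [mem_Irr] at hP
    rw [Finset.mem_Icc]
    exact ⟨hP.2.1.natDegree_pos, hP.2.2⟩
  rw [← Finset.sum_fiberwise_of_maps_to hmaps]
  refine Finset.sum_le_sum fun d _ => ?_
  have h1 : ∑ P ∈ (Irr F m).filter (fun P => P.natDegree = d), h P.natDegree =
      ∑ P ∈ (Irr F m).filter (fun P => P.natDegree = d), h d := by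
    refine Finset.sum_congr rfl fun P hP => ?_
    rw [(Finset.mem_filter.1 hP).2]
  rw [h1, Finset.sum_const, nsmul_eq_mul]
  refine mul_le_mul_of_nonneg_right ?_ (hh d)
  have h2 : ((Irr F m).filter (fun P => P.natDegree = d)).card ≤ (Mon F d).card := by
    refine Finset.card_le_card fun P hP => ?_
    rw [Finset.mem_filter, mem_Irr] at hP
    exact mem_Mon.2 ⟨hP.1.1, hP.2⟩
  rw [card_Mon] at h2
  exact_mod_cast h2

lemma three_le (hF : ringChar F ≠ 2) : 3 ≤ Fintype.card F := by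
  have h1 : 1 < Fintype.card F := Fintype.one_lt_card
  have h2 : Fintype.card F ≠ 2 := by
    intro h
    apply hF
    rw [FiniteField.even_card_iff_char_two, h]
  omega

/-- bounds for the Euler factors -/
lemma EF_bounds (hF : ringChar F ≠ 2) {f : F[X]} (hf : Odd f.natDegree) {u : ℂ} {ρ : ℝ}
    (hu : √(Fintype.card F : ℝ) * ‖u‖ ≤ ρ) (hρ : ρ < 1) :
    (Real.exp (f.natDegree / (1 - ρ)))⁻¹ ≤ ‖EF f u‖ ∧
      ‖EF f u‖ ≤ Real.exp (f.natDegree / (1 - ρ)) := by
  have hρ1 : 0 < 1 - ρ := by linarith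
  have hd : (1 : ℝ) ≤ f.natDegree := by exact_mod_cast hf.pos
  have h1 : ‖LS (fun m => -(T f m : ℂ)) u‖ ≤ f.natDegree / (1 - ρ) := by
    have h2 := LS_norm (t := fun m => -(T f m : ℂ)) (C := f.natDegree - 1)
      (s := √(Fintype.card F : ℝ)) (Real.sqrt_nonneg _) (by linarith)
      (fun m hm => by rw [norm_neg]; exact T_le hF hf hm) hu hρ
    refine h2.trans ?_
    apply div_le_div_of_nonneg_right _ hρ1.le
    have h3 : √(Fintype.card F : ℝ) * ‖u‖ ≤ 1 := by linarith
    have h4 : 0 ≤ √(Fintype.card F : ℝ) * ‖u‖ := by positivity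
    nlinarith
  have h2 := Complex.abs_re_le_norm (LS (fun m => -(T f m : ℂ)) u)
  rw [abs_le] at h2
  unfold EF
  rw [Complex.norm_exp, ← Real.exp_neg]
  constructor
  · apply Real.exp_le_exp.2
    linarith [h2.1]
  · apply Real.exp_le_exp.2
    linarith [h2.2]

lemma EF_diff (hF : ringChar F ≠ 2) {f : F[X]} (hf : Odd f.natDegree) {u : ℂ}
    (hu : √(Fintype.card F : ℝ) * ‖u‖ < 1) : DifferentiableAt ℂ (EF f) u := by
  have hd : (1 : ℝ) ≤ f.natDegree := by exact_mod_cast hf.pos
  have hq : (0 : ℝ) < √(Fintype.card F : ℝ) := Real.sqrt_pos.2 (by exact_mod_cast Fintype.card_pos)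
  have h2 := LS_diff (t := fun m => -(T f m : ℂ)) (C := f.natDegree - 1)
      (s := √(Fintype.card F : ℝ)) hq (by linarith)
      (fun m hm => by rw [norm_neg]; exact T_le hF hf hm) hu
  exact h2.cexp

lemma norm_fmean_le {α : Type*} [Finite α] [Nonempty α] {g : α → ℂ} {β : ℝ}
    (h : ∀ t, ‖g t‖ ≤ β) : ‖fmean g‖ ≤ β := by
  haveI := Fintype.ofFinite α
  have hc : (0 : ℝ) < (Fintype.card α : ℝ) := by exact_mod_cast Fintype.card_pos
  rw [fmean_eq, norm_div, Complex.norm_natCast, div_le_iff₀ hc]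
  refine (norm_sum_le _ _).trans ((Finset.sum_le_sum fun t _ => h t).trans (le_of_eq ?_))
  rw [Finset.sum_const, Finset.card_univ, nsmul_eq_mul, mul_comm]

/-- the local model including the zeta factors -/
noncomputable def XiR (n : Fin r → ℤ) (m : ℕ) (t : Fin r → ℂ) (w : ℂ) : ℂ :=
  ∏ P ∈ Irr F m, ((1 / (Fintype.card F : ℂ) ^ P.natDegree +
    (1 - 1 / (Fintype.card F : ℂ) ^ P.natDegree) * SP n (xP t P.natDegree w)) *
      RP n (xP t P.natDegree w))

/-- the local mean times the zeta factors -/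
noncomputable def FH (F : Type) [Field F] [Fintype F] [DecidableEq F]
    (n : Fin r → ℤ) (m : ℕ) (t : Fin r → ℂ) (w : ℂ) : ℂ :=
  fmean (fun a : Fin m → F => ∏ k, EF (mkP m a) (w * t k) ^ n k) *
    ∏ p ∈ prs r, (1 - (Fintype.card F : ℂ) * ((w * t p.1) * (w * t p.2))) ^ ex n p

theorem FH_bigO (hF : ringChar F ≠ 2) (n : Fin r → ℤ) {m : ℕ} (hm : Odd m) (t : Fin r → ℂ) :
    (fun w => FH F n m t w - XiR (F := F) n m t w) =O[𝓝 0] fun w => w ^ (m + 1) := by
  classical
  have hm1 : (1 : ℝ) ≤ m := by exact_mod_cast hm.pos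
  have hq1 : (1 : ℝ) ≤ (Fintype.card F : ℝ) := by exact_mod_cast Fintype.card_pos
  -- the means
  have h1 : (fun w => fmean (fun a : Fin m → F => ∏ k, EF (mkP m a) (w * t k) ^ n k) -
      fmean (fun a : Fin m → F => ∏ P ∈ Irr F m, gP n (lam (mkP m a) P) (xP t P.natDegree w)))
      =O[𝓝 0] fun w => w ^ (m + 1) := by
    have h2 : (fun w => ∑ a : Fin m → F, (∏ k, EF (mkP m a) (w * t k) ^ n k -
        ∏ P ∈ Irr F m, gP n (lam (mkP m a) P) (xP t P.natDegree w))) =O[𝓝 0]
        fun w => w ^ (m + 1) := by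
      refine IsBigO.fun_sum fun a _ => ?_
      exact (prod_eqv n (mkP m a) (C := m - 1) (s := √(Fintype.card F : ℝ)) (by linarith)
        (Real.one_le_sqrt.2 hq1) (fun j hj => by
          have := T_le hF (f := mkP m a) (by rw [mkP_natDegree]; exact hm) hj
          rwa [mkP_natDegree] at this) m t).2.2
    have h3 := h2.const_mul_left ((Fintype.card (Fin m → F) : ℂ)⁻¹)
    refine h3.congr_left fun w => ?_
    rw [fmean_eq, fmean_eq, Finset.sum_sub_distrib]
    ring
  have h2 := mean_bigO hF n m t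
  have h3 : (fun w => fmean (fun a : Fin m → F => ∏ k, EF (mkP m a) (w * t k) ^ n k) -
      Xi (F := F) n m t w) =O[𝓝 0] fun w => w ^ (m + 1) := by
    refine (h1.add h2).congr_left fun w => ?_
    ring
  have h4 := zeta_eqv hF n m t
  have h5 : Tendsto (fun w => Xi (F := F) n m t w) (𝓝 0) (𝓝 1) := by
    unfold Xi
    have h6 : ∀ P ∈ Irr F m, Tendsto (fun w => (1 / (Fintype.card F : ℂ) ^ P.natDegree +
        (1 - 1 / (Fintype.card F : ℂ) ^ P.natDegree) * SP n (xP t P.natDegree w))) (𝓝 0)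
        (𝓝 1) := by
      intro P hP
      have h7 := SP_tendsto n t (d := P.natDegree) (mem_Irr.1 hP).2.1.natDegree_pos
      have h8 := (h7.const_mul (1 - 1 / (Fintype.card F : ℂ) ^ P.natDegree)).const_add
        (1 / (Fintype.card F : ℂ) ^ P.natDegree)
      have h9 : 1 / (Fintype.card F : ℂ) ^ P.natDegree +
        (1 - 1 / (Fintype.card F : ℂ) ^ P.natDegree) * 1 = 1 := by ring
      rw [h9] at h8
      exact h8
    have h7 := tendsto_finsetProd (Irr F m) h6
    rw [Finset.prod_const_one] at h7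
    exact h7
  have h6 := h3.mul (h4.1.isBigO_one ℂ)
  have h7 := h4.2.2.mul (h5.isBigO_one ℂ)
  simp only [mul_one] at h6 h7
  refine (h6.add h7).congr_left fun w => ?_
  unfold FH XiR
  rw [Finset.prod_mul_distrib]
  unfold Xi
  ring

end

lemma exp_sub_one_le {x B : ℝ} (hx : 0 ≤ x) (hB : x ≤ B) : Real.exp x - 1 ≤ x * Real.exp B := by
  have h1 := Real.add_one_le_exp (-x)
  have h2 : 0 < Real.exp x := Real.exp_pos x
  have h3 : Real.exp x * Real.exp (-x) = 1 := by rw [← Real.exp_add]; simp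
  have h4 : Real.exp x - 1 ≤ x * Real.exp x := by nlinarith
  have h5 : Real.exp x ≤ Real.exp B := Real.exp_le_exp.2 hB
  nlinarith

/-- **The local estimate** for all monic polynomials of odd degree `m`. -/
theorem hyper_local {r : ℕ} (n : Fin r → ℤ) {m : ℕ} (hm : Odd m) {ρ : ℝ} (hρ0 : 0 < ρ)
    (hρ1 : ρ < 1) :
    ∃ C : ℝ, 0 ≤ C ∧ ∀ (F : Type) [Field F] [Fintype F] [DecidableEq F], ringChar F ≠ 2 →
      ∀ κ : ℝ, 0 < κ → κ ≤ ρ ^ 2 → ∀ t : Fin r → ℂ,
        (∀ k, √(Fintype.card F : ℝ) * ‖t k‖ ≤ κ) →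
        ‖fmean (fun a : Fin m → F => ∏ k, EF (mkP m a) (t k) ^ n k) *
          ∏ p ∈ prs r, (1 - (Fintype.card F : ℂ) * (t p.1 * t p.2)) ^ ex n p - 1‖ ≤
          C * (κ ^ 2 / Fintype.card F + κ ^ (m + 1)) := by
  obtain ⟨C₀, hC₀, hest⟩ := est_P n (c₀ := 3 / 5) (c₁ := 4 / 5) (by norm_num) (by norm_num)
    (by norm_num)
  set E : ℝ := Real.exp (m / (1 - ρ)) with hE
  have hE1 : 1 ≤ E := Real.one_le_exp (by
    have : 0 < 1 - ρ := by linarith
    positivity)
  have hL := one_le_Lam ρ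
  set M₁ : ℝ := E ^ Nt n * Lam ρ ^ Np n with hM1
  set M₂ : ℝ := Real.exp (3 * C₀) with hM2
  have hM10 : 0 ≤ M₁ := by positivity
  have hM20 : 0 ≤ M₂ := by positivity
  have h1ρ : 0 < 1 - ρ := by linarith
  refine ⟨(M₁ + M₂) / (ρ ^ (m + 1) * (1 - ρ)) + 3 * C₀ * Real.exp (3 * C₀), by positivity, ?_⟩
  intro F _ _ _ hF κ hκ hκρ t ht
  set q : ℝ := (Fintype.card F : ℝ) with hq
  have hq3 : (3 : ℝ) ≤ q := by
    rw [hq]
    exact_mod_cast three_le hF
  have hq0 : 0 < q := by linarith
  have hsq0 : 0 < √q := Real.sqrt_pos.2 hq0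
  have hqc : ((Fintype.card F : ℕ) : ℂ) = ((q : ℝ) : ℂ) := by rw [hq]; push_cast; rfl
  set R : ℝ := ρ / κ with hR
  have hR0 : 0 < R := by positivity
  have hRi : 1 / R ≤ ρ := by
    rw [hR, one_div_div, div_le_iff₀ hρ0, ← sq]
    exact hκρ
  have hR1 : 1 < R := by
    have h1 : 1 / R < 1 := hRi.trans_lt hρ1
    rwa [div_lt_one hR0] at h1
  have hwt : ∀ w : ℂ, ‖w‖ ≤ R → ∀ k, √q * ‖w * t k‖ ≤ ρ := by
    intro w hw k
    rw [norm_mul]
    calc √q * (‖w‖ * ‖t k‖) = ‖w‖ * (√q * ‖t k‖) := by ring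
      _ ≤ R * κ := mul_le_mul hw (ht k) (by positivity) hR0.le
      _ = ρ := by rw [hR]; field_simp
  have hodd : ∀ a : Fin m → F, Odd (mkP m a).natDegree := fun a => by
    rw [mkP_natDegree]; exact hm
  -- bound of `FH`
  have hFb : ∀ w : ℂ, ‖w‖ ≤ R → ‖FH F n m t w‖ ≤ M₁ := by
    intro w hw
    unfold FH
    rw [norm_mul]
    refine mul_le_mul ?_ ?_ (norm_nonneg _) (by positivity)
    · refine norm_fmean_le fun a => ?_
      rw [norm_prod, Nt, ← Finset.prod_pow_eq_pow_sum]
      refine Finset.prod_le_prod (fun _ _ => norm_nonneg _) fun k _ => ?_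
      obtain ⟨b1, b2⟩ := EF_bounds hF (hodd a) (hwt w hw k) hρ1
      rw [mkP_natDegree] at b1 b2
      exact norm_zpow_le b1 b2 hE1 _
    · rw [norm_prod, Np, ← Finset.prod_pow_eq_pow_sum]
      refine Finset.prod_le_prod (fun _ _ => norm_nonneg _) fun p _ => ?_
      obtain ⟨b1, b2⟩ := pair_Lam hq0 (hwt w hw p.1) (hwt w hw p.2) hρ1
      rw [hqc]
      exact norm_zpow_le b1 b2 hL _
  -- bound of the model: general
  have hXi : ∀ (w : ℂ) (y : ℝ), 0 < y → y ^ 2 ≤ 1 → (∀ k, √q * ‖w * t k‖ ≤ y) →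
      ‖XiR (F := F) n m t w - 1‖ ≤ Real.exp (3 * C₀ * (y ^ 2 / q)) - 1 := by
    intro w y hy hy1 hwy
    have hy1' : y ≤ 1 := by nlinarith
    set b : ℝ := y / √q with hb
    have hb0 : 0 < b := by positivity
    have hb2 : b ^ 2 = y ^ 2 / q := by rw [hb, div_pow, Real.sq_sqrt hq0.le]
    have hb35 : b ≤ 3 / 5 := by
      have h1 : b ^ 2 ≤ 1 / 3 := by
        rw [hb2]
        calc y ^ 2 / q ≤ 1 / q := by gcongr
          _ ≤ 1 / 3 := by
            apply one_div_le_one_div_of_le (by norm_num) hq3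
      nlinarith
    have hb1 : b ≤ 1 := by linarith
    have hkb : ∀ k, ‖w * t k‖ ≤ b := by
      intro k
      rw [hb, le_div_iff₀ hsq0, mul_comm]
      exact hwy k
    -- pointwise
    have hpt : ∀ P ∈ Irr F m, ‖(1 / (Fintype.card F : ℂ) ^ P.natDegree +
        (1 - 1 / (Fintype.card F : ℂ) ^ P.natDegree) * SP n (xP t P.natDegree w)) *
        RP n (xP t P.natDegree w) - 1‖ ≤
        C₀ * (1 / q ^ P.natDegree * (b ^ P.natDegree) ^ 2 + (b ^ P.natDegree) ^ 4) := by
      intro P hP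
      have hd : 1 ≤ P.natDegree := (mem_Irr.1 hP).2.1.natDegree_pos
      have h1 := hest (xP t P.natDegree w) (b ^ P.natDegree) (by positivity) (by
        calc b ^ P.natDegree ≤ b := pow_le_of_le_one hb0.le hb1 (by omega)
          _ ≤ 3 / 5 := hb35) (fun k => by
          unfold xP
          rw [norm_pow]
          exact pow_le_pow_left₀ (norm_nonneg _) (hkb k) _) (1 / q ^ P.natDegree) (by positivity)
          (by
            rw [div_le_one (by positivity)]
            exact one_le_pow₀ (by linarith))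
      have h2 : (((1 / q ^ P.natDegree : ℝ)) : ℂ) = 1 / (Fintype.card F : ℂ) ^ P.natDegree := by
        push_cast
        rw [hqc]
      rw [h2] at h1
      exact h1
    have hsum : ∑ P ∈ Irr F m, C₀ * (1 / q ^ P.natDegree * (b ^ P.natDegree) ^ 2 +
        (b ^ P.natDegree) ^ 4) ≤ 3 * C₀ * (y ^ 2 / q) := by
      have h1 := sum_Irr_le (F := F) m (h := fun d => C₀ * (1 / q ^ d * (b ^ d) ^ 2 + (b ^ d) ^ 4))
        (fun d => by positivity)
      refine h1.trans ?_
      set z : ℝ := y ^ 2 / q with hz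
      have hz0 : 0 < z := by positivity
      have hz3 : z ≤ 1 / 3 := by
        calc y ^ 2 / q ≤ 1 / q := by gcongr
          _ ≤ 1 / 3 := one_div_le_one_div_of_le (by norm_num) hq3
      have h2 : ∀ d ∈ Icc 1 m, (Fintype.card F : ℝ) ^ d *
          (C₀ * (1 / q ^ d * (b ^ d) ^ 2 + (b ^ d) ^ 4)) ≤ 2 * C₀ * z ^ d := by
        intro d _
        rw [← hq]
        have e1 : (b ^ d) ^ 2 = z ^ d := by
          rw [← pow_mul, mul_comm d 2, pow_mul, hb2]
        have e2 : (b ^ d) ^ 4 = z ^ d * z ^ d := by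
          have : (b ^ d) ^ 4 = (b ^ d) ^ 2 * (b ^ d) ^ 2 := by ring
          rw [this, e1]
        rw [e1, e2]
        have e3 : q ^ d * (C₀ * (1 / q ^ d * z ^ d + z ^ d * z ^ d)) =
            C₀ * z ^ d * (1 + (q * z) ^ d) := by
          rw [mul_pow]
          field_simp
        rw [e3]
        have e4 : (q * z) ^ d ≤ 1 := by
          apply pow_le_one₀ (by positivity)
          rw [hz]
          have : q * (y ^ 2 / q) = y ^ 2 := by field_simp
          rw [this]
          exact hy1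
        have e5 : 0 ≤ C₀ * z ^ d := by positivity
        nlinarith
      refine (Finset.sum_le_sum h2).trans ?_
      rw [← Finset.mul_sum]
      have h3 : ∑ d ∈ Icc 1 m, z ^ d ≤ 3 / 2 * z := by
        have h4 : ∑ d ∈ Icc 1 m, z ^ d ≤ z / (1 - z) := by
          have h5 : HasSum (fun d : ℕ => z ^ (d + 1)) (z / (1 - z)) := by
            have := (hasSum_geometric_of_lt_one hz0.le (by linarith : z < 1)).mul_left z
            rw [← div_eq_mul_inv] at this
            refine this.congr_fun fun d => ?_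
            rw [pow_succ]
            ring
          have h6 : ∑ d ∈ Icc 1 m, z ^ d = ∑ d ∈ range m, z ^ (d + 1) := by
            rw [Finset.range_eq_Ico, Finset.sum_Ico_add' (fun d => z ^ d) 0 m 1]
            refine Finset.sum_congr ?_ fun _ _ => rfl
            ext d
            simp only [Finset.mem_Icc, Finset.mem_Ico]
            omega
          rw [h6, ← h5.tsum_eq]
          exact h5.summable.sum_le_tsum _ fun _ _ => by positivity
        refine h4.trans ?_
        rw [div_le_iff₀ (by linarith)]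
        nlinarith
      calc 2 * C₀ * ∑ d ∈ Icc 1 m, z ^ d ≤ 2 * C₀ * (3 / 2 * z) := by gcongr
        _ = 3 * C₀ * z := by ring
    unfold XiR
    have h1 := Finset.norm_prod_one_add_sub_one_le (Irr F m) (fun P =>
      (1 / (Fintype.card F : ℂ) ^ P.natDegree +
        (1 - 1 / (Fintype.card F : ℂ) ^ P.natDegree) * SP n (xP t P.natDegree w)) *
        RP n (xP t P.natDegree w) - 1)
    simp only [add_sub_cancel] at h1
    refine h1.trans ?_
    have h2 := (Finset.sum_le_sum hpt).trans hsum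
    have := Real.exp_le_exp.2 h2
    linarith
  have hqz : ∀ y : ℝ, 0 < y → y ^ 2 ≤ 1 → y ^ 2 / q ≤ 1 := by
    intro y hy hy1
    rw [div_le_one hq0]
    linarith
  have hρsq : ρ ^ 2 ≤ 1 := by nlinarith
  have hXb : ∀ w : ℂ, ‖w‖ ≤ R → ‖XiR (F := F) n m t w‖ ≤ M₂ := by
    intro w hw
    have h1 := hXi w ρ hρ0 hρsq (hwt w hw)
    have h2 : ‖XiR (F := F) n m t w‖ ≤ ‖XiR (F := F) n m t w - 1‖ + 1 := by
      calc ‖XiR (F := F) n m t w‖ = ‖(XiR (F := F) n m t w - 1) + 1‖ := by ring_nf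
        _ ≤ _ := by
          refine (norm_add_le _ _).trans ?_
          rw [norm_one]
    have h3 : Real.exp (3 * C₀ * (ρ ^ 2 / q)) ≤ Real.exp (3 * C₀) := by
      apply Real.exp_le_exp.2
      have := hqz ρ hρ0 hρsq
      have h4 : 0 ≤ 3 * C₀ := by positivity
      nlinarith
    rw [hM2]
    linarith
  -- holomorphy
  have hdiff : DiffContOnCl ℂ (fun w => FH F n m t w - XiR (F := F) n m t w)
      (Metric.ball 0 R) := by
    refine DifferentiableOn.diffContOnCl ?_
    rw [closure_ball _ hR0.ne']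
    intro w hw
    have hw' : ‖w‖ ≤ R := by simpa using hw
    apply DifferentiableAt.differentiableWithinAt
    have hkt : ∀ k, DifferentiableAt ℂ (fun w : ℂ => w * t k) w := fun k => by fun_prop
    have h1 : DifferentiableAt ℂ (fun w => FH F n m t w) w := by
      unfold FH
      refine DifferentiableAt.mul ?_ (DifferentiableAt.fun_finsetProd fun p _ => ?_)
      · have h2 : (fun w => fmean (fun a : Fin m → F => ∏ k, EF (mkP m a) (w * t k) ^ n k)) =
            fun w => (∑ a : Fin m → F, ∏ k, EF (mkP m a) (w * t k) ^ n k) /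
              (Fintype.card (Fin m → F) : ℂ) := by
          funext w
          rw [fmean_eq]
        rw [h2]
        refine DifferentiableAt.div_const (DifferentiableAt.fun_sum fun a _ => ?_) _
        refine DifferentiableAt.fun_finsetProd fun k _ => ?_
        have h3 : DifferentiableAt ℂ (EF (mkP m a) ∘ fun w : ℂ => w * t k) w :=
          DifferentiableAt.comp w (EF_diff hF (hodd a) ((hwt w hw' k).trans_lt hρ1)) (hkt k)
        exact h3.zpow (Or.inl (Complex.exp_ne_zero _))
      · have h2 : 1 - (Fintype.card F : ℂ) * ((w * t p.1) * (w * t p.2)) ≠ 0 := by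
          rw [hqc]
          exact ne_zero_of_bounds (pair_Lam hq0 (hwt w hw' p.1) (hwt w hw' p.2) hρ1).1
        have h3 : DifferentiableAt ℂ
            (fun w : ℂ => 1 - (Fintype.card F : ℂ) * ((w * t p.1) * (w * t p.2))) w := by fun_prop
        exact h3.zpow (Or.inl h2)
    have h2 : DifferentiableAt ℂ (fun w => XiR (F := F) n m t w) w := by
      unfold XiR
      refine DifferentiableAt.fun_finsetProd fun P hP => ?_
      have hd : 1 ≤ P.natDegree := (mem_Irr.1 hP).2.1.natDegree_pos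
      have hx : ∀ k, ‖xP t P.natDegree w k‖ ≤ 3 / 5 := by
        intro k
        unfold xP
        rw [norm_pow]
        have h4 : ‖w * t k‖ ≤ 3 / 5 := by
          have h5 := hwt w hw' k
          have h6 : (5 : ℝ) / 3 ≤ √q := by
            apply Real.le_sqrt_of_sq_le
            norm_num
            linarith
          have h7 : 0 ≤ ‖w * t k‖ := norm_nonneg _
          nlinarith
        calc ‖w * t k‖ ^ P.natDegree ≤ ‖w * t k‖ :=
              pow_le_of_le_one (norm_nonneg _) (h4.trans (by norm_num)) (by omega)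
          _ ≤ 3 / 5 := h4
      have hpow : ∀ k, DifferentiableAt ℂ (fun w : ℂ => (w * t k) ^ P.natDegree) w := fun k => by
        fun_prop
      have hg : ∀ σ : ℂ, ‖σ‖ ≤ 1 → DifferentiableAt ℂ
          (fun w => gP n σ (xP t P.natDegree w)) w := by
        intro σ hσ
        unfold gP xP
        refine DifferentiableAt.fun_finsetProd fun k _ => ?_
        have h3 : DifferentiableAt ℂ (fun w : ℂ => 1 - σ * (w * t k) ^ P.natDegree) w := by
          fun_prop
        refine h3.zpow (Or.inl (ne_zero_of_bounds (c := 3 / 5)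
          (lin_bounds (by norm_num) ?_).1))
        rw [norm_mul]
        calc ‖σ‖ * ‖(w * t k) ^ P.natDegree‖ ≤ 1 * ‖(w * t k) ^ P.natDegree‖ := by gcongr
          _ ≤ 3 / 5 := by rw [one_mul]; exact hx k
      have hS : DifferentiableAt ℂ (fun w => SP n (xP t P.natDegree w)) w := by
        unfold SP
        exact ((hg 1 (by simp)).add (hg (-1) (by simp))).div_const 2
      have hRd : DifferentiableAt ℂ (fun w => RP n (xP t P.natDegree w)) w := by
        unfold RP xP
        refine DifferentiableAt.fun_finsetProd fun p _ => ?_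
        have h3 : DifferentiableAt ℂ (fun w : ℂ =>
            1 - (w * t p.1) ^ P.natDegree * (w * t p.2) ^ P.natDegree) w := by
          fun_prop
        exact h3.zpow (Or.inl (ne_zero_of_bounds (c := 3 / 5)
          (lin_bounds (by norm_num) (prod_le_sq (hx p.1) (hx p.2) (by norm_num))).1))
      exact ((hS.const_mul _).const_add _).mul hRd
    exact h1.sub h2
  have hbd : ∀ z ∈ Metric.sphere (0 : ℂ) R,
      ‖FH F n m t z - XiR (F := F) n m t z‖ ≤ M₁ + M₂ := by
    intro z hz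
    have hz' : ‖z‖ ≤ R := le_of_eq (by simpa using hz)
    exact (norm_sub_le _ _).trans (add_le_add (hFb z hz') (hXb z hz'))
  have hO := FH_bigO hF n hm t
  have hmain := taylor_tail hR1 hdiff hbd (m + 1) fun j hj =>
    iteratedDeriv_of_isBigO hR0 hdiff hO hj
  have hF1 : FH F n m t 1 = fmean (fun a : Fin m → F => ∏ k, EF (mkP m a) (t k) ^ n k) *
          ∏ p ∈ prs r, (1 - (Fintype.card F : ℂ) * (t p.1 * t p.2)) ^ ex n p := by
    unfold FH
    simp only [one_mul]
  have hκ1 : κ ^ 2 ≤ 1 := by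
    have : κ ≤ 1 := by nlinarith
    nlinarith
  have hX1 := hXi 1 κ hκ hκ1 (fun k => by rw [one_mul]; exact ht k)
  have hX2 : Real.exp (3 * C₀ * (κ ^ 2 / q)) - 1 ≤
      3 * C₀ * (κ ^ 2 / q) * Real.exp (3 * C₀) := by
    refine exp_sub_one_le (by positivity) ?_
    have := hqz κ hκ hκ1
    have h4 : 0 ≤ 3 * C₀ := by positivity
    nlinarith
  have h2 : (M₁ + M₂) * (1 / R) ^ (m + 1) / (1 - 1 / R) ≤
      (M₁ + M₂) / (ρ ^ (m + 1) * (1 - ρ)) * κ ^ (m + 1) := by
    have h3 : (1 / R) ^ (m + 1) = κ ^ (m + 1) / ρ ^ (m + 1) := by rw [hR, one_div_div, div_pow]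
    rw [h3]
    calc (M₁ + M₂) * (κ ^ (m + 1) / ρ ^ (m + 1)) / (1 - 1 / R) ≤
          (M₁ + M₂) * (κ ^ (m + 1) / ρ ^ (m + 1)) / (1 - ρ) := by
          apply div_le_div_of_nonneg_left (by positivity) h1ρ
          linarith
      _ = _ := by field_simp
  rw [← hF1]
  have h3 : FH F n m t 1 - 1 = (FH F n m t 1 - XiR (F := F) n m t 1) +
      (XiR (F := F) n m t 1 - 1) := by ring
  rw [h3]
  refine (norm_add_le _ _).trans ?_
  have h4 := hmain.trans h2
  have h5 := hX1.trans hX2
  have a1 : 0 ≤ (M₁ + M₂) / (ρ ^ (m + 1) * (1 - ρ)) * (κ ^ 2 / q) := by positivity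
  have a2 : 0 ≤ 3 * C₀ * Real.exp (3 * C₀) * κ ^ (m + 1) := by positivity
  calc ‖FH F n m t 1 - XiR (F := F) n m t 1‖ + ‖XiR (F := F) n m t 1 - 1‖ ≤
        (M₁ + M₂) / (ρ ^ (m + 1) * (1 - ρ)) * κ ^ (m + 1) +
          3 * C₀ * (κ ^ 2 / q) * Real.exp (3 * C₀) := add_le_add h4 h5
    _ ≤ ((M₁ + M₂) / (ρ ^ (m + 1) * (1 - ρ)) + 3 * C₀ * Real.exp (3 * C₀)) *
        (κ ^ 2 / q + κ ^ (m + 1)) := by nlinarith

end Pool.Agent.T6.H9.HY
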