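import Pool.Agent.T6.H9.HY.Lim

/-!
# The local factors at the primes

Owner helper9.
-/

set_option autoImplicit false
set_option linter.unusedSectionVars false
set_option linter.style.haveILetI false
set_option linter.unusedVariables false

open Filter Topology Polynomial NumberField IsDedekindDomain

namespace Pool.Agent.T6.H9.HY

open Pool.Agent.T6.H9.MV Pool.Agent.H341R2.Sharp

section

variable {K : Type} [Field K] [NumberField K] {m r : ℕ}

lemma ringChar_kv {v : HeightOneSpectrum (𝓞 K)} (h2 : (2 : 𝓞 K) ∉ v.asIdeal) :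
    ringChar (kv v) ≠ 2 := by
  intro h
  apply h2
  rw [← Ideal.Quotient.eq_zero_iff_mem]
  have h1 : ((2 : ℕ) : kv v) = 0 := by
    rw [← h]
    exact ringChar.Nat.cast_ringChar
  have h3 : Ideal.Quotient.mk v.asIdeal 2 = ((2 : ℕ) : kv v) := map_natCast _ 2
  rw [h3]
  exact h1

open Classical in
/-- the local factor of one L-function -/
noncomputable def locH (v : HeightOneSpectrum (𝓞 K)) (t : Fin m → kv v) (s : ℂ) : ℂ :=
  if (2 : 𝓞 K) ∈ v.asIdeal then 1 else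
    if Squarefree (mkP m t) then EF (mkP m t) ((qv v : ℂ) ^ (-s)) else 1

/-- the product of powers of local factors -/
noncomputable def glH (m : ℕ) (n : Fin r → ℤ) (s : Fin r → ℂ) (v : HeightOneSpectrum (𝓞 K))
    (t : Fin m → kv v) : ℂ := ∏ k, locH v t (s k) ^ n k

/-- the correction factor -/
noncomputable def hlocH (m : ℕ) (n : Fin r → ℤ) (s : Fin r → ℂ) (v : HeightOneSpectrum (𝓞 K)) : ℂ :=
  fmean (glH m n s v) * Zl n s v

lemma glH_two (n : Fin r → ℤ) (s : Fin r → ℂ) {v : HeightOneSpectrum (𝓞 K)}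
    (h2 : (2 : 𝓞 K) ∈ v.asIdeal) (t : Fin m → kv v) : glH m n s v t = 1 := by
  unfold glH locH
  simp [h2]

lemma glH_eq (n : Fin r → ℤ) (s : Fin r → ℂ) {v : HeightOneSpectrum (𝓞 K)}
    (h2 : (2 : 𝓞 K) ∉ v.asIdeal) (t : Fin m → kv v) :
    glH m n s v t = WF (kv v) n m (fun k => (qv v : ℂ) ^ (-(s k))) t := by
  unfold glH locH WF
  by_cases h : Squarefree (mkP m t)
  · rw [if_pos h]
    refine Finset.prod_congr rfl fun k _ => ?_
    rw [if_neg h2, if_pos h]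
  · rw [if_neg h]
    refine Finset.prod_eq_one fun k _ => ?_
    rw [if_neg h2, if_neg h, one_zpow]

lemma finite_two : {v : HeightOneSpectrum (𝓞 K) | (2 : 𝓞 K) ∈ v.asIdeal}.Finite := by
  have h := Ideal.finite_factors (R := 𝓞 K) (I := Ideal.span {(2 : 𝓞 K)}) (by
    rw [Ne, Ideal.zero_eq_bot, Ideal.span_singleton_eq_bot]
    norm_num)
  refine h.subset fun v hv => ?_
  change v.asIdeal ∣ Ideal.span {(2 : 𝓞 K)}
  rw [Ideal.dvd_span_singleton]
  exact hv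

/-! ### sizes -/

/-- the edge of the region -/
noncomputable def cH (m : ℕ) : ℝ := 1 / 2 + 1 / ((m : ℝ) + 1)

/-- the auxiliary constant -/
noncomputable def rhoH (m : ℕ) : ℝ := (2 : ℝ) ^ (-(1 / (2 * ((m : ℝ) + 1))) : ℝ)

lemma rhoH_pos (m : ℕ) : 0 < rhoH m := by unfold rhoH; positivity
lemma rhoH_lt_one (m : ℕ) : rhoH m < 1 :=
  Real.rpow_lt_one_of_one_lt_of_neg (by norm_num) (by
    have : (0 : ℝ) < 1 / (2 * ((m : ℝ) + 1)) := by positivity
    linarith)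
lemma rhoH_sq (m : ℕ) : rhoH m ^ 2 = (2 : ℝ) ^ (1 / 2 - cH m) := by
  unfold rhoH cH
  rw [← Real.rpow_natCast, ← Real.rpow_mul (by norm_num)]
  congr 1
  push_cast
  field_simp
  ring

lemma qv_one_le (v : HeightOneSpectrum (𝓞 K)) : (1 : ℝ) ≤ qv v := by
  exact_mod_cast (by have := two_le_qv v; omega : 1 ≤ qv v)

lemma cH_half (m : ℕ) : 1 / 2 < cH m := by
  unfold cH
  have : (0 : ℝ) < 1 / ((m : ℝ) + 1) := by positivity
  linarith

lemma cH_le (m : ℕ) (hm : 1 ≤ m) : cH m ≤ 1 := by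
  unfold cH
  have h1 : (1 : ℝ) ≤ m := by exact_mod_cast hm
  have : 1 / ((m : ℝ) + 1) ≤ 1 / 2 := one_div_le_one_div_of_le (by norm_num) (by linarith)
  linarith

lemma kap_le (v : HeightOneSpectrum (𝓞 K)) {s : ℂ} {σ : ℝ} (hs : σ ≤ s.re) :
    √(qv v : ℝ) * ‖(qv v : ℂ) ^ (-s)‖ ≤ (qv v : ℝ) ^ (1 / 2 - σ) := by
  rw [sqrt_norm]
  exact Real.rpow_le_rpow_of_exponent_le (qv_one_le v) (by linarith)

lemma kap_rho (v : HeightOneSpectrum (𝓞 K)) {σ : ℝ} (hσ : cH m ≤ σ) :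
    (qv v : ℝ) ^ (1 / 2 - σ) ≤ rhoH m ^ 2 := by
  rw [rhoH_sq]
  have h1 := cH_half m
  calc (qv v : ℝ) ^ (1 / 2 - σ) ≤ (qv v : ℝ) ^ (1 / 2 - cH m) :=
        Real.rpow_le_rpow_of_exponent_le (qv_one_le v) (by linarith)
    _ ≤ (2 : ℝ) ^ (1 / 2 - cH m) := rpow_le_two v (by linarith)

lemma rho_sq_le (m : ℕ) : rhoH m ^ 2 ≤ rhoH m := by
  have h1 := rhoH_pos m
  have h2 := rhoH_lt_one m
  nlinarith

lemma ZlH_bounds (v : HeightOneSpectrum (𝓞 K)) {s s' : ℂ} (hs : cH m ≤ s.re)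
    (hs' : cH m ≤ s'.re) :
    (Lam (rhoH m))⁻¹ ≤ ‖1 - (qv v : ℂ) ^ (-(s + s' - 1))‖ ∧
      ‖1 - (qv v : ℂ) ^ (-(s + s' - 1))‖ ≤ Lam (rhoH m) := by
  rw [← cpow_two v s s']
  have hk : ∀ {z : ℂ}, cH m ≤ z.re → √(qv v : ℝ) * ‖(qv v : ℂ) ^ (-z)‖ ≤ rhoH m := by
    intro z hz
    exact ((kap_le v hz).trans (kap_rho v le_rfl)).trans (rho_sq_le m)
  have := pair_Lam (q := (qv v : ℝ)) (T := (qv v : ℂ) ^ (-s)) (T' := (qv v : ℂ) ^ (-s'))
    (qv_pos v) (hk hs) (hk hs') (rhoH_lt_one m)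
  simpa using this

lemma ZlH_ne_zero (v : HeightOneSpectrum (𝓞 K)) {s s' : ℂ} (hs : cH m ≤ s.re)
    (hs' : cH m ≤ s'.re) : 1 - (qv v : ℂ) ^ (-(s + s' - 1)) ≠ 0 := by
  have h := (ZlH_bounds v hs hs').1
  have hL := one_le_Lam (rhoH m)
  exact norm_pos_iff.1 (lt_of_lt_of_le (by positivity) h)

lemma norm_ZlH_le (n : Fin r → ℤ) (v : HeightOneSpectrum (𝓞 K)) {s : Fin r → ℂ}
    (hs : ∀ k, cH m ≤ (s k).re) : ‖Zl n s v‖ ≤ Lam (rhoH m) ^ Np n := by
  unfold Zl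
  rw [norm_prod, Np, ← Finset.prod_pow_eq_pow_sum]
  refine Finset.prod_le_prod (fun _ _ => norm_nonneg _) fun p _ => ?_
  obtain ⟨b1, b2⟩ := ZlH_bounds v (hs p.1) (hs p.2)
  exact norm_zpow_le b1 b2 (one_le_Lam _) _

lemma Zl_ne_zeroH (n : Fin r → ℤ) (v : HeightOneSpectrum (𝓞 K)) {s : Fin r → ℂ}
    (hs : ∀ k, cH m ≤ (s k).re) : Zl n s v ≠ 0 := by
  unfold Zl
  refine Finset.prod_ne_zero_iff.2 fun p _ => zpow_ne_zero _ ?_
  exact ZlH_ne_zero v (hs p.1) (hs p.2)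

/-- **The estimates at all primes.** -/
theorem boundsH (hm : Odd m) (n : Fin r → ℤ) : ∃ C : ℝ, 0 ≤ C ∧
    ∀ (v : HeightOneSpectrum (𝓞 K)) (σ : ℝ) (s : Fin r → ℂ), (2 : 𝓞 K) ∉ v.asIdeal → cH m ≤ σ →
      (∀ k, σ ≤ (s k).re) →
      (∀ t : Fin m → kv v, ‖glH m n s v t - 1‖ ≤ C * (qv v : ℝ) ^ (1 / 2 - σ)) ∧
      ‖hlocH m n s v - 1‖ ≤ C * ((qv v : ℝ) ^ (-(1 / 2 + σ)) +
        (qv v : ℝ) ^ (-((σ - 1 / 2) * ((m : ℝ) + 1)))) := by
  obtain ⟨C, hC, h⟩ := hyper_sqf n hm (rhoH_pos m) (rhoH_lt_one m)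
  refine ⟨C, hC, fun v σ s h2 hσ hs => ?_⟩
  have hq0 := qv_pos v
  set κ : ℝ := (qv v : ℝ) ^ (1 / 2 - σ) with hκ
  have hκ0 : 0 < κ := by positivity
  have h1 := h (kv v) (ringChar_kv h2) κ hκ0 (kap_rho v hσ) (fun k => (qv v : ℂ) ^ (-(s k)))
    (fun k => by
      rw [card_kv']
      exact kap_le v (hs k))
  obtain ⟨h3, h4⟩ := h1
  constructor
  · intro t
    rw [glH_eq n s h2 t]
    exact h3 t
  · have e0 : glH m n s v = WF (kv v) n m (fun k => (qv v : ℂ) ^ (-(s k))) :=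
      funext fun t => glH_eq n s h2 t
    have e1 : hlocH m n s v = fmean (WF (kv v) n m (fun k => (qv v : ℂ) ^ (-(s k)))) *
        ∏ p ∈ prs r, (1 - (Fintype.card (kv v) : ℂ) *
          ((qv v : ℂ) ^ (-(s p.1)) * (qv v : ℂ) ^ (-(s p.2)))) ^ ex n p := by
      unfold hlocH Zl
      rw [e0]
      congr 1
      refine Finset.prod_congr rfl fun p _ => ?_
      rw [card_kv', ← cpow_two v (s p.1) (s p.2)]
    rw [e1]
    refine h4.trans (le_of_eq ?_)
    rw [card_kv']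
    have e2 : κ / (qv v : ℝ) = (qv v : ℝ) ^ (-(1 / 2 + σ)) := by
      rw [hκ]
      nth_rewrite 2 [← Real.rpow_one (qv v : ℝ)]
      rw [← Real.rpow_sub hq0]
      congr 1
      ring
    have e3 : κ ^ (m + 1) = (qv v : ℝ) ^ (-((σ - 1 / 2) * ((m : ℝ) + 1))) := by
      rw [hκ, ← Real.rpow_natCast, ← Real.rpow_mul hq0.le]
      congr 1
      push_cast
      ring
    rw [e2, e3]

open Classical in
/-- **Uniform estimate** of the correction factors. -/
theorem hlocH_bound (hm : Odd m) (n : Fin r → ℤ) {δ : ℝ} (hδ : 0 < δ) :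
    ∃ β : HeightOneSpectrum (𝓞 K) → ℝ, Summable β ∧
      ∀ s : Fin r → ℂ, (∀ k, cH m + δ < (s k).re) → ∀ v, ‖hlocH m n s v - 1‖ ≤ β v := by
  obtain ⟨C, hC, hb⟩ := boundsH (K := K) hm n
  set σ : ℝ := cH m + δ with hσ
  have hc := cH_half m
  have hm1 : (0 : ℝ) < (m : ℝ) + 1 := by positivity
  have hx1 : 1 < 1 / 2 + σ := by linarith
  have hx2 : 1 < (σ - 1 / 2) * ((m : ℝ) + 1) := by
    have : (σ - 1 / 2) * ((m : ℝ) + 1) = 1 + δ * ((m : ℝ) + 1) := by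
      rw [hσ]
      unfold cH
      field_simp
      ring
    rw [this]
    have : 0 < δ * ((m : ℝ) + 1) := by positivity
    linarith
  set M : ℝ := Lam (rhoH m) ^ Np n + 1 with hM
  have hL := one_le_Lam (rhoH m)
  have hM0 : 0 ≤ M := by positivity
  refine ⟨fun v => C * ((qv v : ℝ) ^ (-(1 / 2 + σ)) +
        (qv v : ℝ) ^ (-((σ - 1 / 2) * ((m : ℝ) + 1)))) +
        (if (2 : 𝓞 K) ∈ v.asIdeal then M else 0), ?_, ?_⟩
  · refine Summable.add (((summable_qv hx1).add (summable_qv hx2)).mul_left C) ?_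
    refine summable_of_hasFiniteSupport (finite_two (K := K) |>.subset fun v hv => ?_)
    rw [Function.mem_support] at hv
    by_contra h
    exact hv (if_neg h)
  · intro s hs v
    have hq0 := qv_pos v
    beta_reduce
    by_cases h2 : (2 : 𝓞 K) ∈ v.asIdeal
    · rw [if_pos h2]
      have h1 : fmean (glH m n s v) = 1 := by
        have : glH m n s v = fun _ => 1 := funext fun t => glH_two n s h2 t
        rw [this, fmean_one]
      have h3 : ‖hlocH m n s v - 1‖ ≤ M := by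
        unfold hlocH
        rw [h1, one_mul]
        refine (norm_sub_le _ _).trans ?_
        rw [norm_one]
        exact add_le_add (norm_ZlH_le (m := m) n v fun k => by linarith [hs k]) le_rfl
      have h4 : 0 ≤ C * ((qv v : ℝ) ^ (-(1 / 2 + σ)) +
        (qv v : ℝ) ^ (-((σ - 1 / 2) * ((m : ℝ) + 1)))) := by positivity
      linarith
    · rw [if_neg h2, add_zero]
      exact (hb v σ s h2 (by linarith) fun k => (hs k).le).2

/-- the bound for the local functions in the region of convergence -/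
theorem glH_bound (hm : Odd m) (n : Fin r → ℤ) {s : Fin r → ℂ} (hs : s ∈ Om r (3 / 2)) :
    ∃ β : HeightOneSpectrum (𝓞 K) → ℝ, Summable β ∧
      ∀ v (t : Fin m → kv v), ‖glH m n s v t - 1‖ ≤ β v := by
  obtain ⟨C, hC, hb⟩ := boundsH (K := K) hm n
  obtain ⟨σ, hσ, hsσ⟩ := exists_sigma hs
  refine ⟨fun v => C * (qv v : ℝ) ^ (1 / 2 - σ), ?_, fun v t => ?_⟩
  · have h1 := summable_qv (K := K) (x := σ - 1 / 2) (by linarith)
    refine (h1.mul_left C).congr fun v => ?_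
    have : -(σ - 1 / 2) = 1 / 2 - σ := by ring
    rw [this]
  · by_cases h2 : (2 : 𝓞 K) ∈ v.asIdeal
    · rw [glH_two n s h2, sub_self, norm_zero]
      positivity
    · have hc := cH_le m hm.pos
      exact (hb v σ s h2 (by linarith) hsσ).1 t

end

end Pool.Agent.T6.H9.HY
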