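import Pool.Agent.T6.H9.HY.LocalFin
import Pool.Agent.T6.H9.MV.Local

/-!
# The squarefree condition

Owner helper9.
-/

set_option autoImplicit false
set_option linter.unusedSectionVars false
set_option linter.style.haveILetI false
set_option linter.unusedVariables false

open Filter Topology Asymptotics Finset Polynomial

namespace Pool.Agent.T6.H9.HY

open Pool.Agent.T6.H9.MV Pool.Agent.H341R2.Sharp

section

variable {F : Type} [Field F]

lemma mkP_inj (d : ℕ) : Function.Injective (mkP (F := F) d) := by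
  intro a b hab
  unfold mkP at hab
  have h2 := add_left_cancel hab
  funext i
  have h3 := congrArg (fun p : F[X] => p.coeff i) h2
  simp only [lowP_apply, finsetSum_coeff, coeff_C_mul, coeff_X_pow] at h3
  have h4 : ∀ c : Fin d → F, ∑ j : Fin d, c j * (if (i : ℕ) = (j : ℕ) then (1 : F) else 0) = c i := by
    intro c
    rw [Finset.sum_eq_single i]
    · simp
    · intro j _ hji
      rw [if_neg (fun h => hji (Fin.ext h.symm)), mul_zero]
    · intro h
      exact absurd (Finset.mem_univ i) h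
  rw [h4, h4] at h3
  exact h3

/-- a monic polynomial which is not squarefree is divisible by the square of a monic polynomial -/
lemma exists_sq_monic {f : F[X]} (hf : f.Monic) (hs : ¬ Squarefree f) :
    ∃ g h : F[X], g.Monic ∧ h.Monic ∧ 1 ≤ g.natDegree ∧ g ^ 2 * h = f := by
  unfold Squarefree at hs
  push Not at hs
  obtain ⟨x, ⟨y, hxy⟩, hx⟩ := hs
  have hf0 := hf.ne_zero
  have hx0 : x ≠ 0 := by
    rintro rfl
    apply hf0
    rw [hxy]
    ring
  have hl : x.leadingCoeff ≠ 0 := leadingCoeff_ne_zero.2 hx0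
  have hg : (x * C x.leadingCoeff⁻¹).Monic := monic_mul_leadingCoeff_inv hx0
  have hCC : C x.leadingCoeff⁻¹ * C x.leadingCoeff = (1 : F[X]) := by
    rw [← C_mul, inv_mul_cancel₀ hl, C_1]
  have he : (x * C x.leadingCoeff⁻¹) ^ 2 * ((C x.leadingCoeff) ^ 2 * y) = f := by
    calc (x * C x.leadingCoeff⁻¹) ^ 2 * ((C x.leadingCoeff) ^ 2 * y) =
        x * x * (C x.leadingCoeff⁻¹ * C x.leadingCoeff) ^ 2 * y := by ring
      _ = f := by rw [hCC, hxy]; ring
  refine ⟨x * C x.leadingCoeff⁻¹, (C x.leadingCoeff) ^ 2 * y, hg, ?_, ?_, he⟩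
  · refine Monic.of_mul_monic_left (hg.pow 2) ?_
    rw [he]
    exact hf
  · by_contra hlt
    have h0 : (x * C x.leadingCoeff⁻¹).natDegree = 0 := by omega
    have h1 := hg.natDegree_eq_zero.1 h0
    exact hx (IsUnit.of_mul_eq_one _ h1)

end

section

variable {F : Type} [Field F] [Fintype F] [DecidableEq F] {r : ℕ}

open Classical in
/-- the number of monic polynomials which are not squarefree -/
lemma card_nonsqf {m : ℕ} (hm : 1 ≤ m) :
    ((Mon F m).filter fun f => ¬ Squarefree f).card ≤ 2 * Fintype.card F ^ (m - 1) := by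
  set q := Fintype.card F with hq
  have hq2 : 2 ≤ q := Fintype.one_lt_card
  set I := (Icc 1 m).filter (fun d => 2 * d ≤ m) with hI
  have hsub : ((Mon F m).filter fun f => ¬ Squarefree f) ⊆
      I.biUnion fun d => (Mon F d ×ˢ Mon F (m - 2 * d)).image fun p => p.1 ^ 2 * p.2 := by
    intro f hf
    rw [Finset.mem_filter, mem_Mon] at hf
    obtain ⟨g, h, hg, hh, hd, he⟩ := exists_sq_monic hf.1.1 hf.2
    have hdeg : 2 * g.natDegree + h.natDegree = m := by
      rw [← hf.1.2, ← he, (hg.pow 2).natDegree_mul hh, hg.natDegree_pow]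
    rw [Finset.mem_biUnion]
    refine ⟨g.natDegree, ?_, ?_⟩
    · rw [hI, Finset.mem_filter, Finset.mem_Icc]
      omega
    · rw [Finset.mem_image]
      refine ⟨(g, h), ?_, he⟩
      rw [Finset.mem_product, mem_Mon, mem_Mon]
      exact ⟨⟨hg, rfl⟩, hh, by change h.natDegree = _; omega⟩
  have h1 : ((Mon F m).filter fun f => ¬ Squarefree f).card ≤ ∑ d ∈ I, q ^ (m - d) := by
    refine (Finset.card_le_card hsub).trans (Finset.card_biUnion_le.trans ?_)
    refine Finset.sum_le_sum fun d hd => ?_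
    rw [hI, Finset.mem_filter, Finset.mem_Icc] at hd
    refine Finset.card_image_le.trans (le_of_eq ?_)
    rw [Finset.card_product, card_Mon, card_Mon, ← pow_add]
    congr 1
    omega
  refine h1.trans ?_
  have h2 : ∑ d ∈ I, q ^ (m - d) ≤ q ^ (m - 1) + ∑ d ∈ I.erase 1, q ^ (m - d) := by
    by_cases h : 1 ∈ I
    · rw [← Finset.add_sum_erase I (fun d => q ^ (m - d)) h]
    · rw [Finset.erase_eq_of_notMem h]
      omega
  refine h2.trans ?_
  have h3 : ∑ d ∈ I.erase 1, q ^ (m - d) < q ^ (m - 1) := by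
    have hinj : Set.InjOn (fun d => m - d) (I.erase 1 : Finset ℕ) := by
      intro a ha b hb hab
      rw [Finset.mem_coe, Finset.mem_erase, hI, Finset.mem_filter, Finset.mem_Icc] at ha hb
      simp only at hab
      omega
    have h4 : ∑ d ∈ I.erase 1, q ^ (m - d) = ∑ k ∈ (I.erase 1).image (fun d => m - d), q ^ k := by
      rw [Finset.sum_image hinj]
    rw [h4]
    refine Nat.geomSum_lt hq2 fun k hk => ?_
    rw [Finset.mem_image] at hk
    obtain ⟨d, hd, rfl⟩ := hk
    rw [Finset.mem_erase, hI, Finset.mem_filter, Finset.mem_Icc] at hd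
    omega
  omega

open Classical in
/-- the indicator of the polynomials which are not squarefree -/
noncomputable def nsq (F : Type) [Field F] (m : ℕ) (a : Fin m → F) : ℝ :=
  if Squarefree (mkP m a) then 0 else 1

lemma nsq_sum {m : ℕ} (hm : 1 ≤ m) :
    (∑ a : Fin m → F, nsq F m a) ≤ 2 / (Fintype.card F : ℝ) * (Fintype.card (Fin m → F) : ℝ) := by
  classical
  have hq0 : (0 : ℝ) < Fintype.card F := by exact_mod_cast Fintype.card_pos
  have h1 : (∑ a : Fin m → F, nsq F m a) =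
      ((Finset.univ.filter fun a : Fin m → F => ¬ Squarefree (mkP m a)).card : ℝ) := by
    unfold nsq
    rw [Finset.card_filter]
    push_cast
    refine Finset.sum_congr rfl fun a _ => ?_
    split_ifs <;> simp_all
  have h2 : (Finset.univ.filter fun a : Fin m → F => ¬ Squarefree (mkP m a)).card ≤
      ((Mon F m).filter fun f => ¬ Squarefree f).card := by
    refine Finset.card_le_card_of_injOn (mkP m) ?_ ((mkP_inj m).injOn)
    intro a ha
    rw [Finset.mem_coe, Finset.mem_filter] at ha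
    rw [Finset.mem_coe, Finset.mem_filter, mem_Mon]
    exact ⟨⟨mkP_monic m a, mkP_natDegree m a⟩, ha.2⟩
  have h3 := h2.trans (card_nonsqf hm)
  have h4 : ((Finset.univ.filter fun a : Fin m → F => ¬ Squarefree (mkP m a)).card : ℝ) ≤
      2 * (Fintype.card F : ℝ) ^ (m - 1) := by
    have h5 : (Finset.univ.filter fun a : Fin m → F => ¬ Squarefree (mkP m a)).card ≤
      2 * Fintype.card F ^ (m - 1) := h3
    exact_mod_cast h5
  rw [h1]
  refine h4.trans (le_of_eq ?_)
  rw [Fintype.card_fun, Fintype.card_fin]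
  push_cast
  obtain ⟨k, rfl⟩ : ∃ k, m = k + 1 := ⟨m - 1, by omega⟩
  rw [Nat.add_sub_cancel, pow_succ]
  field_simp

lemma nsq_nonneg (m : ℕ) (a : Fin m → F) : 0 ≤ nsq F m a := by
  unfold nsq
  split_ifs <;> norm_num

lemma norm_fmean_le_nsq {m : ℕ} (hm : 1 ≤ m) {g : (Fin m → F) → ℂ} {β : ℝ} (hβ : 0 ≤ β)
    (h : ∀ a, ‖g a‖ ≤ nsq F m a * β) : ‖fmean g‖ ≤ 2 / (Fintype.card F : ℝ) * β := by
  have hc : (0 : ℝ) < (Fintype.card (Fin m → F) : ℝ) := by exact_mod_cast Fintype.card_pos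
  rw [fmean_eq, norm_div, Complex.norm_natCast, div_le_iff₀ hc]
  refine (norm_sum_le _ _).trans ((Finset.sum_le_sum fun a _ => h a).trans ?_)
  rw [← Finset.sum_mul]
  calc (∑ a : Fin m → F, nsq F m a) * β ≤
      (2 / (Fintype.card F : ℝ) * (Fintype.card (Fin m → F) : ℝ)) * β :=
        mul_le_mul_of_nonneg_right (nsq_sum hm) hβ
    _ = _ := by ring

open Classical in
/-- the local weights: the Euler factor is omitted if the polynomial is not squarefree -/
noncomputable def WF (F : Type) [Field F] [Fintype F] [DecidableEq F] (n : Fin r → ℤ) (m : ℕ)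
    (t : Fin r → ℂ) (a : Fin m → F) : ℂ :=
  if Squarefree (mkP m a) then ∏ k, EF (mkP m a) (t k) ^ n k else 1

lemma EF_sub_one (hF : ringChar F ≠ 2) {f : F[X]} (hf : Odd f.natDegree) {u : ℂ} {κ ρ : ℝ}
    (hu : √(Fintype.card F : ℝ) * ‖u‖ ≤ κ) (hκρ : κ ≤ ρ) (hρ : ρ < 1) :
    ‖EF f u - 1‖ ≤ f.natDegree / (1 - ρ) * Real.exp (f.natDegree / (1 - ρ)) * κ := by
  have hρ1 : 0 < 1 - ρ := by linarith
  have hd : (1 : ℝ) ≤ f.natDegree := by exact_mod_cast hf.pos
  have h0 : 0 ≤ √(Fintype.card F : ℝ) * ‖u‖ := by positivity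
  have hκ0 : 0 ≤ κ := h0.trans hu
  have h2 := LS_norm (t := fun m => -(T f m : ℂ)) (C := f.natDegree - 1)
      (s := √(Fintype.card F : ℝ)) (Real.sqrt_nonneg _) (by linarith)
      (fun m hm => by rw [norm_neg]; exact T_le hF hf hm) (hu.trans hκρ) hρ
  have h1 : ‖LS (fun m => -(T f m : ℂ)) u‖ ≤ f.natDegree / (1 - ρ) * κ := by
    refine h2.trans ?_
    rw [div_mul_eq_mul_div]
    apply div_le_div_of_nonneg_right _ hρ1.le
    nlinarith
  have h3 : ‖LS (fun m => -(T f m : ℂ)) u‖ ≤ f.natDegree / (1 - ρ) := by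
    refine h1.trans ?_
    have : 0 ≤ (f.natDegree : ℝ) / (1 - ρ) := by positivity
    nlinarith
  unfold EF
  have h4 : ‖Complex.exp (LS (fun m => -(T f m : ℂ)) u) - 1‖ ≤
      Real.exp ‖LS (fun m => -(T f m : ℂ)) u‖ - 1 := by
    have := Complex.norm_exp_sub_sum_le_exp_norm_sub_sum (LS (fun m => -(T f m : ℂ)) u) 1
    simpa using this
  refine h4.trans ((exp_sub_one_le (norm_nonneg _) h3).trans ?_)
  calc ‖LS (fun m => -(T f m : ℂ)) u‖ * Real.exp (f.natDegree / (1 - ρ)) ≤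
      (f.natDegree / (1 - ρ) * κ) * Real.exp (f.natDegree / (1 - ρ)) := by gcongr
    _ = _ := by ring

end

/-- **The local estimate** with the squarefree condition. -/
theorem hyper_sqf {r : ℕ} (n : Fin r → ℤ) {m : ℕ} (hm : Odd m) {ρ : ℝ} (hρ0 : 0 < ρ)
    (hρ1 : ρ < 1) :
    ∃ C : ℝ, 0 ≤ C ∧ ∀ (F : Type) [Field F] [Fintype F] [DecidableEq F], ringChar F ≠ 2 →
      ∀ κ : ℝ, 0 < κ → κ ≤ ρ ^ 2 → ∀ t : Fin r → ℂ,
        (∀ k, √(Fintype.card F : ℝ) * ‖t k‖ ≤ κ) →
        (∀ a, ‖WF F n m t a - 1‖ ≤ C * κ) ∧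
        ‖fmean (WF F n m t) *
          ∏ p ∈ prs r, (1 - (Fintype.card F : ℂ) * (t p.1 * t p.2)) ^ ex n p - 1‖ ≤
          C * (κ / Fintype.card F + κ ^ (m + 1)) := by
  obtain ⟨C₁, hC₁, h1⟩ := hyper_local n hm hρ0 hρ1
  have h1ρ : 0 < 1 - ρ := by linarith
  have hρ2 : ρ ^ 2 ≤ ρ := by nlinarith
  set E : ℝ := Real.exp (m / (1 - ρ)) with hE
  have hE1 : 1 ≤ E := Real.one_le_exp (by positivity)
  obtain ⟨C₂, hC₂, h2⟩ := exists_prod_zpow_bound n hE1
  have hL := one_le_Lam ρ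
  set C₃ : ℝ := C₂ * (m / (1 - ρ) * E) with hC3
  have hC₃ : 0 ≤ C₃ := by positivity
  refine ⟨C₁ + C₃ + 2 * C₃ * Lam ρ ^ Np n, by positivity, ?_⟩
  intro F _ _ _ hF κ hκ hκρ t ht
  have hq0 : (0 : ℝ) < Fintype.card F := by exact_mod_cast Fintype.card_pos
  have hodd : ∀ a : Fin m → F, Odd (mkP m a).natDegree := fun a => by
    rw [mkP_natDegree]; exact hm
  have hP : ∀ a : Fin m → F, ‖∏ k, EF (mkP m a) (t k) ^ n k - 1‖ ≤ C₃ * κ := by
    intro a
    have h3 := h2 (fun k => EF (mkP m a) (t k)) (m / (1 - ρ) * E * κ) (by positivity) fun k => by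
      have hk := ht k
      obtain ⟨b1, b2⟩ := EF_bounds hF (hodd a) (hk.trans (hκρ.trans hρ2)) hρ1
      have b3 := EF_sub_one hF (hodd a) hk (hκρ.trans hρ2) hρ1
      rw [mkP_natDegree] at b1 b2 b3
      exact ⟨b1, b2, b3⟩
    refine h3.trans (le_of_eq ?_)
    rw [hC3]
    ring
  have hW : ∀ a : Fin m → F, ‖WF F n m t a - 1‖ ≤ C₃ * κ := by
    intro a
    unfold WF
    split_ifs
    · exact hP a
    · rw [sub_self, norm_zero]
      positivity
  constructor
  · intro a
    refine (hW a).trans ?_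
    have : 0 ≤ (C₁ + 2 * C₃ * Lam ρ ^ Np n) * κ := by positivity
    nlinarith
  · have h3 := h1 F hF κ hκ hκρ t ht
    have h4 : fmean (WF F n m t) = fmean (fun a : Fin m → F => ∏ k, EF (mkP m a) (t k) ^ n k) -
        fmean (fun a : Fin m → F => ∏ k, EF (mkP m a) (t k) ^ n k - WF F n m t a) := by
      rw [fmean_sub]
      ring
    have h5 : ‖fmean (fun a : Fin m → F => ∏ k, EF (mkP m a) (t k) ^ n k - WF F n m t a)‖ ≤
        2 / (Fintype.card F : ℝ) * (C₃ * κ) := by
      refine norm_fmean_le_nsq hm.pos (by positivity) fun a => ?_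
      unfold WF nsq
      split_ifs with h
      · rw [sub_self, norm_zero, zero_mul]
      · rw [one_mul]
        exact hP a
    have h6 : ‖∏ p ∈ prs r, (1 - (Fintype.card F : ℂ) * (t p.1 * t p.2)) ^ ex n p‖ ≤
        Lam ρ ^ Np n := by
      rw [norm_prod, Np, ← Finset.prod_pow_eq_pow_sum]
      refine Finset.prod_le_prod (fun _ _ => norm_nonneg _) fun p _ => ?_
      obtain ⟨b1, b2⟩ := pair_Lam hq0 ((ht p.1).trans (hκρ.trans hρ2))
        ((ht p.2).trans (hκρ.trans hρ2)) hρ1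
      have hqc : ((Fintype.card F : ℕ) : ℂ) = (((Fintype.card F : ℕ) : ℝ) : ℂ) := by
        push_cast; rfl
      rw [hqc]
      exact norm_zpow_le b1 b2 hL _
    set Z : ℂ := ∏ p ∈ prs r, (1 - (Fintype.card F : ℂ) * (t p.1 * t p.2)) ^ ex n p with hZ
    set A : ℂ := fmean (fun a : Fin m → F => ∏ k, EF (mkP m a) (t k) ^ n k)
    set A' : ℂ := fmean (fun a : Fin m → F => ∏ k, EF (mkP m a) (t k) ^ n k - WF F n m t a)
    rw [h4]
    have h7 : (A - A') * Z - 1 = (A * Z - 1) - A' * Z := by ring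
    rw [h7]
    refine (norm_sub_le _ _).trans ?_
    rw [norm_mul]
    have h8 : ‖A'‖ * ‖Z‖ ≤ (2 / (Fintype.card F : ℝ) * (C₃ * κ)) * Lam ρ ^ Np n :=
      mul_le_mul h5 h6 (norm_nonneg _) (by positivity)
    have hκ1 : κ ≤ 1 := by nlinarith
    have h9 : κ ^ 2 / (Fintype.card F : ℝ) ≤ κ / (Fintype.card F : ℝ) := by
      apply div_le_div_of_nonneg_right _ hq0.le
      nlinarith
    have h10 : 0 ≤ κ / (Fintype.card F : ℝ) := by positivity
    have h11 : 0 ≤ κ ^ (m + 1) := by positivity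
    calc ‖A * Z - 1‖ + ‖A'‖ * ‖Z‖ ≤ C₁ * (κ ^ 2 / (Fintype.card F : ℝ) + κ ^ (m + 1)) +
          (2 / (Fintype.card F : ℝ) * (C₃ * κ)) * Lam ρ ^ Np n := add_le_add h3 h8
      _ = C₁ * (κ ^ 2 / (Fintype.card F : ℝ) + κ ^ (m + 1)) +
          2 * C₃ * Lam ρ ^ Np n * (κ / (Fintype.card F : ℝ)) := by ring
      _ ≤ C₁ * (κ / (Fintype.card F : ℝ) + κ ^ (m + 1)) +
          2 * C₃ * Lam ρ ^ Np n * (κ / (Fintype.card F : ℝ) + κ ^ (m + 1)) := by
          gcongr
          linarith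
      _ ≤ (C₁ + C₃ + 2 * C₃ * Lam ρ ^ Np n) * (κ / (Fintype.card F : ℝ) + κ ^ (m + 1)) := by
          have : 0 ≤ C₃ * (κ / (Fintype.card F : ℝ) + κ ^ (m + 1)) := by positivity
          linarith

end Pool.Agent.T6.H9.HY
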